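import Pool.Agent.H64.TD.Defs

set_option autoImplicit false

/-!
Module Deck: the algebra of local functions and the deck principle.
-/

namespace Pool.Agent.H64.TD

open Finset Classical

variable {n : ℕ} {ι : Type}

/-- pull back a pattern -/
def h38_cm {κ κ' : Type} (e : κ' → κ) (p : Pat κ) : Pat κ' :=
  (fun i j => p.1 (e i) (e j), fun i j => p.2 (e i) (e j))

theorem h38_cm_typ {κ κ' : Type} (e : κ' → κ) (G : SimpleGraph (Fin n)) (k : κ → Fin n) :
    h38_cm e (typ G k) = typ G (fun i => k (e i)) := rfl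

/-- local functions with an arbitrary finite index type for the additional vertices -/
theorem h38_loc_of {τ : Type} [Fintype τ] [DecidableEq τ] (F : Pat (ι ⊕ τ) → ℚ) :
    Loc n ι (Fintype.card τ) (fun G f => ∑ y : τ → Fin n, F (typ G (Sum.elim f y))) := by
  let e := Fintype.equivFin τ
  refine ⟨fun p => F (h38_cm (Sum.map id e) p), fun G f => ?_⟩
  refine Fintype.sum_equiv (Equiv.arrowCongr e (Equiv.refl _)) _ _ ?_
  intro y
  beta_reduce
  rw [h38_cm_typ]
  congr 2
  funext i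
  rcases i with i | i
  · rfl
  · simp

theorem h38_sum_unique (Φ : (Fin 0 → Fin n) → ℚ) :
    ∑ y : Fin 0 → Fin n, Φ y = Φ (fun i => i.elim0) := by
  rw [Fintype.sum_unique]
  congr 1

theorem h38_sum_sum {τ τ' : Type} [Fintype τ] [Fintype τ'] [DecidableEq τ] [DecidableEq τ']
    (Φ : (τ ⊕ τ' → Fin n) → ℚ) :
    ∑ z : τ ⊕ τ' → Fin n, Φ z = ∑ y : τ → Fin n, ∑ y' : τ' → Fin n, Φ (Sum.elim y y') := by
  rw [← Fintype.sum_prod_type']
  refine Fintype.sum_equiv (Equiv.sumArrowEquivProdArrow τ τ' (Fin n)) _ _ ?_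
  intro z
  have hz : z = Sum.elim (fun i => z (Sum.inl i)) (fun i => z (Sum.inr i)) := by
    funext i
    rcases i with i | i <;> rfl
  exact congrArg Φ hz

theorem loc_typ (P : Pat ι → ℚ) : Loc n ι 0 (fun G f => P (typ G f)) := by
  refine ⟨fun p => P (h38_cm Sum.inl p), fun G f => ?_⟩
  beta_reduce
  rw [h38_sum_unique, h38_cm_typ]
  rfl

theorem Loc.add {s : ℕ} {g g' : SimpleGraph (Fin n) → (ι → Fin n) → ℚ}
    (h : Loc n ι s g) (h' : Loc n ι s g') : Loc n ι s (fun G f => g G f + g' G f) := by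
  obtain ⟨F, hF⟩ := h
  obtain ⟨F', hF'⟩ := h'
  refine ⟨fun p => F p + F' p, fun G f => ?_⟩
  beta_reduce
  rw [hF, hF', Finset.sum_add_distrib]

theorem Loc.smul {s : ℕ} {g : SimpleGraph (Fin n) → (ι → Fin n) → ℚ}
    (h : Loc n ι s g) (c : ℚ) : Loc n ι s (fun G f => c * g G f) := by
  obtain ⟨F, hF⟩ := h
  refine ⟨fun p => c * F p, fun G f => ?_⟩
  beta_reduce
  rw [hF, Finset.mul_sum]

theorem Loc.mul {s s' : ℕ} {g g' : SimpleGraph (Fin n) → (ι → Fin n) → ℚ}
    (h : Loc n ι s g) (h' : Loc n ι s' g') : Loc n ι (s + s') (fun G f => g G f * g' G f) := by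
  obtain ⟨F, hF⟩ := h
  obtain ⟨F', hF'⟩ := h'
  have h := h38_loc_of (n := n) (ι := ι) (τ := Fin s ⊕ Fin s')
    (fun p => F (h38_cm (Sum.map id Sum.inl) p) * F' (h38_cm (Sum.map id Sum.inr) p))
  rw [Fintype.card_sum, Fintype.card_fin, Fintype.card_fin] at h
  have h2 : (fun (G : SimpleGraph (Fin n)) (f : ι → Fin n) => g G f * g' G f) =
      (fun G f => ∑ y : Fin s ⊕ Fin s' → Fin n,
        F (h38_cm (Sum.map id Sum.inl) (typ G (Sum.elim f y))) *
        F' (h38_cm (Sum.map id Sum.inr) (typ G (Sum.elim f y)))) := by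
    funext G f
    rw [h38_sum_sum, hF, hF', Finset.sum_mul_sum]
    refine Finset.sum_congr rfl fun y _ => Finset.sum_congr rfl fun y' _ => ?_
    rw [h38_cm_typ, h38_cm_typ]
    congr 1
    · congr 2
      funext i
      rcases i with i | i <;> rfl
    · congr 2
      funext i
      rcases i with i | i <;> rfl
  rw [h2]
  exact h

theorem Loc.mono [NeZero n] {s s' : ℕ} {g : SimpleGraph (Fin n) → (ι → Fin n) → ℚ}
    (h : Loc n ι s g) (hs : s ≤ s') : Loc n ι s' g := by
  obtain ⟨t, rfl⟩ := Nat.exists_eq_add_of_le hs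
  have h1 : Loc n ι t (fun _ _ => (1 : ℚ)) := by
    refine ⟨fun _ => 1 / (n : ℚ) ^ t, fun G f => ?_⟩
    have hn : (n : ℚ) ≠ 0 := Nat.cast_ne_zero.mpr (NeZero.ne n)
    rw [Finset.sum_const, Finset.card_univ, Fintype.card_fun, Fintype.card_fin, Fintype.card_fin,
      nsmul_eq_mul]
    push_cast
    field_simp
  have h2 := h.mul h1
  simpa using h2

/-- Base change along a map of index types. -/
theorem Loc.comp {ι' : Type} {s : ℕ} {g : SimpleGraph (Fin n) → (ι → Fin n) → ℚ}
    (h : Loc n ι s g) (e : ι → ι') : Loc n ι' s (fun G f => g G (fun i => f (e i))) := by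
  obtain ⟨F, hF⟩ := h
  refine ⟨fun p => F (h38_cm (Sum.map e id) p), fun G f => ?_⟩
  beta_reduce
  rw [hF]
  refine Finset.sum_congr rfl fun y _ => ?_
  rw [h38_cm_typ]
  congr 2
  funext i
  rcases i with i | i <;> rfl

/-- Summing out a part of the base. -/
theorem Loc.sumOut {κ : Type} [Fintype κ] {s : ℕ}
    {g : SimpleGraph (Fin n) → (ι ⊕ κ → Fin n) → ℚ} (h : Loc n (ι ⊕ κ) s g) :
    Loc n ι (Fintype.card κ + s) (fun G f => ∑ y : κ → Fin n, g G (Sum.elim f y)) := by
  obtain ⟨F, hF⟩ := h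
  have h := h38_loc_of (n := n) (ι := ι) (τ := κ ⊕ Fin s)
    (fun p => F (h38_cm (Equiv.sumAssoc ι κ (Fin s)) p))
  rw [Fintype.card_sum, Fintype.card_fin] at h
  have h2 : (fun (G : SimpleGraph (Fin n)) (f : ι → Fin n) =>
      ∑ y : κ → Fin n, g G (Sum.elim f y)) =
      (fun G f => ∑ y : κ ⊕ Fin s → Fin n,
        F (h38_cm (Equiv.sumAssoc ι κ (Fin s)) (typ G (Sum.elim f y)))) := by
    funext G f
    rw [h38_sum_sum]
    refine Finset.sum_congr rfl fun y _ => ?_
    rw [hF]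
    refine Finset.sum_congr rfl fun y' _ => ?_
    rw [h38_cm_typ]
    congr 2
    funext i
    rcases i with (i | i) | i <;> rfl
  rw [h2]
  exact h

theorem loc_dg (z : ι) : Loc n ι 1 (fun G f => (dg G (f z) : ℚ)) := by
  refine ⟨fun p => if p.2 (Sum.inl z) (Sum.inr 0) then 1 else 0, fun G f => ?_⟩
  have h : ∑ y : Fin 1 → Fin n, (if (typ G (Sum.elim f y)).2 (Sum.inl z) (Sum.inr 0) then (1 : ℚ)
      else 0) = ∑ w : Fin n, if G.Adj (f z) w then (1 : ℚ) else 0 := by
    refine Fintype.sum_equiv (Equiv.funUnique (Fin 1) (Fin n)) _ _ ?_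
    intro y
    rfl
  beta_reduce
  rw [h, Finset.sum_boole]
  rfl

theorem loc_const [NeZero n] (s : ℕ) (c : ℚ) : Loc n ι s (fun _ _ => c) :=
  (loc_typ (n := n) (ι := ι) (fun _ => c)).mono (Nat.zero_le s)

theorem Loc.sub {s : ℕ} {g g' : SimpleGraph (Fin n) → (ι → Fin n) → ℚ}
    (h : Loc n ι s g) (h' : Loc n ι s g') : Loc n ι s (fun G f => g G f - g' G f) := by
  have := h.add (h'.smul (-1))
  have e : (fun (G : SimpleGraph (Fin n)) (f : ι → Fin n) => g G f - g' G f) =
      (fun G f => g G f + (-1) * g' G f) := by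
    funext G f
    ring
  rw [e]
  exact this

theorem Loc.sum [NeZero n] {β : Type} (S : Finset β) {s : ℕ}
    {g : β → SimpleGraph (Fin n) → (ι → Fin n) → ℚ} (h : ∀ b ∈ S, Loc n ι s (g b)) :
    Loc n ι s (fun G f => ∑ b ∈ S, g b G f) := by
  induction S using Finset.induction_on with
  | empty =>
    simpa using loc_const (n := n) (ι := ι) s 0
  | insert a S ha ih =>
    have h1 := ih (fun b hb => h b (Finset.mem_insert_of_mem hb))
    have h2 := (h a (Finset.mem_insert_self a S)).add h1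
    have e : (fun (G : SimpleGraph (Fin n)) (f : ι → Fin n) => ∑ b ∈ insert a S, g b G f) =
        (fun G f => g a G f + ∑ b ∈ S, g b G f) := by
      funext G f
      rw [Finset.sum_insert ha]
    rw [e]
    exact h2

theorem Loc.prod [NeZero n] {β : Type} (S : Finset β) {s : ℕ}
    {g : β → SimpleGraph (Fin n) → (ι → Fin n) → ℚ} (h : ∀ b ∈ S, Loc n ι s (g b)) :
    Loc n ι (S.card * s) (fun G f => ∏ b ∈ S, g b G f) := by
  induction S using Finset.induction_on with
  | empty =>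
    simpa using loc_const (n := n) (ι := ι) 0 1
  | insert a S ha ih =>
    have h1 := ih (fun b hb => h b (Finset.mem_insert_of_mem hb))
    have h2 := (h a (Finset.mem_insert_self a S)).mul h1
    have e : (fun (G : SimpleGraph (Fin n)) (f : ι → Fin n) => ∏ b ∈ insert a S, g b G f) =
        (fun G f => g a G f * ∏ b ∈ S, g b G f) := by
      funext G f
      rw [Finset.prod_insert ha]
    have e2 : (insert a S).card * s = s + S.card * s := by
      rw [Finset.card_insert_of_notMem ha]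
      ring
    rw [e, e2]
    exact h2

theorem Loc.pow [NeZero n] {s : ℕ} {g : SimpleGraph (Fin n) → (ι → Fin n) → ℚ}
    (h : Loc n ι s g) (k : ℕ) : Loc n ι (k * s) (fun G f => g G f ^ k) := by
  have h1 := Loc.prod (n := n) (Finset.range k) (g := fun _ => g) (fun _ _ => h)
  simpa using h1

theorem SameDeck.symm {ℓ : ℕ} {G T : SimpleGraph (Fin n)} (h : SameDeck ℓ G T) :
    SameDeck ℓ T G := fun H => (h H).symm

/-- number of classes of the equality part of a pattern -/
noncomputable def h38_rho {κ : Type} (p : Pat κ) : ℕ := (Set.range p.1).ncard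

theorem h38_rho_typ {κ : Type} [Fintype κ] (G : SimpleGraph (Fin n)) (k : κ → Fin n) :
    h38_rho (typ G k) = (Finset.univ.image k).card := by
  have h1 : (Finset.univ.image k).card = (Set.range k).ncard := by
    rw [← Set.ncard_coe_finset]
    simp
  rw [h1, h38_rho]
  have h2 : Set.range (typ G k).1 = (fun (v : Fin n) (j : κ) => v = k j) '' Set.range k := by
    ext x
    constructor
    · rintro ⟨i, rfl⟩
      exact ⟨k i, ⟨i, rfl⟩, rfl⟩
    · rintro ⟨v, ⟨i, rfl⟩, rfl⟩
      exact ⟨i, rfl⟩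
  rw [h2]
  apply Set.InjOn.ncard_image
  rintro _ ⟨i, rfl⟩ _ ⟨j, rfl⟩ hij
  have := congrFun hij j
  simp only [eq_iff_iff, iff_true] at this
  exact this

/-- the sum over tuples in a graph on `Fin ℓ` -/
noncomputable def h38_w {κ : Type} [Fintype κ] [DecidableEq κ] (ℓ : ℕ) (F : Pat κ → ℚ)
    (H : SimpleGraph (Fin ℓ)) : ℚ := ∑ k : κ → Fin ℓ, F (typ H k)

theorem h38_w_iso {κ : Type} [Fintype κ] [DecidableEq κ] {ℓ : ℕ} (F : Pat κ → ℚ)
    {H H' : SimpleGraph (Fin ℓ)} (φ : H ≃g H') : h38_w ℓ F H = h38_w ℓ F H' := by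
  refine Fintype.sum_equiv (Equiv.arrowCongr (Equiv.refl κ) φ.toEquiv) _ _ ?_
  intro k
  congr 1
  refine Prod.ext ?_ ?_
  · funext i j
    simp only [typ, Equiv.arrowCongr_apply, Equiv.refl_symm, Equiv.coe_refl, Function.comp_apply,
      id_eq, eq_iff_iff]
    exact φ.toEquiv.injective.eq_iff.symm
  · funext i j
    simp only [typ, Equiv.arrowCongr_apply, Equiv.refl_symm, Equiv.coe_refl, Function.comp_apply,
      id_eq, eq_iff_iff]
    exact φ.map_adj_iff.symm

/-- isomorphism of graphs on `Fin ℓ` -/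
def h38_setoid (ℓ : ℕ) : Setoid (SimpleGraph (Fin ℓ)) where
  r H H' := Nonempty (H ≃g H')
  iseqv := ⟨fun _ => ⟨SimpleGraph.Iso.refl⟩, fun ⟨a⟩ => ⟨a.symm⟩, fun ⟨a⟩ ⟨b⟩ => ⟨a.trans b⟩⟩

/-- the graph induced on an `ℓ`-set, on the vertex set `Fin ℓ` -/
noncomputable def h38_gs {ℓ : ℕ} (G : SimpleGraph (Fin n)) (S : Finset (Fin n)) :
    SimpleGraph (Fin ℓ) :=
  if h : S.card = ℓ then G.comap (fun i => ((S.equivFinOfCardEq h).symm i : Fin n)) else ⊥

theorem h38_gs_iso {ℓ : ℕ} (G : SimpleGraph (Fin n)) (S : Finset (Fin n)) (h : S.card = ℓ) :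
    Nonempty (G.induce (S : Set (Fin n)) ≃g (h38_gs G S : SimpleGraph (Fin ℓ))) := by
  rw [h38_gs, dif_pos h]
  refine ⟨⟨S.equivFinOfCardEq h, ?_⟩⟩
  intro a b
  simp

theorem h38_inner {κ : Type} [Fintype κ] [DecidableEq κ] {ℓ : ℕ} (F : Pat κ → ℚ) (G : SimpleGraph (Fin n))
    (S : Finset (Fin n)) (h : S.card = ℓ) :
    ∑ k ∈ (Finset.univ : Finset (κ → Fin n)).filter (fun k => ∀ i, k i ∈ S), F (typ G k) =
      h38_w ℓ F (h38_gs G S) := by
  rw [h38_w]
  symm
  refine Finset.sum_bij (fun k _ => fun i => ((S.equivFinOfCardEq h).symm (k i) : Fin n))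
    ?_ ?_ ?_ ?_
  · intro k _
    simp
  · intro k _ k' _ hk
    funext i
    have := congrFun hk i
    exact (S.equivFinOfCardEq h).symm.injective (Subtype.ext this)
  · intro k hk
    simp only [Finset.mem_filter, Finset.mem_univ, true_and] at hk
    refine ⟨fun i => S.equivFinOfCardEq h ⟨k i, hk i⟩, Finset.mem_univ _, ?_⟩
    funext i
    simp
  · intro k _
    congr 1
    rw [h38_gs, dif_pos h]
    refine Prod.ext ?_ ?_
    · funext i j
      simp only [typ, eq_iff_iff]
      rw [← Subtype.ext_iff]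
      exact (S.equivFinOfCardEq h).symm.injective.eq_iff.symm
    · rfl

theorem h38_count {ℓ : ℕ} (A : Finset (Fin n)) (hA : A.card ≤ ℓ) :
    ((Finset.powersetCard ℓ (Finset.univ : Finset (Fin n))).filter (fun S => A ⊆ S)).card =
      (n - A.card).choose (ℓ - A.card) := by
  have h1 : ((Finset.powersetCard ℓ (Finset.univ : Finset (Fin n))).filter (fun S => A ⊆ S)) =
      (Finset.powersetCard (ℓ - A.card) (Aᶜ)).image (fun B => A ∪ B) := by
    ext S
    simp only [Finset.mem_filter, Finset.mem_powersetCard, Finset.mem_image, Finset.subset_univ,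
      true_and]
    constructor
    · rintro ⟨h1, h2⟩
      refine ⟨S \ A, ⟨?_, ?_⟩, ?_⟩
      · intro x hx
        rw [Finset.mem_compl]
        exact (Finset.mem_sdiff.mp hx).2
      · rw [Finset.card_sdiff_of_subset h2, h1]
      · exact Finset.union_sdiff_of_subset h2
    · rintro ⟨B, ⟨h1, h2⟩, rfl⟩
      refine ⟨?_, Finset.subset_union_left⟩
      rw [Finset.card_union_of_disjoint, h2]
      · omega
      · rw [Finset.disjoint_left]
        intro x hx hx'
        exact (Finset.mem_compl.mp (h1 hx')) hx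
  rw [h1, Finset.card_image_of_injOn, Finset.card_powersetCard, Finset.card_compl,
    Fintype.card_fin]
  intro B hB B' hB' hBB
  rw [Finset.mem_coe, Finset.mem_powersetCard] at hB hB'
  have hd : ∀ C : Finset (Fin n), C ⊆ Aᶜ → (A ∪ C) \ A = C := by
    intro C hC
    ext x
    simp only [Finset.mem_sdiff, Finset.mem_union]
    constructor
    · rintro ⟨h1 | h1, h2⟩
      · exact absurd h1 h2
      · exact h1
    · intro h1
      exact ⟨Or.inr h1, Finset.mem_compl.mp (hC h1)⟩
  have h2 : (A ∪ B) \ A = (A ∪ B') \ A := by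
    have : A ∪ B = A ∪ B' := hBB
    rw [this]
  rwa [hd B hB.1, hd B' hB'.1] at h2

theorem h38_sum_eq {κ : Type} [Fintype κ] [DecidableEq κ] {ℓ : ℕ} (hℓ : ℓ ≤ n) (hκ : Fintype.card κ ≤ ℓ)
    (F : Pat κ → ℚ) (G : SimpleGraph (Fin n)) :
    ∑ k : κ → Fin n, F (typ G k) =
      ∑ S ∈ Finset.powersetCard ℓ (Finset.univ : Finset (Fin n)),
        h38_w ℓ (fun p => F p / ((n - h38_rho p).choose (ℓ - h38_rho p) : ℕ)) (h38_gs G S) := by
  have h1 : ∀ S ∈ Finset.powersetCard ℓ (Finset.univ : Finset (Fin n)),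
      h38_w ℓ (fun p => F p / ((n - h38_rho p).choose (ℓ - h38_rho p) : ℕ)) (h38_gs G S) =
      ∑ k : κ → Fin n, if (∀ i, k i ∈ S) then
        F (typ G k) / ((n - h38_rho (typ G k)).choose (ℓ - h38_rho (typ G k)) : ℕ) else 0 := by
    intro S hS
    rw [← h38_inner _ G S (Finset.mem_powersetCard.mp hS).2, Finset.sum_filter]
  rw [Finset.sum_congr rfl h1, Finset.sum_comm]
  refine Finset.sum_congr rfl fun k _ => ?_
  rw [← Finset.sum_filter, Finset.sum_const]
  have h2 : (Finset.powersetCard ℓ (Finset.univ : Finset (Fin n))).filter (fun S => ∀ i, k i ∈ S) =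
      (Finset.powersetCard ℓ (Finset.univ : Finset (Fin n))).filter
        (fun S => Finset.univ.image k ⊆ S) := by
    refine Finset.filter_congr fun S _ => ?_
    constructor
    · intro h x hx
      obtain ⟨i, -, rfl⟩ := Finset.mem_image.mp hx
      exact h i
    · intro h i
      exact h (Finset.mem_image_of_mem k (Finset.mem_univ i))
  have hcard : (Finset.univ.image k).card ≤ ℓ := by
    refine le_trans Finset.card_image_le ?_
    rwa [Finset.card_univ]
  rw [h2, h38_count _ hcard, h38_rho_typ, nsmul_eq_mul]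
  have hpos : 0 < (n - (Finset.univ.image k).card).choose (ℓ - (Finset.univ.image k).card) :=
    Nat.choose_pos (by omega)
  have hne : (((n - (Finset.univ.image k).card).choose (ℓ - (Finset.univ.image k).card) : ℕ) : ℚ)
      ≠ 0 := by
    exact_mod_cast hpos.ne'
  field_simp

theorem h38_deck {ℓ : ℕ} {G T : SimpleGraph (Fin n)} (h : SameDeck ℓ G T)
    (W : Quotient (h38_setoid ℓ) → ℚ) :
    ∑ S ∈ Finset.powersetCard ℓ (Finset.univ : Finset (Fin n)),
      W (Quotient.mk (h38_setoid ℓ) (h38_gs G S)) =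
    ∑ S ∈ Finset.powersetCard ℓ (Finset.univ : Finset (Fin n)),
      W (Quotient.mk (h38_setoid ℓ) (h38_gs T S)) := by
  have key : ∀ G' : SimpleGraph (Fin n),
      ∑ S ∈ Finset.powersetCard ℓ (Finset.univ : Finset (Fin n)),
        W (Quotient.mk (h38_setoid ℓ) (h38_gs G' S)) =
      ∑ q : Quotient (h38_setoid ℓ), ({S : Finset (Fin n) | S.card = ℓ ∧
        Nonempty (G'.induce (S : Set (Fin n)) ≃g q.out)}.ncard : ℚ) * W q := by
    intro G'
    rw [← Finset.sum_fiberwise_of_maps_to (t := Finset.univ)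
      (g := fun S => Quotient.mk (h38_setoid ℓ) (h38_gs G' S)) (fun _ _ => Finset.mem_univ _)]
    refine Finset.sum_congr rfl fun q _ => ?_
    rw [Finset.sum_congr rfl (g := fun _ => W q) (fun S hS => by
      rw [(Finset.mem_filter.mp hS).2]), Finset.sum_const, nsmul_eq_mul]
    congr 2
    rw [← Set.ncard_coe_finset]
    congr 1
    ext S
    simp only [Finset.coe_filter, Finset.mem_powersetCard, Finset.subset_univ, true_and,
      Set.mem_ofPred_eq]
    constructor
    · rintro ⟨h1, h2⟩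
      refine ⟨h1, ?_⟩
      obtain ⟨e⟩ := h38_gs_iso G' S h1
      have h3 : Quotient.mk (h38_setoid ℓ) (h38_gs G' S) = Quotient.mk (h38_setoid ℓ) q.out := by
        rw [h2, Quotient.out_eq]
      obtain ⟨e'⟩ := Quotient.exact h3
      exact ⟨e.trans e'⟩
    · rintro ⟨h1, ⟨e'⟩⟩
      refine ⟨h1, ?_⟩
      obtain ⟨e⟩ := h38_gs_iso G' S h1
      rw [← Quotient.out_eq q]
      exact Quotient.sound ⟨e.symm.trans e'⟩
  rw [key G, key T]
  refine Finset.sum_congr rfl fun q _ => ?_
  rw [h q.out]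

/-- The deck principle: sums of local functions of total size at most `ℓ` agree. -/
theorem deck_sum {ℓ : ℕ} {G T : SimpleGraph (Fin n)} (hℓ : ℓ ≤ n) (h : SameDeck ℓ G T)
    [Fintype ι] {s : ℕ} {g : SimpleGraph (Fin n) → (ι → Fin n) → ℚ} (hg : Loc n ι s g)
    (hs : Fintype.card ι + s ≤ ℓ) : ∑ f : ι → Fin n, g G f = ∑ f : ι → Fin n, g T f := by
  obtain ⟨F, hF⟩ := hg
  have h1 : ∀ G' : SimpleGraph (Fin n), ∑ f : ι → Fin n, g G' f =
      ∑ k : ι ⊕ Fin s → Fin n, F (typ G' k) := by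
    intro G'
    rw [h38_sum_sum]
    exact Finset.sum_congr rfl fun f _ => hF G' f
  have hc : Fintype.card (ι ⊕ Fin s) ≤ ℓ := by
    rw [Fintype.card_sum, Fintype.card_fin]
    exact hs
  rw [h1, h1, h38_sum_eq hℓ hc, h38_sum_eq hℓ hc]
  exact h38_deck h (Quotient.lift (h38_w ℓ _) fun _ _ ⟨φ⟩ => h38_w_iso _ φ)

end Pool.Agent.H64.TD
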