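import Mathlib

set_option autoImplicit false

/-!
Definitions for the reconstruction of trees from decks of about half size (MP_25b63e_co, S07713).
-/

namespace Pool.Agent.H64.TD

open Finset Classical

/-- `G` and `T` have the same `ℓ`-deck. -/
def SameDeck {n : ℕ} (ℓ : ℕ) (G T : SimpleGraph (Fin n)) : Prop :=
  ∀ H : SimpleGraph (Fin ℓ),
    {S : Finset (Fin n) | S.card = ℓ ∧ Nonempty (G.induce (S : Set (Fin n)) ≃g H)}.ncard =
    {S : Finset (Fin n) | S.card = ℓ ∧ Nonempty (T.induce (S : Set (Fin n)) ≃g H)}.ncard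

/-- Patterns: the equality relation and the adjacency relation of a labelled tuple. -/
def Pat (κ : Type) : Type := (κ → κ → Prop) × (κ → κ → Prop)

/-- The pattern of a tuple of vertices. -/
def typ {κ : Type} {n : ℕ} (G : SimpleGraph (Fin n)) (k : κ → Fin n) : Pat κ :=
  (fun i j => k i = k j, fun i j => G.Adj (k i) (k j))

/-- `g` is a local function of size `s` over the base `ι`: a sum, over `s` further vertices, of a
function of the pattern. -/
def Loc (n : ℕ) (ι : Type) (s : ℕ) (g : SimpleGraph (Fin n) → (ι → Fin n) → ℚ) : Prop :=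
  ∃ F : Pat (ι ⊕ Fin s) → ℚ, ∀ G f, g G f = ∑ y : Fin s → Fin n, F (typ G (Sum.elim f y))

/-- Degree (classical decidability). -/
noncomputable def dg {V : Type} [Fintype V] (G : SimpleGraph V) (v : V) : ℕ :=
  (univ.filter (fun w => G.Adj v w)).card

/-- Injective homomorphisms. -/
def Emb {α V : Type} (X : SimpleGraph α) (G : SimpleGraph V) (f : α → V) : Prop :=
  Function.Injective f ∧ ∀ u v, X.Adj u v → G.Adj (f u) (f v)

/-- Closed embeddings of a rooted graph: all the `G`-neighbours of the image of a vertex other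
than the root are images of `X`-neighbours. -/
def Cl {α V : Type} (X : SimpleGraph α) (r : α) (G : SimpleGraph V) (f : α → V) : Prop :=
  Emb X G f ∧ ∀ z, z ≠ r → ∀ v, G.Adj (f z) v → ∃ w, X.Adj z w ∧ f w = v

/-- `y` is a sequence growing from the image of the root and avoiding the image of `f`. -/
def Beh {α V : Type} (r : α) (q : ℕ) (G : SimpleGraph V) (f : α → V) (y : Fin q → V) : Prop :=
  Function.Injective (Sum.elim f y) ∧ ∀ j, G.Adj (f r) (y j) ∨ ∃ i, i < j ∧ G.Adj (y i) (y j)

/-- Number of growing sequences of length `q` behind an embedding. -/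
noncomputable def fq {α : Type} {n : ℕ} (X : SimpleGraph α) (r : α) (q : ℕ)
    (G : SimpleGraph (Fin n)) (f : α → Fin n) : ℚ :=
  ∑ y : Fin q → Fin n, if Emb X G f ∧ Beh r q G f y then 1 else 0

/-- A planted tree: the root `r` has the only neighbour `x`. -/
def Planted {α : Type} (X : SimpleGraph α) (r x : α) : Prop :=
  X.IsTree ∧ ∀ v, X.Adj r v ↔ v = x

/-- The branch at `a` in the direction of its neighbour `b`. -/
noncomputable def Br {V : Type} [Fintype V] (T : SimpleGraph V) (a b : V) : Finset V :=
  univ.filter (fun u => T.dist b u < T.dist a u)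

/-- The branch at `a` in the direction of `b`, together with `a`. -/
noncomputable def BS {V : Type} [Fintype V] (T : SimpleGraph V) (a b : V) : Finset V :=
  insert a (Br T a b)

/-- The graph induced on the branch with its root. -/
noncomputable def BX {V : Type} [Fintype V] (T : SimpleGraph V) (a b : V) :
    SimpleGraph ↥(BS T a b) :=
  T.comap (fun x => (x : V))

/-- The root of a branch. -/
noncomputable def bRoot {V : Type} [Fintype V] (T : SimpleGraph V) (a b : V) : ↥(BS T a b) :=
  ⟨a, Finset.mem_insert_self a _⟩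

/-- The level at distance `k` from `a` of the branch at `a` in the direction of `b`. -/
noncomputable def Lv {V : Type} [Fintype V] (T : SimpleGraph V) (a b : V) (k : ℕ) : Finset V :=
  (Br T a b).filter (fun u => T.dist a u = k)

/-- A matching isomorphism `θ` between `T` and `G`, closed on the interior `I`, with the only
boundary vertex `c`, sent to `c'`. -/
structure PM {V : Type} (T G : SimpleGraph V) (c c' : V) (I : Finset V) (θ : Equiv.Perm V) :
    Prop where
  notMem : c ∉ I
  root : θ c = c'
  closed : ∀ u ∈ I, ∀ v, T.Adj u v → v ∈ I ∨ v = c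
  iso : ∀ u ∈ I, ∀ v, T.Adj u v ↔ G.Adj (θ u) (θ v)

/-- The size of the test polynomials. -/
def cost (n q F₀ : ℕ) : ℕ := F₀ * Nat.sqrt (2 * n ^ 2 / (q + 1)) + n ^ 2 / (F₀ * (q + 1))

/-- Numerical hypotheses. -/
structure Num (n ℓ q F₀ R m₀ : ℕ) : Prop where
  le : ℓ ≤ n
  pos : 1 ≤ F₀
  big : n / 2 + 2 * q + 2 * cost n q F₀ + 8 * (m₀ + 1) + 2 * R * q + 10 ≤ ℓ
  small : 2 * n < (R + 1) * m₀

end Pool.Agent.H64.TD
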