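import Pool.Agent.H64.TD.Master

set_option autoImplicit false

/-!
Module Exact: the numbers of closed copies agree (moment argument).
-/

namespace Pool.Agent.H64.TD

open Finset Classical

variable {n : ℕ} {α : Type} [Fintype α]

omit [Fintype α] in
theorem loc_fq (X : SimpleGraph α) (r : α) (q : ℕ) :
    Loc n α q (fun G f => fq X r q G f) := by
  have h := (loc_val (n := n) X r q).sumOut
  rw [Fintype.card_fin, add_zero] at h
  convert! h using 3
  unfold fq
  refine Finset.sum_congr ?_ fun y _ => if_congr Iff.rfl rfl rfl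
  ext y
  simp

/-- The number of growing sequences behind a closed embedding into a tree depends only on the
directed edge at the root. -/
theorem fq_eq_of_edge {T : SimpleGraph (Fin n)} (hT : T.IsTree) {X : SimpleGraph α} {r x : α}
    (hX : Planted X r x) {q : ℕ} {f f' : α → Fin n} (hf : Cl X r T f) (hf' : Cl X r T f')
    (h1 : f r = f' r) (h2 : f x = f' x) : fq X r q T f = fq X r q T f' := by
  have hrx : X.Adj r x := (hX.2 x).2 rfl
  have hEx : ∀ {f : α → Fin n}, Cl X r T f → ∀ k, Ex X r x k T f = 0 := by
    intro f hf k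
    rw [Ex_eq_zero_iff hf.1]
    intro z hz
    exact (cl_iff_dg.1 hf).2 z (fun h => left_notMem_Br (h ▸ (mem_Lv.1 hz).1))
  have i1 := image_Br hT hX.1 hf.1 hrx (hEx hf)
  have i2 := image_Br hT hX.1 hf'.1 hrx (hEx hf')
  rw [h1, h2, ← i2] at i1
  have hrange : ∀ v, (∃ z, f z = v) ↔ ∃ z, f' z = v := by
    intro v
    constructor
    · rintro ⟨z, rfl⟩
      by_cases hz : z = r
      · exact ⟨r, by rw [hz, h1]⟩
      · have : f z ∈ (Br X r x).image f := Finset.mem_image_of_mem _ (by
          rw [planted_Br hX, Finset.mem_erase]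
          exact ⟨hz, Finset.mem_univ _⟩)
        rw [i1, Finset.mem_image] at this
        obtain ⟨w, _, hw⟩ := this
        exact ⟨w, hw⟩
    · rintro ⟨z, rfl⟩
      by_cases hz : z = r
      · exact ⟨r, by rw [hz, h1]⟩
      · have : f' z ∈ (Br X r x).image f' := Finset.mem_image_of_mem _ (by
          rw [planted_Br hX, Finset.mem_erase]
          exact ⟨hz, Finset.mem_univ _⟩)
        rw [← i1, Finset.mem_image] at this
        obtain ⟨w, _, hw⟩ := this
        exact ⟨w, hw⟩
  have key : ∀ {f f' : α → Fin n}, Cl X r T f → Cl X r T f' → f r = f' r →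
      (∀ v, (∃ z, f z = v) ↔ ∃ z, f' z = v) → ∀ y : Fin q → Fin n, Beh r q T f y →
      Beh r q T f' y := by
    intro f f' hf hf' h1 hrange y hy
    refine ⟨?_, ?_⟩
    · intro i j hij
      rcases i with i | i
      · rcases j with j | j
        · exact congrArg _ (hf'.1.1 hij)
        · exfalso
          simp only [Sum.elim_inl, Sum.elim_inr] at hij
          obtain ⟨z, hz⟩ := (hrange (f' i)).2 ⟨i, rfl⟩
          have := hy.1 (a₁ := Sum.inl z) (a₂ := Sum.inr j) (by simp [hz, hij])
          simp at this
      · rcases j with j | j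
        · exfalso
          simp only [Sum.elim_inl, Sum.elim_inr] at hij
          obtain ⟨z, hz⟩ := (hrange (f' j)).2 ⟨j, rfl⟩
          have := hy.1 (a₁ := Sum.inl z) (a₂ := Sum.inr i) (by simp [hz, hij])
          simp at this
        · exact hy.1 (a₁ := Sum.inr i) (a₂ := Sum.inr j) hij
    · rw [← h1]
      exact hy.2
  unfold fq
  refine Finset.sum_congr rfl fun y _ => ?_
  congr 1
  rw [eq_iff_iff]
  constructor
  · rintro ⟨_, h⟩
    exact ⟨hf'.1, key hf hf' h1 hrange y h⟩
  · rintro ⟨_, h⟩
    exact ⟨hf.1, key hf' hf h1.symm (fun v => (hrange v).symm) y h⟩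

/-- Closed embeddings into a tree: the size of the branch. -/
theorem card_Br_of_cl {T : SimpleGraph (Fin n)} (hT : T.IsTree) {X : SimpleGraph α} {r x : α}
    (hX : Planted X r x) {f : α → Fin n} (hf : Cl X r T f) :
    (Br T (f r) (f x)).card = Fintype.card α - 1 := by
  have hrx : X.Adj r x := (hX.2 x).2 rfl
  have hEx : ∀ k, Ex X r x k T f = 0 := by
    intro k
    rw [Ex_eq_zero_iff hf.1]
    intro z hz
    exact (cl_iff_dg.1 hf).2 z (fun h => left_notMem_Br (h ▸ (mem_Lv.1 hz).1))
  rw [← image_Br hT hX.1 hf.1 hrx hEx, Finset.card_image_of_injective _ hf.1.1, planted_Br hX,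
    Finset.card_erase_of_mem (Finset.mem_univ _), Finset.card_univ]

/-- Exact numbers of closed embeddings with a large region behind. -/
theorem exact_count {ℓ : ℕ} {T G : SimpleGraph (Fin n)} (hT : T.IsTree) (hℓ : ℓ ≤ n)
    (hd : SameDeck ℓ G T) {X : SimpleGraph α} {r x : α} (hX : Planted X r x) (q F₀ R : ℕ)
    (hF : 1 ≤ F₀)
    (hR : n ^ 2 < (R + 1) * ((Fintype.card α - 1) * (n - (Fintype.card α - 1))))
    (h1 : Fintype.card α + q + 2 * (cost n q F₀ + 1) ≤ ℓ)
    (h2 : Fintype.card α + q + cost n q F₀ + 2 * R * q ≤ ℓ) :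
    (univ.filter (fun f : α → Fin n => Cl X r G f ∧ fq X r q G f ≠ 0)).card =
      (univ.filter (fun f : α → Fin n => Cl X r T f ∧ fq X r q T f ≠ 0)).card := by
  have : NeZero n := by
    obtain ⟨v⟩ := hT.connected.nonempty
    exact ⟨fun h => by subst h; exact v.elim0⟩
  have hrx : X.Adj r x := (hX.2 x).2 rfl
  -- the set of values in `T`
  set A := univ.filter (fun f : α → Fin n => Cl X r T f ∧ fq X r q T f ≠ 0) with hA
  set B := univ.filter (fun f : α → Fin n => Cl X r G f ∧ fq X r q G f ≠ 0) with hB
  set W : Finset ℚ := A.image (fun f => fq X r q T f) with hW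
  set E : Finset (Fin n × Fin n) := A.image (fun f => (f r, f x)) with hE
  have hEcard : E.card ≤ R := by
    have := card_edges_mul hT (Fintype.card α - 1) E (by
      intro e he
      rw [hE, Finset.mem_image] at he
      obtain ⟨f, hf, rfl⟩ := he
      rw [hA, Finset.mem_filter] at hf
      exact ⟨hf.2.1.1.2 _ _ hrx, card_Br_of_cl hT hX hf.2.1⟩)
    rw [Fintype.card_fin] at this
    by_contra hlt
    push Not at hlt
    have : (R + 1) * ((Fintype.card α - 1) * (n - (Fintype.card α - 1))) ≤ n ^ 2 :=
      le_trans (Nat.mul_le_mul_right _ hlt) this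
    omega
  have hWcard : W.card ≤ R := by
    refine le_trans ?_ hEcard
    have hchoose : ∀ v ∈ W, ∃ f ∈ A, fq X r q T f = v := by
      intro v hv
      rw [hW, Finset.mem_image] at hv
      exact hv
    choose! g hg1 hg2 using hchoose
    refine Finset.card_le_card_of_injOn (fun v => (g v r, g v x)) ?_ ?_
    · intro v hv
      exact Finset.mem_image_of_mem (fun f : α → Fin n => (f r, f x)) (hg1 v hv)
    · intro v hv v' hv' hvv
      simp only [Prod.mk.injEq] at hvv
      have c1 := (Finset.mem_filter.1 (hg1 v hv)).2.1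
      have c2 := (Finset.mem_filter.1 (hg1 v' hv')).2.1
      rw [← hg2 v hv, ← hg2 v' hv']
      exact fq_eq_of_edge hT hX c1 c2 hvv.1 hvv.2
  -- all values in `G` are among the values in `T`
  have hBW : ∀ f ∈ B, fq X r q G f ∈ W := by
    have hloc : Loc n α (2 * R * q) (fun H f => ∏ v ∈ W, (fq X r q H f - v) ^ 2) := by
      refine Loc.mono (s := W.card * (2 * q)) (Loc.prod _ ?_) ?_
      · intro v _
        exact ((loc_fq X r q).sub (loc_const q v)).pow 2
      · calc W.card * (2 * q) ≤ R * (2 * q) := Nat.mul_le_mul_right _ hWcard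
          _ = 2 * R * q := by ring
    have hm := master hT hℓ hd hX q F₀ (2 * R * q) hF h1 h2 hloc
    have hT0 : ∀ f : α → Fin n, (if Cl X r T f then fq X r q T f *
        ∏ v ∈ W, (fq X r q T f - v) ^ 2 else 0) = 0 := by
      intro f
      by_cases hc : Cl X r T f
      · rw [if_pos hc]
        by_cases h0 : fq X r q T f = 0
        · rw [h0, zero_mul]
        · refine mul_eq_zero_of_right _ (Finset.prod_eq_zero (i := fq X r q T f) ?_ (by simp))
          rw [hW]
          exact Finset.mem_image_of_mem _ (by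
            rw [hA, Finset.mem_filter]
            exact ⟨Finset.mem_univ _, hc, h0⟩)
      · rw [if_neg hc]
    rw [Finset.sum_eq_zero (s := univ) (f := fun f : α → Fin n => if Cl X r T f then
      fq X r q T f * ∏ v ∈ W, (fq X r q T f - v) ^ 2 else 0) (fun f _ => hT0 f),
      Finset.sum_eq_zero_iff_of_nonneg] at hm
    · intro f hf
      rw [hB, Finset.mem_filter] at hf
      have h3 := hm f (Finset.mem_univ _)
      rw [if_pos hf.2.1] at h3
      rcases mul_eq_zero.1 h3 with h4 | h4
      · exact absurd h4 hf.2.2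
      · rw [Finset.prod_eq_zero_iff] at h4
        obtain ⟨v, hv, hv2⟩ := h4
        have := pow_eq_zero_iff (two_ne_zero) |>.1 hv2
        rw [sub_eq_zero] at this
        rw [this]
        exact hv
    · intro f _
      split_ifs
      · exact mul_nonneg (fq_nonneg _ _ _ _ _) (Finset.prod_nonneg fun v _ => sq_nonneg _)
      · exact le_rfl
  have hAW : ∀ f ∈ A, fq X r q T f ∈ W := fun f hf => Finset.mem_image_of_mem _ hf
  -- numbers for each value
  have hval : ∀ v ∈ W, (B.filter (fun f => fq X r q G f = v)).card =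
      (A.filter (fun f => fq X r q T f = v)).card := by
    intro v hv
    have hv0 : v ≠ 0 := by
      rw [hW, Finset.mem_image] at hv
      obtain ⟨f, hf, rfl⟩ := hv
      rw [hA, Finset.mem_filter] at hf
      exact hf.2.2
    have hloc : Loc n α (2 * R * q) (fun H f => ∏ w ∈ W.erase v, (fq X r q H f - w)) := by
      refine Loc.mono (s := (W.erase v).card * q) (Loc.prod _ ?_) ?_
      · intro w _
        exact (loc_fq X r q).sub (loc_const q w)
      · have h3 : (W.erase v).card ≤ R := le_trans (Finset.card_erase_le) hWcard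
        calc (W.erase v).card * q ≤ R * q := Nat.mul_le_mul_right _ h3
          _ ≤ 2 * (R * q) := by omega
          _ = 2 * R * q := by ring
    have hm := master hT hℓ hd hX q F₀ (2 * R * q) hF h1 h2 hloc
    set K : ℚ := v * ∏ w ∈ W.erase v, (v - w) with hK
    have hK0 : K ≠ 0 := by
      rw [hK]
      refine mul_ne_zero hv0 (Finset.prod_ne_zero_iff.2 fun w hw => ?_)
      rw [Finset.mem_erase] at hw
      exact sub_ne_zero.2 (fun h => hw.1 h.symm)
    have conv : ∀ (H : SimpleGraph (Fin n)) (D : Finset (α → Fin n)),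
        D = univ.filter (fun f : α → Fin n => Cl X r H f ∧ fq X r q H f ≠ 0) →
        (∀ f ∈ D, fq X r q H f ∈ W) →
        ∑ f : α → Fin n, (if Cl X r H f then fq X r q H f *
          ∏ w ∈ W.erase v, (fq X r q H f - w) else 0) =
        ((D.filter (fun f => fq X r q H f = v)).card : ℚ) * K := by
      intro H D hD hDW
      rw [← nsmul_eq_mul, ← Finset.sum_const, hD, Finset.filter_filter, Finset.sum_filter]
      refine Finset.sum_congr rfl fun f _ => ?_
      by_cases hc : Cl X r H f
      · rw [if_pos hc]
        by_cases h0 : fq X r q H f = 0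
        · rw [h0, zero_mul, if_neg]
          rintro ⟨⟨_, h⟩, _⟩
          exact h rfl
        · have hfD : f ∈ D := by
            rw [hD, Finset.mem_filter]
            exact ⟨Finset.mem_univ _, hc, h0⟩
          by_cases hfv : fq X r q H f = v
          · rw [if_pos ⟨⟨hc, h0⟩, hfv⟩, hfv]
          · rw [if_neg (fun h => hfv h.2)]
            refine mul_eq_zero_of_right _ (Finset.prod_eq_zero (i := fq X r q H f) ?_ (by simp))
            rw [Finset.mem_erase]
            exact ⟨hfv, hDW f hfD⟩
      · rw [if_neg hc, if_neg]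
        rintro ⟨⟨h, _⟩, _⟩
        exact hc h
    rw [conv G B hB hBW, conv T A hA hAW] at hm
    have := mul_right_cancel₀ hK0 hm
    exact_mod_cast this
  rw [Finset.card_eq_sum_card_fiberwise (f := fun f => fq X r q G f) (t := W) hBW,
    Finset.card_eq_sum_card_fiberwise (f := fun f => fq X r q T f) (t := W) hAW]
  exact Finset.sum_congr rfl hval

end Pool.Agent.H64.TD
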