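import Pool.Agent.H64.TD.Recon

set_option autoImplicit false

/-!
Module Final: two trees with the same deck are isomorphic; the main theorem.
-/

namespace Pool.Agent.H64.TD

open Finset Classical Filter Topology

variable {n : ℕ} {α : Type} [Fintype α]

omit [Fintype α] in
theorem card_image_perm {V : Type} {I : Finset V} {θ : Equiv.Perm V} :
    (I.image θ).card = I.card :=
  Finset.card_image_of_injective _ θ.injective

/-- Few vertices are roots of closed copies of a largest branch. -/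
theorem card_roots {T : SimpleGraph (Fin n)} (hT : T.IsTree) (hn : 2 ≤ n) {X : SimpleGraph α}
    {r x : α} (hX : Planted X r x) {B : ℕ} (hB : Fintype.card α = B + 1) (hBn : 2 * B ≤ n)
    (hBpos : 1 ≤ B)
    (hmax : ∀ a' b', T.Adj a' b' → 2 * (Br T a' b').card ≤ n → (Br T a' b').card ≤ B)
    (Z : Finset (Fin n)) (hZ : ∀ z ∈ Z, ∃ f : α → Fin n, Cl X r T f ∧ f r = z) :
    Z.card ≤ 4 := by
  have hrx : X.Adj r x := (hX.2 x).2 rfl
  rcases Nat.lt_or_ge (2 * B) n with hlt | hge
  · -- unique centroid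
    by_contra h4
    push Not at h4
    have h1 : 1 < Z.card := by omega
    obtain ⟨z, hz, z', hz', hne⟩ := Finset.one_lt_card.1 h1
    have hcen : ∀ z ∈ Z, ∀ b', T.Adj z b' → (Br T z b').card ≤ B := by
      intro z hz b' hb'
      obtain ⟨f, hf, rfl⟩ := hZ z hz
      have hc := card_Br_of_cl hT hX hf
      rw [hB, Nat.add_sub_cancel] at hc
      have h2 := centroid_of_max hT (hf.1.2 _ _ hrx) (by omega) (by
        intro a' b' hab hh
        rw [hc]
        exact hmax a' b' hab hh) b' hb'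
      exact hmax _ _ hb' h2
    obtain ⟨b, b', hb, hb', hcov⟩ := cover hT hne
    have h2 := hcen z hz b hb
    have h3 := hcen z' hz' b' hb'
    have h5 : Fintype.card (Fin n) ≤ (Br T z b ∪ Br T z' b').card := by
      rw [← Finset.card_univ]
      refine Finset.card_le_card fun u _ => ?_
      rw [Finset.mem_union]
      exact hcov u
    have h6 := Finset.card_union_le (Br T z b) (Br T z' b')
    rw [Fintype.card_fin] at h5
    omega
  · -- at most four directed edges with half of the vertices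
    choose! g hg1 hg2 using hZ
    set E : Finset (Fin n × Fin n) := Z.image (fun z => (g z r, g z x)) with hE
    have hEZ : E.card = Z.card := by
      rw [hE]
      refine Finset.card_image_of_injOn ?_
      intro z hz z' hz' hzz
      simp only [Prod.mk.injEq] at hzz
      rw [← hg2 z hz, ← hg2 z' hz']
      exact hzz.1
    have h := card_edges_mul hT B E (by
      intro e he
      rw [hE, Finset.mem_image] at he
      obtain ⟨z, hz, rfl⟩ := he
      refine ⟨(hg1 z hz).1.2 _ _ hrx, ?_⟩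
      have hc := card_Br_of_cl hT hX (hg1 z hz)
      rw [hB, Nat.add_sub_cancel] at hc
      exact hc)
    rw [hEZ, Fintype.card_fin] at h
    by_contra h4
    push Not at h4
    have h5 : n = 2 * B := by omega
    have h6 : n - B = B := by omega
    rw [h6] at h
    have h8 : n ^ 2 = 4 * (B * B) := by
      rw [h5]
      ring
    have h9 : 0 < B * B := by positivity
    have h7 : 5 * (B * B) ≤ Z.card * (B * B) := Nat.mul_le_mul_right _ h4
    nlinarith

/-- Choice of the anchor. -/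
theorem exists_anchor {ℓ q F₀ R m₀ : ℕ} (N : Num n ℓ q F₀ R m₀) {T G : SimpleGraph (Fin n)}
    (hT : T.IsTree) (hd : SameDeck ℓ G T) {X : SimpleGraph α}
    {r x : α} (hX : Planted X r x) {B : ℕ} (hB : Fintype.card α = B + 1) (hBn : 2 * B ≤ n)
    (hBpos : 1 ≤ B)
    (hmax : ∀ a' b', T.Adj a' b' → 2 * (Br T a' b').card ≤ n → (Br T a' b').card ≤ B)
    {f' : α → Fin n} (hf' : Cl X r G f') (hpos : 0 < fq X r q G f') :
    ∃ f : α → Fin n, Cl X r T f ∧
      ∀ g : SimpleGraph (Fin n) → (Unit → Fin n) → ℚ, Loc n Unit (m₀ + 1) g →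
      g T (fun _ => f r) = g G (fun _ => f' r) := by
  have hℓ := N.le
  have hbig := N.big
  have : NeZero n := ⟨by omega⟩
  by_contra hno
  push Not at hno
  set Z : Finset (Fin n) := (univ.filter (fun f : α → Fin n => Cl X r T f)).image
    (fun f => f r) with hZ
  have mZ : ∀ z, z ∈ Z ↔ ∃ f : α → Fin n, Cl X r T f ∧ f r = z := by
    intro z
    rw [hZ, Finset.mem_image]
    simp
  have hZcard := card_roots hT (by omega) hX hB hBn hBpos hmax Z (fun z hz => (mZ z).1 hz)
  have hch : ∀ z ∈ Z, ∃ g : SimpleGraph (Fin n) → (Unit → Fin n) → ℚ, Loc n Unit (m₀ + 1) g ∧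
      g T (fun _ => z) ≠ g G (fun _ => f' r) := by
    intro z hz
    obtain ⟨f, hf, rfl⟩ := (mZ z).1 hz
    exact hno f hf
  choose! g hg1 hg2 using hch
  have hloc : Loc n α (8 * (m₀ + 1)) (fun H f => ∏ z ∈ Z,
      (g z H (fun _ => f r) - g z T (fun _ => z)) ^ 2) := by
    refine Loc.mono (s := Z.card * (2 * (m₀ + 1))) (Loc.prod _ ?_) ?_
    · intro z hz
      exact (((hg1 z hz).comp (fun _ : Unit => r)).sub (loc_const _ _)).pow 2
    · calc Z.card * (2 * (m₀ + 1)) ≤ 4 * (2 * (m₀ + 1)) := Nat.mul_le_mul_right _ hZcard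
        _ = 8 * (m₀ + 1) := by ring
  have hm := master hT hℓ hd hX q F₀ (8 * (m₀ + 1)) N.pos (by rw [hB]; omega)
    (by rw [hB]; omega) hloc
  have hT0 : ∀ f : α → Fin n, (if Cl X r T f then fq X r q T f * ∏ z ∈ Z,
      (g z T (fun _ => f r) - g z T (fun _ => z)) ^ 2 else 0) = 0 := by
    intro f
    by_cases hc : Cl X r T f
    · rw [if_pos hc]
      refine mul_eq_zero_of_right _ (Finset.prod_eq_zero (i := f r) ((mZ _).2 ⟨f, hc, rfl⟩) ?_)
      simp
    · rw [if_neg hc]
  rw [Finset.sum_eq_zero (s := univ) (f := fun f : α → Fin n => if Cl X r T f then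
    fq X r q T f * ∏ z ∈ Z, (g z T (fun _ => f r) - g z T (fun _ => z)) ^ 2 else 0)
    (fun f _ => hT0 f)] at hm
  have h2 : (0 : ℚ) < ∑ f : α → Fin n, if Cl X r G f then fq X r q G f *
      ∏ z ∈ Z, (g z G (fun _ => f r) - g z T (fun _ => z)) ^ 2 else 0 := by
    refine Finset.sum_pos' (fun f _ => ?_) ⟨f', Finset.mem_univ _, ?_⟩
    · split_ifs
      · exact mul_nonneg (fq_nonneg _ _ _ _ _) (Finset.prod_nonneg fun z _ => sq_nonneg _)
      · exact le_rfl
    · rw [if_pos hf']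
      refine mul_pos hpos (Finset.prod_pos fun z hz => ?_)
      have h3 : g z G (fun _ => f' r) - g z T (fun _ => z) ≠ 0 :=
        sub_ne_zero.2 (hg2 z hz).symm
      positivity
  rw [hm] at h2
  exact lt_irrefl _ h2

/-- Two trees with the same deck are isomorphic. -/
theorem recon {ℓ q F₀ R m₀ : ℕ} (N : Num n ℓ q F₀ R m₀) {T G : SimpleGraph (Fin n)}
    (hT : T.IsTree) (hG : G.IsTree) (hd : SameDeck ℓ G T) : Nonempty (G ≃g T) := by
  have hℓ := N.le
  have hbig := N.big
  have hn2 : 2 ≤ n := by omega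
  have : NeZero n := ⟨by omega⟩
  obtain ⟨c₀, b₀, hcb₀, hhalf, hmax⟩ := exists_max hT hn2
  set B := (Br T c₀ b₀).card with hB
  have hBpos : 1 ≤ B := Finset.card_pos.2 ⟨b₀, right_mem_Br hcb₀⟩
  have hX := planted_BX hT hcb₀
  have hα : Fintype.card ↥(BS T c₀ b₀) = B + 1 := card_BS
  obtain ⟨f', hf', hf'pos⟩ := transfer_cl hT hℓ hd hX q F₀ N.pos (by rw [hα]; omega)
    (cl_BX hT hcb₀) (fq_pos hT.connected (cl_BX hT hcb₀) q (by rw [hα]; omega))
  -- maximality in `G`
  have hmaxG : ∀ a' b', G.Adj a' b' → 2 * (Br G a' b').card ≤ n → (Br G a' b').card ≤ B := by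
    intro a' b' hab hh
    have hX' := planted_BX hG hab
    have hα' : Fintype.card ↥(BS G a' b') = (Br G a' b').card + 1 := card_BS
    obtain ⟨f, hf, _⟩ := transfer_cl hG hℓ hd.symm hX' q F₀ N.pos (by rw [hα']; omega)
      (cl_BX hG hab) (fq_pos hG.connected (cl_BX hG hab) q (by rw [hα']; omega))
    have hc := card_Br_of_cl hT hX' hf
    rw [hα', Nat.add_sub_cancel] at hc
    rw [← hc]
    exact hmax _ _ (hf.1.2 _ _ ((hX'.2 _).2 rfl)) (by rw [hc]; exact hh)
  -- centroids
  have hcenT : ∀ f : ↥(BS T c₀ b₀) → Fin n, Cl (BX T c₀ b₀) (bRoot T c₀ b₀) T f →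
      ∀ b', T.Adj (f (bRoot T c₀ b₀)) b' → 2 * (Br T (f (bRoot T c₀ b₀)) b').card ≤ n := by
    intro f hf
    have hc := card_Br_of_cl hT hX hf
    rw [hα, Nat.add_sub_cancel] at hc
    exact centroid_of_max hT (hf.1.2 _ _ ((hX.2 _).2 rfl)) (by rw [hc]; exact hhalf) (by
      intro a' b' hab hh
      rw [hc]
      exact hmax a' b' hab hh)
  have hcenG : ∀ b', G.Adj (f' (bRoot T c₀ b₀)) b' →
      2 * (Br G (f' (bRoot T c₀ b₀)) b').card ≤ n := by
    have hc := card_Br_of_cl hG hX hf'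
    rw [hα, Nat.add_sub_cancel] at hc
    exact centroid_of_max hG (hf'.1.2 _ _ ((hX.2 _).2 rfl)) (by rw [hc]; exact hhalf) (by
      intro a' b' hab hh
      rw [hc]
      exact hmaxG a' b' hab hh)
  obtain ⟨f, hf, hanch⟩ := exists_anchor N hT hd hX hα hhalf hBpos hmax hf' hf'pos
  have hcenT' := hcenT f hf
  set c := f (bRoot T c₀ b₀) with hc
  set c' := f' (bRoot T c₀ b₀) with hc'
  have hBT : ∀ b, T.Adj c b → (Br T c b).card ≤ B := fun b hb => hmax _ _ hb (hcenT' b hb)
  have hBG : ∀ b, G.Adj c' b → (Br G c' b).card ≤ B := fun b hb => hmaxG _ _ hb (hcenG b hb)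
  -- a maximal matching
  let Q : ℕ → Prop := fun k => ∃ I θ, PM T G c c' I θ ∧ B ≤ I.card ∧ I.card = n - k
  have hQ : ∃ k, Q k := by
    obtain ⟨J, hJc, θ, hPM⟩ : ∃ J : Finset (Fin n), J.card = B ∧
        ∃ θ : Equiv.Perm (Fin n), PM T G c c' J θ := by
      obtain ⟨θ, hPM, _⟩ := PM.of_cl hf hf'
      refine ⟨_, ?_, θ, hPM⟩
      rw [card_interior hf.1.1, hα, Nat.add_sub_cancel]
    refine ⟨n - J.card, J, θ, hPM, hJc.ge, ?_⟩
    have := Finset.card_le_univ J
    rw [Fintype.card_fin] at this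
    omega
  obtain ⟨I, θ, hPM, hBI, hIk⟩ := Nat.find_spec hQ
  have hIn : I.card ≤ n := by
    have := Finset.card_le_univ I
    rwa [Fintype.card_fin] at this
  have hmaxI : ∀ I' θ', PM T G c c' I' θ' → ¬ I.card < I'.card := by
    intro I' θ' h' hlt
    have h1 : I'.card ≤ n := by
      have := Finset.card_le_univ I'
      rwa [Fintype.card_fin] at this
    have := Nat.find_min' hQ (m := n - I'.card) ⟨I', θ', h', by omega, by omega⟩
    omega
  by_cases hall : ∀ v, v ≠ c → v ∈ I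
  · exact hPM.iso_of_univ hall
  · exfalso
    push Not at hall
    have hPMs := hPM.symm
    obtain ⟨J, hJ, hPMJ, hJcard⟩ : ∃ J : Finset (Fin n), (∀ v, v ∈ J ↔ θ.symm v ∈ I) ∧
        PM G T c' c J θ.symm ∧ J.card = I.card :=
      ⟨_, fun v => mem_image_perm, hPMs, card_image_perm⟩
    have hallG : ∃ v, v ≠ c' ∧ v ∉ J := by
      obtain ⟨v, hv, hvI⟩ := hall
      refine ⟨θ v, ?_, ?_⟩
      · intro h
        rw [← hPM.root] at h
        exact hv (θ.injective h)
      · rw [hJ, Equiv.symm_apply_apply]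
        exact hvI
    obtain ⟨b₁, hb₁, hb₁I⟩ := hPM.exists_unmatched hT hall
    obtain ⟨b₂, hb₂, hb₂J⟩ := hPMJ.exists_unmatched hG hallG
    -- largest unmatched branches
    obtain ⟨bT, hbT, hbTmax⟩ := Finset.exists_max_image
      (univ.filter (fun b => T.Adj c b ∧ ∀ u ∈ Br T c b, u ∉ I)) (fun b => (Br T c b).card)
      ⟨b₁, by rw [Finset.mem_filter]; exact ⟨Finset.mem_univ _, hb₁, hb₁I⟩⟩
    obtain ⟨bG, hbG, hbGmax⟩ := Finset.exists_max_image
      (univ.filter (fun b => G.Adj c' b ∧ ∀ u ∈ Br G c' b, u ∉ J)) (fun b => (Br G c' b).card)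
      ⟨b₂, by rw [Finset.mem_filter]; exact ⟨Finset.mem_univ _, hb₂, hb₂J⟩⟩
    rw [Finset.mem_filter] at hbT hbG
    rcases le_total (Br G c' bG).card (Br T c bT).card with hle | hle
    · obtain ⟨I', θ', h', hlt⟩ := ext_step N hT hG hd hBT hcenG hanch hPM hBI hbT.2.1 hbT.2.2 (by
        intro b' hb' hb'I
        refine le_trans (hbGmax b' ?_) hle
        rw [Finset.mem_filter]
        refine ⟨Finset.mem_univ _, hb', fun u hu huJ => hb'I u hu ((hJ u).1 huJ)⟩)
      exact hmaxI I' θ' h' hlt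
    · obtain ⟨J', θ', h', hlt⟩ := ext_step N hG hT hd.symm hBG hcenT'
        (fun g hg => (hanch g hg).symm) hPMJ (by omega) hbG.2.1 hbG.2.2 (by
        intro b' hb' hb'J
        refine le_trans (hbTmax b' ?_) hle
        rw [Finset.mem_filter]
        refine ⟨Finset.mem_univ _, hb', fun u hu huI => hb'J u hu ?_⟩
        rw [hJ]
        simpa using huI)
      have h'' := h'.symm
      refine hmaxI _ _ h'' ?_
      rw [card_image_perm]
      omega

/-- Reconstruction for good parameters. -/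
theorem main_num {ℓ q F₀ R m₀ : ℕ} (N : Num n ℓ q F₀ R m₀) {T G : SimpleGraph (Fin n)}
    (hT : T.IsTree) (hd : SameDeck ℓ G T) : Nonempty (G ≃g T) :=
  recon N hT (recog N hT hd) hd

/-- The main theorem. -/
theorem main : ∃ ℓ : ℕ → ℕ, Tendsto (fun n : ℕ => (ℓ n : ℝ) / (n : ℝ)) atTop (𝓝 (1 / 2 : ℝ)) ∧
    ∀ n : ℕ, ∀ T G : SimpleGraph (Fin n), T.IsTree → SameDeck (ℓ n) G T →
      Nonempty (G ≃g T) := by
  refine exists_fun (fun n ℓ => ∀ T G : SimpleGraph (Fin n), T.IsTree → SameDeck ℓ G T →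
      Nonempty (G ≃g T)) (fun n T G _ h => full_deck h) ?_
  intro ε hε
  obtain ⟨K, hK⟩ := exists_num ε hε
  refine ⟨K, fun n hn ℓ h1 h2 T G hT hd => ?_⟩
  obtain ⟨q, F₀, R, m₀, N⟩ := hK n hn ℓ h1 h2
  exact main_num N hT hd

end Pool.Agent.H64.TD
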