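import Pool.Agent.H64.TD.Test

set_option autoImplicit false

/-!
Module Master: the test polynomial is the indicator of closedness also in `G`; closed sums agree.
-/

namespace Pool.Agent.H64.TD

open Finset Classical

variable {n : ℕ} {α : Type} [Fintype α]

/-- Validity of a labelled tuple: an embedding together with a growing sequence behind. -/
def Val (X : SimpleGraph α) (r : α) (q : ℕ) (G : SimpleGraph (Fin n)) (k : α ⊕ Fin q → Fin n) :
    Prop :=
  Emb X G (fun z => k (Sum.inl z)) ∧
    Beh r q G (fun z => k (Sum.inl z)) (fun j => k (Sum.inr j))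

omit [Fintype α] in
theorem loc_val (X : SimpleGraph α) (r : α) (q : ℕ) :
    Loc n (α ⊕ Fin q) 0 (fun G k => if Val X r q G k then 1 else 0) := by
  have h := loc_typ (n := n) (ι := α ⊕ Fin q) (fun π => if (∀ i j : α, π.1 (Sum.inl i) (Sum.inl j) →
    i = j) ∧ (∀ u v, X.Adj u v → π.2 (Sum.inl u) (Sum.inl v)) ∧
    (∀ i j : α ⊕ Fin q, π.1 i j → i = j) ∧ (∀ j : Fin q, π.2 (Sum.inl r) (Sum.inr j) ∨
      ∃ i : Fin q, i < j ∧ π.2 (Sum.inr i) (Sum.inr j)) then (1 : ℚ) else 0)
  convert! h using 4 with G k
  unfold Val Emb Beh typ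
  have e : Sum.elim (fun z => k (Sum.inl z)) (fun j => k (Sum.inr j)) = k := by
    ext i
    rcases i with i | i <;> rfl
  rw [e]
  constructor
  · rintro ⟨⟨h1, h2⟩, h3, h4⟩
    exact ⟨fun i j h => h1 h, h2, fun i j h => h3 h, h4⟩
  · rintro ⟨h1, h2, h3, h4⟩
    exact ⟨⟨fun i j h => h1 i j h, h2⟩, fun i j h => h3 i j h, h4⟩

/-- The deck principle with arbitrary decidability instances. -/
theorem deck_sum' {ι : Type} {ℓ : ℕ} {G T : SimpleGraph (Fin n)} (hℓ : ℓ ≤ n)
    (h : SameDeck ℓ G T) [Fintype ι] [DecidableEq ι] {s : ℕ}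
    {g : SimpleGraph (Fin n) → (ι → Fin n) → ℚ} (hg : Loc n ι s g)
    (hs : Fintype.card ι + s ≤ ℓ) : ∑ f : ι → Fin n, g G f = ∑ f : ι → Fin n, g T f := by
  convert! deck_sum hℓ h hg hs

/-- Splitting a sum over tuples. -/
theorem sum_split {κ : Type} [Fintype κ] [DecidableEq κ] (g : (α ⊕ κ → Fin n) → ℚ) :
    ∑ k : α ⊕ κ → Fin n, g k = ∑ f : α → Fin n, ∑ y : κ → Fin n, g (Sum.elim f y) := by
  rw [← Fintype.sum_prod_type']
  exact Fintype.sum_equiv (Equiv.sumArrowEquivProdArrow α κ (Fin n)) _ _ (fun k => by
    congr 1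
    ext i
    rcases i with i | i <;> rfl)

/-- The test polynomial detects closedness also in `G`. -/
theorem test_transfer {ℓ : ℕ} {T G : SimpleGraph (Fin n)} (hT : T.IsTree) (hℓ : ℓ ≤ n)
    (hd : SameDeck ℓ G T) {X : SimpleGraph α} {r : α} (q : ℕ) {C : ℕ}
    {I : SimpleGraph (Fin n) → (α → Fin n) → ℚ} (hI : Loc n α C I)
    (hI0 : ∀ f y, Emb X T f → Beh r q T f y → ¬ Cl X r T f → I T f = 0)
    (h1 : Fintype.card α + q + 2 * (C + 1) ≤ ℓ) :
    ∀ f y, Emb X G f → Beh r q G f y → ¬ Cl X r G f → I G f = 0 := by
  have : NeZero n := by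
    obtain ⟨v⟩ := hT.connected.nonempty
    exact ⟨fun h => by subst h; exact v.elim0⟩
  have key : ∀ z, z ≠ r → ∀ k : α ⊕ Fin q → Fin n,
      (if Val X r q G k then (1 : ℚ) else 0) * (I G (fun i => k (Sum.inl i)) *
        ((dg G (k (Sum.inl z)) : ℚ) - dg X z)) ^ 2 = 0 := by
    intro z hz
    have hloc : Loc n (α ⊕ Fin q) (0 + 2 * (C + 1)) (fun H k =>
        (if Val X r q H k then (1 : ℚ) else 0) * (I H (fun i => k (Sum.inl i)) *
        ((dg H (k (Sum.inl z)) : ℚ) - dg X z)) ^ 2) := by
      refine (loc_val X r q).mul (Loc.pow (Loc.mul ?_ ?_) 2)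
      · exact hI.comp Sum.inl
      · exact (loc_dg (Sum.inl z)).sub (loc_const 1 _)
    have hsum := deck_sum' hℓ hd hloc (by
      rw [Fintype.card_sum, Fintype.card_fin]
      omega)
    have hT0 : ∀ k : α ⊕ Fin q → Fin n, (if Val X r q T k then (1 : ℚ) else 0) *
        (I T (fun i => k (Sum.inl i)) * ((dg T (k (Sum.inl z)) : ℚ) - dg X z)) ^ 2 = 0 := by
      intro k
      by_cases hv : Val X r q T k
      · by_cases hc : Cl X r T (fun i => k (Sum.inl i))
        · have : dg T (k (Sum.inl z)) = dg X z := (cl_iff_dg.1 hc).2 z hz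
          rw [this]
          simp
        · rw [hI0 _ _ hv.1 hv.2 hc]
          simp
      · rw [if_neg hv, zero_mul]
    rw [Finset.sum_eq_zero (fun k _ => hT0 k), Finset.sum_eq_zero_iff_of_nonneg] at hsum
    · intro k
      exact hsum k (Finset.mem_univ _)
    · intro k _
      have : (0 : ℚ) ≤ if Val X r q G k then (1 : ℚ) else 0 := by split_ifs <;> norm_num
      positivity
  intro f y hf hy hncl
  rw [cl_iff_dg] at hncl
  push Not at hncl
  obtain ⟨z, hz, hne⟩ := hncl hf
  have hv : Val X r q G (Sum.elim f y) := ⟨hf, hy⟩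
  have := key z hz (Sum.elim f y)
  rw [if_pos hv, one_mul] at this
  have h2 := pow_eq_zero_iff (two_ne_zero) |>.1 this
  rcases mul_eq_zero.1 h2 with h3 | h3
  · exact h3
  · exfalso
    apply hne
    rw [sub_eq_zero] at h3
    exact_mod_cast h3

/-- The master identity: closed sums weighted by the number of growing sequences agree. -/
theorem master {ℓ : ℕ} {T G : SimpleGraph (Fin n)} (hT : T.IsTree) (hℓ : ℓ ≤ n)
    (hd : SameDeck ℓ G T) {X : SimpleGraph α} {r x : α} (hX : Planted X r x) (q F₀ s : ℕ)
    (hF : 1 ≤ F₀) (h1 : Fintype.card α + q + 2 * (cost n q F₀ + 1) ≤ ℓ)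
    (h2 : Fintype.card α + q + cost n q F₀ + s ≤ ℓ)
    {F : SimpleGraph (Fin n) → (α → Fin n) → ℚ} (hloc : Loc n α s F) :
    ∑ f : α → Fin n, (if Cl X r G f then fq X r q G f * F G f else 0) =
      ∑ f : α → Fin n, (if Cl X r T f then fq X r q T f * F T f else 0) := by
  obtain ⟨I, hI, hIone, hI0⟩ := exists_test hT hX q F₀ hF
  have hI0' := test_transfer hT hℓ hd q hI hI0 h1
  have hloc2 : Loc n (α ⊕ Fin q) (0 + (cost n q F₀ + s)) (fun H k =>
      (if Val X r q H k then (1 : ℚ) else 0) *
        (I H (fun i => k (Sum.inl i)) * F H (fun i => k (Sum.inl i)))) :=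
    (loc_val X r q).mul ((hI.comp Sum.inl).mul (hloc.comp Sum.inl))
  have hsum := deck_sum' hℓ hd hloc2 (by
    rw [Fintype.card_sum, Fintype.card_fin]
    omega)
  rw [sum_split, sum_split] at hsum
  have conv : ∀ H : SimpleGraph (Fin n), (∀ f y, Emb X H f → Beh r q H f y → ¬ Cl X r H f →
      I H f = 0) → ∀ f : α → Fin n,
      ∑ y : Fin q → Fin n, (if Val X r q H (Sum.elim f y) then (1 : ℚ) else 0) *
        (I H (fun i => Sum.elim f y (Sum.inl i)) * F H (fun i => Sum.elim f y (Sum.inl i))) =
      (if Cl X r H f then fq X r q H f * F H f else 0) := by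
    intro H hH f
    have hsimp : ∀ y : Fin q → Fin n,
        (if Val X r q H (Sum.elim f y) then (1 : ℚ) else 0) *
        (I H (fun i => Sum.elim f y (Sum.inl i)) * F H (fun i => Sum.elim f y (Sum.inl i))) =
        (if Cl X r H f then (if Emb X H f ∧ Beh r q H f y then 1 else 0) * F H f else 0) := by
      intro y
      have e : Val X r q H (Sum.elim f y) ↔ Emb X H f ∧ Beh r q H f y := Iff.rfl
      by_cases hv : Emb X H f ∧ Beh r q H f y
      · rw [if_pos (e.2 hv), if_pos hv]
        by_cases hc : Cl X r H f
        · rw [if_pos hc]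
          simp only [Sum.elim_inl]
          rw [hIone H f hc]
          ring
        · rw [if_neg hc]
          simp only [Sum.elim_inl]
          rw [hH f y hv.1 hv.2 hc]
          ring
      · rw [if_neg (fun h => hv (e.1 h)), if_neg hv]
        simp
    rw [Finset.sum_congr rfl (fun y _ => hsimp y)]
    by_cases hc : Cl X r H f
    · simp only [if_pos hc]
      rw [← Finset.sum_mul]
      rfl
    · simp only [if_neg hc]
      simp
  rw [Finset.sum_congr rfl (fun f _ => conv G hI0' f),
    Finset.sum_congr rfl (fun f _ => conv T hI0 f)] at hsum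
  exact hsum

/-- In a connected graph, a closed embedding has growing sequences behind of any length. -/
theorem exists_beh {H : SimpleGraph (Fin n)} (hH : H.Connected) {X : SimpleGraph α} {r : α}
    {f : α → Fin n} (hf : Cl X r H f) (q : ℕ) (hq : Fintype.card α + q ≤ n) :
    ∃ y : Fin q → Fin n, Beh r q H f y := by
  induction q with
  | zero =>
    refine ⟨Fin.elim0, ?_, fun j => j.elim0⟩
    intro i j hij
    rcases i with i | i
    · rcases j with j | j
      · exact congrArg _ (hf.1.1 hij)
      · exact j.elim0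
    · exact i.elim0
  | succ q ih =>
    obtain ⟨y, hy⟩ := ih (by omega)
    -- the set of used vertices
    have hS : ∃ v, v ∉ Set.range (Sum.elim f y) := by
      by_contra hall
      push Not at hall
      have hsurj : Function.Surjective (Sum.elim f y) := fun v => hall v
      have := Fintype.card_le_of_surjective _ hsurj
      rw [Fintype.card_sum, Fintype.card_fin, Fintype.card_fin] at this
      omega
    obtain ⟨v, hv⟩ := hS
    obtain ⟨p⟩ := hH.preconnected (f r) v
    have hin : f r ∈ Set.range (Sum.elim f y) := ⟨Sum.inl r, rfl⟩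
    obtain ⟨d, _, hd1, hd2⟩ := p.exists_boundary_dart _ hin hv
    obtain ⟨i, hi⟩ := hd1
    have hadj : H.Adj (Sum.elim f y i) d.snd := by
      rw [hi]
      exact d.adj
    refine ⟨Fin.snoc y d.snd, ?_, ?_⟩
    · intro i j hij
      have hne : ∀ t, Sum.elim f y t ≠ d.snd := fun t ht => hd2 ⟨t, ht⟩
      rcases i with i | i
      · rcases j with j | j
        · exact congrArg _ (hf.1.1 hij)
        · exfalso
          induction j using Fin.lastCases with
          | last => 
            simp only [Sum.elim_inl, Sum.elim_inr, Fin.snoc_last] at hij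
            exact hne (Sum.inl i) hij
          | cast j =>
            simp only [Sum.elim_inl, Sum.elim_inr, Fin.snoc_castSucc] at hij
            have := hy.1 (a₁ := Sum.inl i) (a₂ := Sum.inr j) hij
            simp at this
      · rcases j with j | j
        · exfalso
          induction i using Fin.lastCases with
          | last => 
            simp only [Sum.elim_inl, Sum.elim_inr, Fin.snoc_last] at hij
            exact hne (Sum.inl j) hij.symm
          | cast i =>
            simp only [Sum.elim_inl, Sum.elim_inr, Fin.snoc_castSucc] at hij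
            have := hy.1 (a₁ := Sum.inr i) (a₂ := Sum.inl j) hij
            simp at this
        · induction i using Fin.lastCases with
          | last => 
            induction j using Fin.lastCases with
            | last => rfl
            | cast j =>
              simp only [Sum.elim_inr, Fin.snoc_last, Fin.snoc_castSucc] at hij
              exact absurd hij.symm (hne (Sum.inr j))
          | cast i =>
            induction j using Fin.lastCases with
            | last => 
              simp only [Sum.elim_inr, Fin.snoc_last, Fin.snoc_castSucc] at hij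
              exact absurd hij (hne (Sum.inr i))
            | cast j =>
              simp only [Sum.elim_inr, Fin.snoc_castSucc] at hij
              have := hy.1 (a₁ := Sum.inr i) (a₂ := Sum.inr j) hij
              simp only [Sum.inr.injEq] at this
              rw [this]
    · intro j
      induction j using Fin.lastCases with
      | last => 
        simp only [Fin.snoc_last]
        rcases i with i | i
        · by_cases hir : i = r
          · left
            rw [← hir]
            exact hadj
          · exfalso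
            obtain ⟨w, _, hw⟩ := hf.2 i hir _ hadj
            exact hd2 ⟨Sum.inl w, hw⟩
        · right
          refine ⟨i.castSucc, Fin.castSucc_lt_last i, ?_⟩
          rw [Fin.snoc_castSucc]
          exact hadj
      | cast j =>
        simp only [Fin.snoc_castSucc]
        rcases hy.2 j with h | ⟨i', hi', h⟩
        · left; exact h
        · right
          refine ⟨i'.castSucc, by simpa using hi', ?_⟩
          rw [Fin.snoc_castSucc]
          exact h

omit [Fintype α] in
theorem fq_nonneg (X : SimpleGraph α) (r : α) (q : ℕ) (G : SimpleGraph (Fin n))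
    (f : α → Fin n) : 0 ≤ fq X r q G f := by
  unfold fq
  refine Finset.sum_nonneg fun y _ => ?_
  split_ifs <;> norm_num

omit [Fintype α] in
theorem fq_pos_iff {X : SimpleGraph α} {r : α} {q : ℕ} {G : SimpleGraph (Fin n)}
    {f : α → Fin n} : 0 < fq X r q G f ↔ Emb X G f ∧ ∃ y : Fin q → Fin n, Beh r q G f y := by
  constructor
  · intro h
    by_contra hcon
    have : fq X r q G f = 0 := by
      unfold fq
      refine Finset.sum_eq_zero fun y _ => if_neg ?_
      intro hy
      exact hcon ⟨hy.1, y, hy.2⟩
    rw [this] at h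
    exact lt_irrefl _ h
  · rintro ⟨hf, y, hy⟩
    unfold fq
    refine Finset.sum_pos' (fun y _ => ?_) ⟨y, Finset.mem_univ _, ?_⟩
    · split_ifs <;> norm_num
    · rw [if_pos ⟨hf, hy⟩]
      norm_num

theorem fq_pos {H : SimpleGraph (Fin n)} (hH : H.Connected) {X : SimpleGraph α} {r : α}
    {f : α → Fin n} (hf : Cl X r H f) (q : ℕ) (hq : Fintype.card α + q ≤ n) :
    0 < fq X r q H f :=
  fq_pos_iff.2 ⟨hf.1, exists_beh hH hf q hq⟩

end Pool.Agent.H64.TD
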