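import Pool.Agent.H64.TD.TreeB

set_option autoImplicit false

/-!
Module Match: matching isomorphisms closed on an interior with one boundary vertex (structure PM).
-/

namespace Pool.Agent.H64.TD

open Finset Classical

variable {V : Type} [Fintype V] {T G : SimpleGraph V}

theorem h55_image_subset {α : Type} [Fintype α] {X : SimpleGraph α} {f : α → V} (hf : Emb X G f)
    (z : α) : (univ.filter (fun w => X.Adj z w)).image f ⊆ univ.filter (fun v => G.Adj (f z) v) := by
  intro v hv
  rw [Finset.mem_image] at hv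
  obtain ⟨w, hw, rfl⟩ := hv
  rw [Finset.mem_filter] at hw ⊢
  exact ⟨Finset.mem_univ _, hf.2 _ _ hw.2⟩

theorem h55_card_image {α : Type} [Fintype α] {X : SimpleGraph α} {f : α → V} (hf : Emb X G f)
    (z : α) : ((univ.filter (fun w => X.Adj z w)).image f).card = dg X z :=
  Finset.card_image_of_injective _ hf.1

theorem dg_le_of_emb {α : Type} [Fintype α] {X : SimpleGraph α} {f : α → V} (hf : Emb X G f)
    (z : α) : dg X z ≤ dg G (f z) := by
  rw [← h55_card_image hf z]
  exact Finset.card_le_card (h55_image_subset hf z)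

theorem cl_iff_dg {α : Type} [Fintype α] {X : SimpleGraph α} {r : α} {f : α → V} :
    Cl X r G f ↔ Emb X G f ∧ ∀ z, z ≠ r → dg G (f z) = dg X z := by
  constructor
  · rintro ⟨hf, hc⟩
    refine ⟨hf, fun z hz => ?_⟩
    apply le_antisymm _ (dg_le_of_emb hf z)
    rw [← h55_card_image hf z]
    apply Finset.card_le_card
    intro v hv
    rw [Finset.mem_filter] at hv
    obtain ⟨w, hw, rfl⟩ := hc z hz v hv.2
    exact Finset.mem_image_of_mem _ (Finset.mem_filter.mpr ⟨Finset.mem_univ _, hw⟩)
  · rintro ⟨hf, hc⟩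
    refine ⟨hf, fun z hz v hv => ?_⟩
    have h1 : (univ.filter (fun w => X.Adj z w)).image f = univ.filter (fun v => G.Adj (f z) v) := by
      apply Finset.eq_of_subset_of_card_le (h55_image_subset hf z)
      rw [h55_card_image hf z]
      exact (hc z hz).le
    have h2 : v ∈ (univ.filter (fun w => X.Adj z w)).image f := by
      rw [h1]
      exact Finset.mem_filter.mpr ⟨Finset.mem_univ _, hv⟩
    obtain ⟨w, hw, hwv⟩ := Finset.mem_image.mp h2
    exact ⟨w, (Finset.mem_filter.mp hw).2, hwv⟩

theorem PM.symm {c c' : V} {I : Finset V} {θ : Equiv.Perm V} (h : PM T G c c' I θ) :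
    PM G T c' c (I.image θ) θ.symm := by
  refine ⟨?_, ?_, ?_, ?_⟩
  · intro hc
    obtain ⟨u, hu, he⟩ := Finset.mem_image.mp hc
    rw [← h.root] at he
    have := θ.injective he
    subst this
    exact h.notMem hu
  · rw [← h.root]; simp
  · intro u hu v hv
    obtain ⟨u0, hu0, rfl⟩ := Finset.mem_image.mp hu
    obtain ⟨v0, rfl⟩ := θ.surjective v
    rw [← h.iso u0 hu0] at hv
    rcases h.closed u0 hu0 v0 hv with h1 | h1
    · exact Or.inl (Finset.mem_image_of_mem _ h1)
    · subst h1
      exact Or.inr h.root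
  · intro u hu v
    obtain ⟨u0, hu0, rfl⟩ := Finset.mem_image.mp hu
    obtain ⟨v0, rfl⟩ := θ.surjective v
    rw [← h.iso u0 hu0]
    simp

theorem h55_image_image {I : Finset V} {θ : Equiv.Perm V} : (I.image θ).image θ.symm = I := by
  ext v
  simp

theorem h55_emb_transport {c c' : V} {I : Finset V} {θ : Equiv.Perm V} (h : PM T G c c' I θ)
    {α : Type} {X : SimpleGraph α} {r : α} {f : α → V} (hf : Emb X T f)
    (hI : ∀ z, z ≠ r → f z ∈ I) : Emb X G (θ ∘ f) := by
  refine ⟨θ.injective.comp hf.1, fun u v huv => ?_⟩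
  by_cases hu : u = r
  · have hv : v ≠ r := by
      rintro rfl
      exact huv.ne hu
    have := (h.iso (f v) (hI v hv) (f u)).mp (hf.2 _ _ huv.symm)
    exact this.symm
  · exact (h.iso (f u) (hI u hu) (f v)).mp (hf.2 _ _ huv)

theorem h55_cl_transport {c c' : V} {I : Finset V} {θ : Equiv.Perm V} (h : PM T G c c' I θ)
    {α : Type} {X : SimpleGraph α} {r : α} {f : α → V} (hf : Cl X r T f)
    (hI : ∀ z, z ≠ r → f z ∈ I) : Cl X r G (θ ∘ f) := by
  refine ⟨h55_emb_transport h hf.1 hI, fun z hz v hv => ?_⟩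
  obtain ⟨v0, rfl⟩ := θ.surjective v
  have := (h.iso (f z) (hI z hz) v0).mpr hv
  obtain ⟨w, hw, hwv⟩ := hf.2 z hz v0 this
  exact ⟨w, hw, by simp [hwv]⟩

/-- Transport of closed embeddings lying inside the matched region. -/
theorem PM.card_cl {c c' : V} {I : Finset V} {θ : Equiv.Perm V} (h : PM T G c c' I θ)
    {α : Type} [Fintype α] (X : SimpleGraph α) (r : α) :
    (univ.filter (fun f : α → V => Cl X r G f ∧ ∀ z, z ≠ r → f z ∈ I.image θ)).card =
    (univ.filter (fun f : α → V => Cl X r T f ∧ ∀ z, z ≠ r → f z ∈ I)).card := by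
  refine Finset.card_nbij' (fun f => θ.symm ∘ f) (fun f => θ ∘ f) ?_ ?_ ?_ ?_
  · intro f hf
    obtain ⟨-, h1, h2⟩ := Finset.mem_filter.mp hf
    refine Finset.mem_filter.mpr ⟨Finset.mem_univ _, h55_cl_transport h.symm h1 h2, fun z hz => ?_⟩
    obtain ⟨u, hu, he⟩ := Finset.mem_image.mp (h2 z hz)
    simp only [Function.comp, ← he, Equiv.symm_apply_apply]
    exact hu
  · intro f hf
    obtain ⟨-, h1, h2⟩ := Finset.mem_filter.mp hf
    exact Finset.mem_filter.mpr ⟨Finset.mem_univ _, h55_cl_transport h h1 h2,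
      fun z hz => Finset.mem_image_of_mem _ (h2 z hz)⟩
  · intro f _
    funext z
    simp
  · intro f _
    funext z
    simp

/-- Transport of embeddings rooted at the boundary vertex lying inside the matched region. -/
theorem PM.card_emb {c c' : V} {I : Finset V} {θ : Equiv.Perm V} (h : PM T G c c' I θ)
    {α : Type} [Fintype α] (X : SimpleGraph α) (r : α) :
    (univ.filter (fun f : α → V => Emb X G f ∧ f r = c' ∧
      ∀ z, z ≠ r → f z ∈ I.image θ)).card =
    (univ.filter (fun f : α → V => Emb X T f ∧ f r = c ∧ ∀ z, z ≠ r → f z ∈ I)).card := by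
  refine Finset.card_nbij' (fun f => θ.symm ∘ f) (fun f => θ ∘ f) ?_ ?_ ?_ ?_
  · intro f hf
    obtain ⟨-, h1, h3, h2⟩ := Finset.mem_filter.mp hf
    refine Finset.mem_filter.mpr ⟨Finset.mem_univ _, h55_emb_transport h.symm h1 h2, ?_, fun z hz => ?_⟩
    · simp only [Function.comp, h3, ← h.root, Equiv.symm_apply_apply]
    · obtain ⟨u, hu, he⟩ := Finset.mem_image.mp (h2 z hz)
      simp only [Function.comp, ← he, Equiv.symm_apply_apply]
      exact hu
  · intro f hf
    obtain ⟨-, h1, h3, h2⟩ := Finset.mem_filter.mp hf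
    refine Finset.mem_filter.mpr ⟨Finset.mem_univ _, h55_emb_transport h h1 h2, ?_,
      fun z hz => Finset.mem_image_of_mem _ (h2 z hz)⟩
    simp only [Function.comp, h3, h.root]
  · intro f _
    funext z
    simp
  · intro f _
    funext z
    simp

/-- A function injective on a finite set extends, from there, to a permutation. -/
theorem h55_exists_perm (D : Finset V) (φ : V → V) (hφ : Set.InjOn φ D) :
    ∃ θ : Equiv.Perm V, ∀ u ∈ D, θ u = φ u := by
  obtain ⟨g, hg⟩ := Finset.exists_equiv_extend_of_card_eq (α := V) (t := (univ : Finset V))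
    (Finset.card_univ).symm (s := D) (f := φ) (Finset.subset_univ _) hφ
  refine ⟨g.trans (Equiv.subtypeUnivEquiv (fun x => Finset.mem_univ x)), fun u hu => ?_⟩
  exact hg u hu

/-- Extension of a matching by two closed embeddings of the same rooted graph. -/
theorem PM.extend {c c' : V} {I : Finset V} {θ : Equiv.Perm V} (h : PM T G c c' I θ)
    {α : Type} [Fintype α] {X : SimpleGraph α} {r : α} {f g : α → V} (hf : Cl X r T f)
    (hg : Cl X r G g) (hfr : f r = c) (hgr : g r = c') (hfI : ∀ z, z ≠ r → f z ∉ I)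
    (hgI : ∀ z, z ≠ r → g z ∉ I.image θ) :
    ∃ θ' : Equiv.Perm V, PM T G c c' (I ∪ (univ.erase r).image f) θ' ∧
      (∀ z, θ' (f z) = g z) ∧ (∀ u ∈ I, θ' u = θ u) := by
  have hfI' : ∀ z, f z ∉ I := by
    intro z
    by_cases hz : z = r
    · rw [hz, hfr]; exact h.notMem
    · exact hfI z hz
  have hgI' : ∀ z, g z ∉ I.image θ := by
    intro z
    by_cases hz : z = r
    · rw [hz, hgr]; exact h.symm.notMem
    · exact hgI z hz
  -- the function on a part
  let φ : V → V := fun u => if hu : ∃ z, f z = u then g hu.choose else θ u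
  have φf : ∀ z, φ (f z) = g z := by
    intro z
    have hu : ∃ w, f w = f z := ⟨z, rfl⟩
    have h1 : φ (f z) = g hu.choose := dif_pos hu
    rw [h1, hf.1.1 hu.choose_spec]
  have φI : ∀ u ∈ I, φ u = θ u := by
    intro u hu
    apply dif_neg
    rintro ⟨z, rfl⟩
    exact hfI' z hu
  have hinj : Set.InjOn φ ((I ∪ univ.image f : Finset V) : Set V) := by
    intro u hu v hv huv
    rw [Finset.mem_coe, Finset.mem_union, Finset.mem_image] at hu hv
    rcases hu with hu | ⟨z, -, rfl⟩ <;> rcases hv with hv | ⟨w, -, rfl⟩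
    · rw [φI u hu, φI v hv] at huv
      exact θ.injective huv
    · rw [φI u hu, φf] at huv
      exact absurd (huv ▸ Finset.mem_image_of_mem θ hu) (hgI' w)
    · rw [φI v hv, φf] at huv
      exact absurd (huv ▸ Finset.mem_image_of_mem θ hv) (hgI' z)
    · rw [φf, φf] at huv
      rw [hg.1.1 huv]
  obtain ⟨θ', hθ'⟩ := h55_exists_perm _ φ hinj
  have tf : ∀ z, θ' (f z) = g z := by
    intro z
    rw [hθ' (f z) (Finset.mem_union_right _ (Finset.mem_image_of_mem f (Finset.mem_univ z))), φf]
  have tI : ∀ u ∈ I, θ' u = θ u := by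
    intro u hu
    rw [hθ' u (Finset.mem_union_left _ hu), φI u hu]
  have tc : θ' c = c' := by rw [← hfr, tf, hgr]
  refine ⟨θ', ⟨?_, tc, ?_, ?_⟩, tf, tI⟩
  · intro hc
    rcases Finset.mem_union.mp hc with hc | hc
    · exact h.notMem hc
    · obtain ⟨z, hz, he⟩ := Finset.mem_image.mp hc
      rw [← hfr] at he
      exact (Finset.mem_erase.mp hz).1 (hf.1.1 he)
  · intro u hu v huv
    rcases Finset.mem_union.mp hu with hu | hu
    · rcases h.closed u hu v huv with h1 | h1
      · exact Or.inl (Finset.mem_union_left _ h1)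
      · exact Or.inr h1
    · obtain ⟨z, hz, rfl⟩ := Finset.mem_image.mp hu
      obtain ⟨w, hw, rfl⟩ := hf.2 z (Finset.mem_erase.mp hz).1 v huv
      by_cases hwr : w = r
      · exact Or.inr (by rw [hwr, hfr])
      · exact Or.inl (Finset.mem_union_right _ (Finset.mem_image_of_mem f
          (Finset.mem_erase.mpr ⟨hwr, Finset.mem_univ _⟩)))
  · intro u hu v
    rcases Finset.mem_union.mp hu with hu | hu
    · rw [tI u hu]
      constructor
      · intro huv
        have h1 := (h.iso u hu v).mp huv
        rcases h.closed u hu v huv with hv | hv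
        · rw [tI v hv]; exact h1
        · rw [hv, h.root] at h1
          rw [hv, tc]; exact h1
      · intro huv
        obtain ⟨w, hw⟩ := θ.surjective (θ' v)
        rw [← hw] at huv
        have h1 := (h.iso u hu w).mpr huv
        rcases h.closed u hu w h1 with h2 | h2
        · rw [← tI w h2] at hw
          rw [← θ'.injective hw]; exact h1
        · rw [h2, h.root, ← tc] at hw
          rw [← θ'.injective hw, ← h2]; exact h1
    · obtain ⟨z, hz, rfl⟩ := Finset.mem_image.mp hu
      have hzr := (Finset.mem_erase.mp hz).1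
      rw [tf z]
      constructor
      · intro huv
        obtain ⟨w, hw, rfl⟩ := hf.2 z hzr v huv
        rw [tf w]
        exact hg.1.2 _ _ hw
      · intro huv
        obtain ⟨w, hw, he⟩ := hg.2 z hzr _ huv
        rw [← tf w] at he
        rw [← θ'.injective he]
        exact hf.1.2 _ _ hw

/-- The matching given by two closed embeddings. -/
theorem PM.of_cl {α : Type} [Fintype α] {X : SimpleGraph α} {r : α} {f g : α → V}
    (hf : Cl X r T f) (hg : Cl X r G g) :
    ∃ θ : Equiv.Perm V, PM T G (f r) (g r) ((univ.erase r).image f) θ ∧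
      ∀ z, θ (f z) = g z := by
  have h0 : PM T G (f r) (g r) ∅ (Equiv.swap (f r) (g r)) := by
    refine ⟨Finset.notMem_empty _, Equiv.swap_apply_left _ _, ?_, ?_⟩
    · intro u hu
      exact absurd hu (Finset.notMem_empty _)
    · intro u hu
      exact absurd hu (Finset.notMem_empty _)
  obtain ⟨θ', h1, h2, -⟩ := h0.extend hf hg rfl rfl (fun z _ => Finset.notMem_empty _)
    (fun z _ => by simp)
  rw [Finset.empty_union] at h1
  exact ⟨θ', h1, h2⟩

/-- A matching isomorphism with full interior is an isomorphism. -/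
theorem PM.iso_of_univ {c c' : V} {I : Finset V} {θ : Equiv.Perm V} (h : PM T G c c' I θ)
    (hI : ∀ v, v ≠ c → v ∈ I) : Nonempty (G ≃g T) := by
  have key : ∀ u v, G.Adj (θ u) (θ v) ↔ T.Adj u v := by
    intro u v
    by_cases hu : u = c
    · by_cases hv : v = c
      · rw [hu, hv]
        simp
      · rw [G.adj_comm, T.adj_comm]
        exact (h.iso v (hI v hv) u).symm
    · exact (h.iso u (hI u hu) v).symm
  exact ⟨(⟨θ, fun {u v} => key u v⟩ : T ≃g G).symm⟩

/-- If not everything is matched in a tree, some neighbour of `c` is unmatched, and its branch is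
disjoint from the interior. -/
theorem PM.exists_unmatched {c c' : V} {I : Finset V} {θ : Equiv.Perm V} (h : PM T G c c' I θ)
    (hT : T.IsTree) (hI : ∃ v, v ≠ c ∧ v ∉ I) :
    ∃ b, T.Adj c b ∧ ∀ u ∈ Br T c b, u ∉ I := by
  obtain ⟨v, hv, hvI⟩ := hI
  obtain ⟨b, hb, hvb⟩ := exists_br hT hv
  refine ⟨b, hb, fun u hu huI => ?_⟩
  exact hvI (br_subset_of_closed hT hb h.notMem h.closed hu huI hvb)

end Pool.Agent.H64.TD
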