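import Pool.Agent.H64.TD.Defs

set_option autoImplicit false

/-!
Module Numeric: the numerical hypotheses hold for large `n`, and the final choice of the function.
-/

namespace Pool.Agent.H64.TD

open Finset Classical Filter Topology

/-- Cost is monotone decreasing in `q`. -/
theorem cost_anti {n q q' F₀ : ℕ} (h : q ≤ q') : cost n q' F₀ ≤ cost n q F₀ := by
  unfold cost
  refine add_le_add (Nat.mul_le_mul_left _ (Nat.sqrt_le_sqrt ?_)) ?_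
  · exact Nat.div_le_div_left (by omega) (by omega)
  · rcases Nat.eq_zero_or_pos F₀ with h0 | h0
    · subst h0; simp
    · exact Nat.div_le_div_left (Nat.mul_le_mul_left _ (by omega)) (by positivity)

theorem h62_exists_root (n : ℕ) : ∃ k : ℕ, k ^ 16 ≤ n ∧ n < (k + 1) ^ 16 := by
  induction n with
  | zero => exact ⟨0, by norm_num, by norm_num⟩
  | succ n ih =>
    obtain ⟨k, h1, h2⟩ := ih
    by_cases h : n + 1 < (k + 1) ^ 16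
    · exact ⟨k, by omega, h⟩
    · refine ⟨k + 1, by omega, ?_⟩
      have h3 : n + 1 = (k + 1) ^ 16 := by omega
      rw [h3]
      exact Nat.pow_lt_pow_left (by omega) (by norm_num)

theorem h62_cast_div (a b : ℕ) : ((a / b : ℕ) : ℝ) ≤ (a : ℝ) / b := Nat.cast_div_le

theorem h62_sqrt_div (a b : ℕ) : ((Nat.sqrt (a / b) : ℕ) : ℝ) ^ 2 ≤ (a : ℝ) / b := by
  have h4 : (Nat.sqrt (a / b)) ^ 2 ≤ a / b := by
    rw [pow_two]; exact Nat.sqrt_le _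
  have h5 : (((Nat.sqrt (a / b)) ^ 2 : ℕ) : ℝ) ≤ ((a / b : ℕ) : ℝ) := Nat.cast_le.2 h4
  rw [Nat.cast_pow] at h5
  exact h5.trans (h62_cast_div a b)

theorem h62_real1 (n k : ℝ) (hk : 0 < k) : 2 * n ^ 2 / k ^ 12 ≤ (2 * n / k ^ 6) ^ 2 := by
  rw [div_pow, mul_pow, ← pow_mul]
  have : (2 : ℝ) * n ^ 2 ≤ 2 ^ 2 * n ^ 2 := by nlinarith [sq_nonneg n]
  exact div_le_div_of_nonneg_right this (by positivity)

theorem h62_real2 (n k : ℝ) (hn : 0 ≤ n) (hk : 1 ≤ k) (h : n ≤ (k + 1) ^ 16) :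
    n ^ 2 / (k ^ 5 * k ^ 12) ≤ 65536 * (n / k) := by
  have h7 : n ≤ 65536 * k ^ 16 := by
    have h9 : (k + 1) ^ 16 ≤ (2 * k) ^ 16 := pow_le_pow_left₀ (by positivity) (by linarith) 16
    have h10 : (2 * k) ^ 16 = 65536 * k ^ 16 := by
      rw [mul_pow]; norm_num
    linarith
  rw [div_le_iff₀ (by positivity)]
  have h11 : 65536 * (n / k) * (k ^ 5 * k ^ 12) = n * (65536 * k ^ 16) := by
    have : k ≠ 0 := by positivity
    field_simp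
  rw [h11, pow_two]
  exact mul_le_mul_of_nonneg_left h7 hn

/-- The cost for the chosen parameters. -/
theorem h62_cost_le (n k : ℕ) (hk : 1 ≤ k) (h2 : n < (k + 1) ^ 16) :
    (cost n (k ^ 12 - 1) (k ^ 5) : ℝ) ≤ 65538 * (n / k) := by
  have hk0 : (0 : ℝ) < k := Nat.cast_pos.2 hk
  have hk1 : (1 : ℝ) ≤ k := Nat.one_le_cast.2 hk
  have hq : k ^ 12 - 1 + 1 = k ^ 12 := Nat.sub_add_cancel (Nat.one_le_pow _ _ hk)
  have hc : cost n (k ^ 12 - 1) (k ^ 5)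
      = k ^ 5 * Nat.sqrt (2 * n ^ 2 / k ^ 12) + n ^ 2 / (k ^ 5 * k ^ 12) := by
    unfold cost
    rw [hq]
  rw [hc, Nat.cast_add, Nat.cast_mul, Nat.cast_pow]
  have e1 : ((Nat.sqrt (2 * n ^ 2 / k ^ 12) : ℕ) : ℝ) ≤ 2 * n / k ^ 6 := by
    have h3 := h62_sqrt_div (2 * n ^ 2) (k ^ 12)
    rw [Nat.cast_mul, Nat.cast_pow, Nat.cast_pow, Nat.cast_ofNat] at h3
    exact le_of_sq_le_sq (h3.trans (h62_real1 n k hk0)) (by positivity)
  have e2 : ((n ^ 2 / (k ^ 5 * k ^ 12) : ℕ) : ℝ) ≤ 65536 * (n / k) := by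
    have h6 := h62_cast_div (n ^ 2) (k ^ 5 * k ^ 12)
    rw [Nat.cast_mul, Nat.cast_pow, Nat.cast_pow, Nat.cast_pow] at h6
    refine h6.trans (h62_real2 n k (Nat.cast_nonneg n) hk1 ?_)
    have h8 : (n : ℝ) ≤ (((k + 1) ^ 16 : ℕ) : ℝ) := Nat.cast_le.2 h2.le
    rw [Nat.cast_pow, Nat.cast_add, Nat.cast_one] at h8
    exact h8
  have e3 : (k : ℝ) ^ 5 * ((Nat.sqrt (2 * n ^ 2 / k ^ 12) : ℕ) : ℝ) ≤ 2 * (n / k) := by
    refine (mul_le_mul_of_nonneg_left e1 (by positivity)).trans (le_of_eq ?_)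
    field_simp
  linarith

theorem h62_big (n Q C m₀ R ℓ : ℕ) (x ε : ℝ) (hQ : (Q : ℝ) ≤ x) (hC : (C : ℝ) ≤ 65538 * x)
    (hnk : (262160 + 6 * (R : ℝ)) * x ≤ ε * n / 2)
    (hm : (m₀ : ℝ) ≤ ε * n / 64) (hεn : 200 ≤ ε * n) (hl : (1 / 2 + ε) * n ≤ ℓ) :
    n / 2 + 2 * Q + 2 * C + 8 * (m₀ + 1) + 2 * (R + R + R) * Q + 10 ≤ ℓ := by
  have hx : 0 ≤ x := (Nat.cast_nonneg Q).trans hQ
  have h8 : ((n / 2 : ℕ) : ℝ) ≤ n / 2 := by
    have := h62_cast_div n 2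
    rwa [Nat.cast_ofNat] at this
  have h9 : 6 * (R : ℝ) * (Q : ℝ) ≤ 6 * R * x :=
    mul_le_mul_of_nonneg_left hQ (by positivity)
  have hgoal : ((n / 2 : ℕ) : ℝ) + 2 * (Q : ℝ) + 2 * (C : ℝ) + 8 * ((m₀ : ℝ) + 1)
      + 2 * ((R : ℝ) + R + R) * (Q : ℝ) + 10 ≤ (ℓ : ℝ) := by
    nlinarith
  exact_mod_cast hgoal

theorem h62_small (n m₀ R : ℕ) (ε : ℝ) (hε : 0 < ε) (hR : 128 / ε ≤ R)
    (hεn : 200 ≤ ε * n) (hm2 : ε * n / 64 - 1 < m₀) : 2 * n < (R + R + R + 1) * m₀ := by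
  have hn0 : (0 : ℝ) ≤ n := Nat.cast_nonneg n
  have hR0 : (0 : ℝ) ≤ R := Nat.cast_nonneg R
  have hRε : 128 ≤ ε * R := by
    rw [div_le_iff₀ hε] at hR
    linarith
  have h10 : ε * n / 128 ≤ (m₀ : ℝ) := by linarith
  have h11 : (2 : ℝ) * n ≤ 2 * R * (ε * n / 128) := by
    nlinarith
  have h12 : 2 * (R : ℝ) * (ε * n / 128) ≤ 2 * R * m₀ :=
    mul_le_mul_of_nonneg_left h10 (by positivity)
  have h13 : (0 : ℝ) < m₀ := by linarith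
  have hgoal : 2 * (n : ℝ) < ((R : ℝ) + R + R + 1) * (m₀ : ℝ) := by
    nlinarith [mul_nonneg hR0 h13.le]
  exact_mod_cast hgoal

theorem h62_q (n k : ℕ) (hk : 1 ≤ k) (hk1 : k ^ 16 ≤ n) (Q : ℕ) (hQ : Q + 1 = k ^ 12) :
    (Q : ℝ) ≤ n / k := by
  have hk0 : (0 : ℝ) < k := Nat.cast_pos.2 hk
  have hkr1 : (1 : ℝ) ≤ k := Nat.one_le_cast.2 hk
  have hkn : (k : ℝ) ^ 16 ≤ n := by
    have : ((k ^ 16 : ℕ) : ℝ) ≤ n := Nat.cast_le.2 hk1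
    rwa [Nat.cast_pow] at this
  have h5 : (Q : ℝ) + 1 = (k : ℝ) ^ 12 := by
    have : ((Q + 1 : ℕ) : ℝ) = ((k ^ 12 : ℕ) : ℝ) := by rw [hQ]
    rwa [Nat.cast_pow, Nat.cast_add, Nat.cast_one] at this
  rw [le_div_iff₀ hk0]
  have h6 : (k : ℝ) ^ 12 * k ≤ k ^ 16 := by
    have : (k : ℝ) ^ 12 * k = k ^ 13 := by ring
    rw [this]
    exact pow_le_pow_right₀ hkr1 (by norm_num)
  nlinarith

theorem h62_nk (n k R ε : ℝ) (hk0 : 0 < k) (hε : 0 < ε) (hn0 : 0 ≤ n) (hR0 : 0 ≤ R)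
    (hkr : 8 / ε * (131080 + 3 * R) ≤ k) : (262160 + 6 * R) * (n / k) ≤ ε * n / 2 := by
  have h7 : 8 * (131080 + 3 * R) ≤ ε * k := by
    rw [div_mul_eq_mul_div, div_le_iff₀ hε] at hkr
    linarith
  rw [mul_div_assoc', div_le_iff₀ hk0]
  have h8 : 4 * (131080 + 3 * R) * n ≤ ε * k * n :=
    mul_le_mul_of_nonneg_right (by linarith) hn0
  linarith

/-- Existence of parameters. -/
theorem exists_num (ε : ℝ) (hε : 0 < ε) :
    ∃ N : ℕ, ∀ n ≥ N, ∀ ℓ : ℕ, (1 / 2 + ε) * n ≤ ℓ → ℓ ≤ n →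
      ∃ q F₀ R m₀ : ℕ, Num n ℓ q F₀ R m₀ := by
  -- constants
  obtain ⟨R, hR⟩ : ∃ R : ℕ, 128 / ε ≤ R := exists_nat_ge _
  obtain ⟨K, hK⟩ : ∃ K : ℕ, 8 / ε * (131080 + 3 * R) ≤ K := exists_nat_ge _
  obtain ⟨M, hM⟩ : ∃ M : ℕ, 200 / ε ≤ M := exists_nat_ge _
  refine ⟨(K + 2) ^ 16 + M, fun n hn ℓ hl hln => ?_⟩
  obtain ⟨k, hk1, hk2⟩ := h62_exists_root n
  have hkK : K + 1 ≤ k := by
    by_contra hcon
    have h3 : k + 1 ≤ K + 2 := by omega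
    have h4 : (k + 1) ^ 16 ≤ (K + 2) ^ 16 := Nat.pow_le_pow_left h3 16
    omega
  have hk : 1 ≤ k := by omega
  have hk0 : (0 : ℝ) < k := Nat.cast_pos.2 hk
  have hkr : 8 / ε * (131080 + 3 * (R : ℝ)) ≤ k := by
    have : (K : ℝ) ≤ k := Nat.cast_le.2 (by omega : K ≤ k)
    linarith
  have hMn : M ≤ n := by
    have h0 : 0 ≤ (K + 2) ^ 16 := Nat.zero_le _
    omega
  have hnM : 200 / ε ≤ (n : ℝ) := by
    have : (M : ℝ) ≤ n := Nat.cast_le.2 hMn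
    linarith
  have hεn : 200 ≤ ε * n := by
    rw [div_le_iff₀ hε] at hnM
    linarith
  have hn0 : (0 : ℝ) ≤ n := Nat.cast_nonneg n
  have hR0 : (0 : ℝ) ≤ R := Nat.cast_nonneg R
  -- the choice of `m₀`
  obtain ⟨m₀, hm1, hm2⟩ : ∃ m₀ : ℕ, (m₀ : ℝ) ≤ ε * n / 64 ∧ ε * n / 64 - 1 < m₀ :=
    ⟨⌊ε * n / 64⌋₊, Nat.floor_le (by positivity), Nat.sub_one_lt_floor _⟩
  have hcost := h62_cost_le n k hk hk2
  have hQ1 : k ^ 12 - 1 + 1 = k ^ 12 := Nat.sub_add_cancel (Nat.one_le_pow _ _ hk)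
  have hpos : 1 ≤ k ^ 5 := Nat.one_le_pow _ _ hk
  generalize k ^ 12 - 1 = Q at hcost hQ1
  have hq := h62_q n k hk hk1 Q hQ1
  have hnk := h62_nk n k R ε hk0 hε hn0 hR0 hkr
  exact ⟨Q, k ^ 5, R + R + R, m₀, hln, hpos,
    h62_big n Q _ m₀ R ℓ (n / k) ε hq hcost hnk hm1 hεn hl, h62_small n m₀ R ε hε hR hεn hm2⟩

/-- The least good `ℓ` gives the wanted function. -/
theorem exists_fun (P : ℕ → ℕ → Prop) (hP : ∀ n, P n n)
    (h : ∀ ε : ℝ, 0 < ε → ∃ N : ℕ, ∀ n ≥ N, ∀ ℓ : ℕ, (1 / 2 + ε) * n ≤ ℓ → ℓ ≤ n → P n ℓ) :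
    ∃ ℓ : ℕ → ℕ, Tendsto (fun n : ℕ => (ℓ n : ℝ) / (n : ℝ)) atTop (𝓝 (1 / 2 : ℝ)) ∧
      ∀ n, P n (ℓ n) := by
  have hex : ∀ n : ℕ, ∃ l : ℕ, n ≤ 2 * l ∧ P n l := fun n => ⟨n, by omega, hP n⟩
  refine ⟨fun n => Nat.find (hex n), ?_, fun n => (Nat.find_spec (hex n)).2⟩
  rw [Metric.tendsto_atTop]
  intro δ hδ
  set ε := min (δ / 2) (1 / 4) with hεdef
  have hε : 0 < ε := lt_min (by positivity) (by norm_num)
  have hε1 : ε ≤ δ / 2 := min_le_left _ _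
  have hε2 : ε ≤ 1 / 4 := min_le_right _ _
  obtain ⟨N, hN⟩ := h ε hε
  obtain ⟨M, hM⟩ : ∃ M : ℕ, 4 / δ + 8 < M := exists_nat_gt _
  refine ⟨N + M, fun n hn => ?_⟩
  have hnM : 4 / δ + 8 < (n : ℝ) := by
    have : ((M : ℕ) : ℝ) ≤ n := by exact_mod_cast (by omega : M ≤ n)
    linarith
  have hd0 : 0 < 4 / δ := by positivity
  have hn0 : (0 : ℝ) < n := by linarith
  have hdn : 4 < δ * n := by
    have : 4 / δ < n := by linarith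
    rw [div_lt_iff₀ hδ] at this
    linarith
  -- an upper bound for the least good value
  have hup : Nat.find (hex n) ≤ ⌈(1 / 2 + ε) * n⌉₊ := by
    apply Nat.find_min'
    constructor
    · have h1 : (1 / 2 + ε) * n ≤ ⌈(1 / 2 + ε) * (n : ℝ)⌉₊ := Nat.le_ceil _
      have h2 : (n : ℝ) ≤ 2 * (⌈(1 / 2 + ε) * (n : ℝ)⌉₊ : ℝ) := by nlinarith
      exact_mod_cast h2
    · refine hN n (by omega) _ (Nat.le_ceil _) ?_
      rw [Nat.ceil_le]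
      nlinarith
  have hlow : n ≤ 2 * Nat.find (hex n) := (Nat.find_spec (hex n)).1
  have hup' : (Nat.find (hex n) : ℝ) ≤ (1 / 2 + ε) * n + 1 := by
    have h1 : (Nat.find (hex n) : ℝ) ≤ (⌈(1 / 2 + ε) * (n : ℝ)⌉₊ : ℝ) := by exact_mod_cast hup
    have h2 : (⌈(1 / 2 + ε) * (n : ℝ)⌉₊ : ℝ) < (1 / 2 + ε) * n + 1 := Nat.ceil_lt_add_one (by positivity)
    linarith
  have hlow' : (n : ℝ) ≤ 2 * (Nat.find (hex n) : ℝ) := by exact_mod_cast hlow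
  rw [Real.dist_eq, abs_lt]
  constructor
  · have : 1 / 2 ≤ (Nat.find (hex n) : ℝ) / n := by
      rw [le_div_iff₀ hn0]; linarith
    linarith
  · have : (Nat.find (hex n) : ℝ) / n < 1 / 2 + δ := by
      rw [div_lt_iff₀ hn0]
      nlinarith
    linarith

/-- The full deck determines the graph. -/
theorem full_deck {n : ℕ} {T G : SimpleGraph (Fin n)} (h : SameDeck n G T) :
    Nonempty (G ≃g T) := by
  have key : ∀ K : SimpleGraph (Fin n), Nonempty (K.induce ((univ : Finset (Fin n)) : Set (Fin n)) ≃g K) := by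
    intro K
    refine ⟨⟨⟨fun x => x.1, fun x => ⟨x, by simp⟩, fun x => by simp, fun x => rfl⟩, ?_⟩⟩
    intro a b
    simp
  have h1 := h T
  have hfin : ∀ K : SimpleGraph (Fin n), {S : Finset (Fin n) | S.card = n ∧
      Nonempty (K.induce (S : Set (Fin n)) ≃g T)}.Finite := fun K => Set.toFinite _
  have h2 : 0 < {S : Finset (Fin n) | S.card = n ∧
      Nonempty (T.induce (S : Set (Fin n)) ≃g T)}.ncard := by
    rw [Set.ncard_pos (hfin T)]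
    exact ⟨univ, by simp, key T⟩
  rw [← h1, Set.ncard_pos (hfin G)] at h2
  obtain ⟨S, hS1, ⟨e⟩⟩ := h2
  have hSu : S = univ := by
    rw [← Finset.card_eq_iff_eq_univ]; simpa using hS1
  subst hSu
  obtain ⟨e2⟩ := key G
  exact ⟨e2.symm.trans e⟩

end Pool.Agent.H64.TD
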