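import Pool.Agent.H64.TD.TreeB

set_option autoImplicit false

/-!
Module RecA: cycles as cyclic sequences; recognising trees by acyclicity and the degree sum.
-/

namespace Pool.Agent.H64.TD

open Finset Classical

/-- A cycle with `m + 1` vertices, as a cyclic sequence (`i + 1` is addition in `Fin (m + 1)`,
which wraps around). -/
def Cyc {V : Type} (G : SimpleGraph V) (m : ℕ) (g : Fin (m + 1) → V) : Prop :=
  Function.Injective g ∧ ∀ i, G.Adj (g i) (g (i + 1))

private theorem h62_dg {n : ℕ} (G : SimpleGraph (Fin n)) :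
    ∑ v, dg G v = 2 * G.edgeFinset.card := by
  rw [← G.sum_degrees_eq_twice_card_edges]
  refine Finset.sum_congr rfl fun v _ => ?_
  unfold dg
  rw [← SimpleGraph.card_neighborFinset_eq_degree]
  congr 1
  ext w
  simp

theorem isTree_of_acyclic {n : ℕ} {G T : SimpleGraph (Fin n)} (hT : T.IsTree)
    (hG : G.IsAcyclic) (h : ∑ v, dg G v = ∑ v, dg T v) : G.IsTree := by
  have hne : Nonempty (Fin n) := hT.nonempty
  obtain ⟨F, hGF, hF⟩ := SimpleGraph.exists_maximal_isAcyclic_of_le_isAcyclic
    (G := (⊤ : SimpleGraph (Fin n))) le_top hG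
  have hFt : F.IsTree := by
    rw [← SimpleGraph.maximal_isAcyclic_iff_isTree]
    refine ⟨hF.1.2, fun H hH hle => hF.2 ⟨le_top, hH⟩ hle⟩
  rw [h62_dg, h62_dg] at h
  have h1 := hFt.card_edgeFinset
  have h2 := hT.card_edgeFinset
  have hsub : G.edgeFinset ⊆ F.edgeFinset := SimpleGraph.edgeFinset_mono hGF
  have heq : G.edgeFinset = F.edgeFinset := by
    refine Finset.eq_of_subset_of_card_le hsub ?_
    omega
  have : G = F := by
    rw [← SimpleGraph.edgeFinset_inj]
    exact heq
  rw [this]; exact hFt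

theorem exists_cyc {V : Type} {G : SimpleGraph V} (hG : ¬ G.IsAcyclic) :
    ∃ m, 2 ≤ m ∧ ∃ g, Cyc G m g := by
  unfold SimpleGraph.IsAcyclic at hG
  push Not at hG
  obtain ⟨v, c, hc⟩ := hG
  have h3 := hc.three_le_length
  refine ⟨c.length - 1, by omega, fun i => c.getVert i, ?_, fun i => ?_⟩
  · intro i j hij
    have := hc.getVert_injOn' (by simp only [Set.mem_ofPred_eq]; omega)
      (by simp only [Set.mem_ofPred_eq]; omega) hij
    exact Fin.ext this
  · show G.Adj (c.getVert i) (c.getVert ((i + 1 : Fin (c.length - 1 + 1)) : ℕ))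
    by_cases hi : (i : ℕ) + 1 = c.length - 1 + 1
    · have : ((i + 1 : Fin (c.length - 1 + 1)) : ℕ) = 0 := by
        rw [Fin.val_add]
        have : ((1 : Fin (c.length - 1 + 1)) : ℕ) = 1 := by
          rw [Fin.val_one']; exact Nat.mod_eq_of_lt (by omega)
        rw [this, hi, Nat.mod_self]
      rw [this, SimpleGraph.Walk.getVert_zero]
      have h := c.adj_getVert_succ (i := i) (by omega)
      have h5 : (i : ℕ) + 1 = c.length := by omega
      rw [h5, SimpleGraph.Walk.getVert_length] at h
      exact h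
    · have : ((i + 1 : Fin (c.length - 1 + 1)) : ℕ) = i + 1 := by
        rw [Fin.val_add]
        have : ((1 : Fin (c.length - 1 + 1)) : ℕ) = 1 := by
          rw [Fin.val_one']; exact Nat.mod_eq_of_lt (by omega)
        rw [this]
        exact Nat.mod_eq_of_lt (by omega)
      rw [this]
      exact c.adj_getVert_succ (by omega)

theorem not_cyc_of_tree {V : Type} {T : SimpleGraph V} (hT : T.IsTree) {m : ℕ} (hm : 2 ≤ m)
    (g : Fin (m + 1) → V) : ¬ Cyc T m g := by
  rintro ⟨hinj, hadj⟩
  obtain ⟨i, -, hi⟩ := Finset.exists_max_image (Finset.univ : Finset (Fin (m + 1)))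
    (fun i => T.dist (g 0) (g i)) ⟨0, Finset.mem_univ _⟩
  have hi' : ∀ j, T.dist (g 0) (g j) ≤ T.dist (g 0) (g i) := fun j => hi j (Finset.mem_univ _)
  have hA : T.Adj (g i) (g (i + 1)) := hadj i
  have hB : T.Adj (g i) (g (i - 1)) := by
    have := hadj (i - 1)
    rw [sub_add_cancel] at this
    exact this.symm
  have d : ∀ j, T.Adj (g i) (g j) → T.dist (g 0) (g j) + 1 = T.dist (g 0) (g i) := by
    intro j hj
    rcases hT.dist_eq_dist_add_one_of_adj (g 0) hj with h | h
    · exact h.symm
    · have := hi' j; omega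
  have h := hinj (closer_unique hT (u := g 0) (w := g i) hA hB (d _ hA) (d _ hB))
  have h2 : (1 : Fin (m + 1)) + 1 = 0 := by
    have h3 : i + 1 + 1 = i := by
      rw [h, sub_add_cancel]
    have : i + (1 + 1) = i + 0 := by rw [← add_assoc, h3, add_zero]
    exact add_left_cancel this
  have h4 : (((1 : Fin (m + 1)) + 1 : Fin (m + 1)) : ℕ) = 2 := by
    rw [Fin.val_add]
    have : ((1 : Fin (m + 1)) : ℕ) = 1 := by
      rw [Fin.val_one']; exact Nat.mod_eq_of_lt (by omega)
    rw [this]
    exact Nat.mod_eq_of_lt (by omega)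
  rw [h2] at h4
  simp at h4

end Pool.Agent.H64.TD
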