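import Pool.Agent.H64.TD.RecA

set_option autoImplicit false

/-!
Module RecB: closed embeddings avoid long cycles.
-/

namespace Pool.Agent.H64.TD

open Finset Classical

/-- one step along a cycle inside the image of a closed embedding -/
theorem h53_step {V α : Type} {G : SimpleGraph V} {X : SimpleGraph α} {r : α}
    {f : α → V} (hf : Cl X r G f) {m : ℕ} {g : Fin (m + 1) → V} (hg : Cyc G m g)
    (j : Fin (m + 1)) (hj : ∃ z, f z = g j) (hr : g j ≠ f r) :
    (∃ z, f z = g (j + 1)) ∧ ∃ z, f z = g (j - 1) := by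
  obtain ⟨z, hz⟩ := hj
  have hzr : z ≠ r := by
    rintro rfl
    exact hr hz.symm
  have h1 := hg.2 j
  have h2 := hg.2 (j - 1)
  rw [sub_add_cancel] at h2
  rw [← hz] at h1 h2
  obtain ⟨w, -, hw⟩ := hf.2 z hzr _ h1
  obtain ⟨w', -, hw'⟩ := hf.2 z hzr _ h2.symm
  exact ⟨⟨w, hw⟩, ⟨w', hw'⟩⟩

/-- all the vertices of a cycle meeting the interior of a closed embedding are in its image -/
theorem h53_all {V α : Type} {G : SimpleGraph V} {X : SimpleGraph α} {r : α}
    {f : α → V} (hf : Cl X r G f) {m : ℕ} (hm : 2 ≤ m) {g : Fin (m + 1) → V} (hg : Cyc G m g)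
    {j₀ i₀ : Fin (m + 1)} (hj₀ : ∀ j, j ≠ j₀ → g j ≠ f r) (hne : i₀ ≠ j₀)
    (hi₀ : ∃ z, f z = g i₀) : ∀ j, ∃ z, f z = g j := by
  have hval : ∀ j : Fin (m + 1), j₀ + Fin.ofNat (m + 1) (j - j₀ : Fin (m + 1)).val = j := by
    intro j
    rw [Fin.ofNat_val_eq_self, add_sub_cancel]
  have hcast : ∀ k : ℕ, 1 ≤ k → k ≤ m → j₀ + Fin.ofNat (m + 1) k ≠ j₀ := by
    intro k hk hk' h
    have h0 : Fin.ofNat (m + 1) k = 0 := by simpa using h
    have h1 := congrArg Fin.val h0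
    rw [Fin.val_ofNat, Nat.mod_eq_of_lt (by omega)] at h1
    simp at h1
    omega
  have hsucc : ∀ k : ℕ, Fin.ofNat (m + 1) (k + 1) = Fin.ofNat (m + 1) k + 1 := by
    intro k
    apply Fin.ext
    simp [Fin.val_add, Fin.val_ofNat]
  have hup : ∀ k : ℕ, 1 ≤ k → k ≤ m → (∃ z, f z = g (j₀ + Fin.ofNat (m + 1) k)) →
      (∃ z, f z = g (j₀ + Fin.ofNat (m + 1) (k + 1))) ∧
      ∃ z, f z = g (j₀ + Fin.ofNat (m + 1) (k - 1)) := by
    intro k hk hk' h
    have h1 := h53_step hf hg _ h (hj₀ _ (hcast k hk hk'))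
    have e1 : j₀ + Fin.ofNat (m + 1) (k + 1) = j₀ + Fin.ofNat (m + 1) k + 1 := by
      rw [hsucc, add_assoc]
    have e2 : j₀ + Fin.ofNat (m + 1) (k - 1) = j₀ + Fin.ofNat (m + 1) k - 1 := by
      obtain ⟨k', rfl⟩ : ∃ k', k = k' + 1 := ⟨k - 1, by omega⟩
      rw [hsucc, Nat.add_sub_cancel, ← add_assoc, add_sub_cancel_right]
    rw [e1, e2]
    exact h1
  obtain ⟨k₀, hk₀⟩ : ∃ k₀, k₀ = (i₀ - j₀ : Fin (m + 1)).val := ⟨_, rfl⟩
  have hk1 : 1 ≤ k₀ := by
    rw [hk₀, Nat.one_le_iff_ne_zero]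
    intro h0
    have : i₀ - j₀ = 0 := Fin.ext (by simpa using h0)
    exact hne (sub_eq_zero.1 this)
  have hk2 : k₀ ≤ m := by
    have := (i₀ - j₀ : Fin (m + 1)).isLt
    omega
  have hA : ∃ z, f z = g (j₀ + Fin.ofNat (m + 1) k₀) := by
    rw [hk₀, hval]
    exact hi₀
  have hfw : ∀ t : ℕ, k₀ + t ≤ m → ∃ z, f z = g (j₀ + Fin.ofNat (m + 1) (k₀ + t)) := by
    intro t
    induction t with
    | zero => intro _; exact hA
    | succ t ih =>
      intro ht
      exact (hup (k₀ + t) (by omega) (by omega) (ih (by omega))).1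
  have hbw : ∀ t : ℕ, t ≤ k₀ → ∃ z, f z = g (j₀ + Fin.ofNat (m + 1) (k₀ - t)) := by
    intro t
    induction t with
    | zero => intro _; exact hA
    | succ t ih =>
      intro ht
      exact (hup (k₀ - t) (by omega) (by omega) (ih (by omega))).2
  intro j
  have hj := hval j
  have hlt := (j - j₀ : Fin (m + 1)).isLt
  rcases le_total k₀ (j - j₀ : Fin (m + 1)).val with h | h
  · have := hfw ((j - j₀ : Fin (m + 1)).val - k₀) (by omega)
    rw [Nat.add_sub_cancel' h, hj] at this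
    exact this
  · have := hbw (k₀ - (j - j₀ : Fin (m + 1)).val) (by omega)
    rw [Nat.sub_sub_self h, hj] at this
    exact this

/-- A closed embedding of a planted tree with at most `m + 1` vertices avoids cycles with `m + 1`
vertices (except possibly at the root). -/
theorem cl_avoid_cyc {V α : Type} [Fintype α] {G : SimpleGraph V} {X : SimpleGraph α} {r x : α}
    (hX : Planted X r x) {f : α → V} (hf : Cl X r G f) {m : ℕ} (hm : 2 ≤ m)
    (hcard : Fintype.card α ≤ m + 1) {g : Fin (m + 1) → V} (hg : Cyc G m g) :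
    ∀ i, ∀ z, z ≠ r → g i ≠ f z := by
  intro i₀ z₀ hz₀ hgz
  have hinj := hf.1.1
  have hne1 : ∀ j : Fin (m + 1), j + 1 ≠ j := by
    intro j h
    have h0 : (1 : Fin (m + 1)) = 0 := by simpa using h
    have h1 := congrArg Fin.val h0
    rw [Fin.val_one', Nat.mod_eq_of_lt (by omega)] at h1
    simp at h1
  have hall : ∀ j, ∃ z, f z = g j := by
    by_cases hex : ∃ j₀, g j₀ = f r
    · obtain ⟨j₀, hj₀⟩ := hex
      refine h53_all hf hm hg (j₀ := j₀) (i₀ := i₀) ?_ ?_ ⟨z₀, hgz.symm⟩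
      · intro j hj h
        exact hj (hg.1 (h.trans hj₀.symm))
      · rintro rfl
        exact hz₀ (hinj (hgz.symm.trans hj₀))
    · push Not at hex
      exact h53_all hf hm hg (j₀ := i₀ + 1) (i₀ := i₀) (fun j _ => hex j) (hne1 i₀).symm
        ⟨z₀, hgz.symm⟩
  choose z hz using hall
  have hzinj : Function.Injective z := by
    intro a b hab
    apply hg.1
    rw [← hz a, ← hz b, hab]
  refine not_cyc_of_tree hX.1 hm z ⟨hzinj, fun j => ?_⟩
  have hadj := hg.2 j
  rw [← hz j, ← hz (j + 1)] at hadj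
  by_cases hjr : z j = r
  · have hjr' : z (j + 1) ≠ r := by
      intro h
      exact hne1 j (hzinj (h.trans hjr.symm))
    obtain ⟨w, hw1, hw2⟩ := hf.2 _ hjr' _ hadj.symm
    rw [← hinj hw2]
    exact hw1.symm
  · obtain ⟨w, hw1, hw2⟩ := hf.2 _ hjr _ hadj
    rw [← hinj hw2]
    exact hw1

end Pool.Agent.H64.TD
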