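import Pool.Agent.H64.TD.TreeB

set_option autoImplicit false

/-!
Module RecC: centroids.
-/

namespace Pool.Agent.H64.TD

open Finset Classical

variable {n : ℕ} {T : SimpleGraph (Fin n)}

/-- The root of a largest branch with at most half of the vertices is a centroid. -/
theorem centroid_of_max (hT : T.IsTree) {c b : Fin n} (hcb : T.Adj c b)
    (h : 2 * (Br T c b).card ≤ n)
    (hmax : ∀ a' b', T.Adj a' b' → 2 * (Br T a' b').card ≤ n →
      (Br T a' b').card ≤ (Br T c b).card) :
    ∀ b', T.Adj c b' → 2 * (Br T c b').card ≤ n := by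
  intro b' hcb'
  by_contra hcon
  push Not at hcon
  have hbb : b ≠ b' := by
    rintro rfl
    omega
  have hsum := card_Br_add hT hcb'
  rw [Fintype.card_fin] at hsum
  have h1 := hmax b' c hcb'.symm (by omega)
  have hlt : (Br T c b).card < (Br T b' c).card := by
    apply Finset.card_lt_card
    rw [Finset.ssubset_iff_of_subset]
    · exact ⟨c, right_mem_Br hcb'.symm, left_notMem_Br⟩
    · intro u hu
      rw [mem_Br_swap hT hcb']
      intro hu'
      exact hbb (br_unique hT hcb hcb' hu hu')
  omega

/-- Existence of a largest branch with at most half of the vertices. -/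
theorem exists_max (hT : T.IsTree) (hn : 2 ≤ n) : ∃ c b, T.Adj c b ∧
    2 * (Br T c b).card ≤ n ∧ ∀ a' b', T.Adj a' b' → 2 * (Br T a' b').card ≤ n →
      (Br T a' b').card ≤ (Br T c b).card := by
  set S : Finset (Fin n × Fin n) :=
    univ.filter (fun e => T.Adj e.1 e.2 ∧ 2 * (Br T e.1 e.2).card ≤ n) with hS
  have hne : S.Nonempty := by
    have h01 : (⟨1, by omega⟩ : Fin n) ≠ ⟨0, by omega⟩ := by
      intro h
      simp at h
    obtain ⟨b, hb, -⟩ := exists_br hT h01
    have hsum := card_Br_add hT hb
    rw [Fintype.card_fin] at hsum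
    by_cases hh : 2 * (Br T (⟨0, by omega⟩ : Fin n) b).card ≤ n
    · exact ⟨(⟨0, by omega⟩, b), by rw [hS, Finset.mem_filter]; exact ⟨mem_univ _, hb, hh⟩⟩
    · refine ⟨(b, ⟨0, by omega⟩), ?_⟩
      rw [hS, Finset.mem_filter]
      exact ⟨mem_univ _, hb.symm, by simp only; omega⟩
  obtain ⟨e, he, hmax⟩ := Finset.exists_max_image S (fun e => (Br T e.1 e.2).card) hne
  rw [hS, Finset.mem_filter] at he
  refine ⟨e.1, e.2, he.2.1, he.2.2, fun a' b' hab hle => ?_⟩
  have := hmax (a', b') (by rw [hS, Finset.mem_filter]; exact ⟨mem_univ _, hab, hle⟩)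
  exact this

/-- A path avoiding `c` stays in one branch at `c`. -/
theorem h22_seg_card (hT : T.IsTree) {c b : Fin n} (hcb : T.Adj c b) (p : ℕ → Fin n) (m : ℕ)
    (hinj : ∀ i < m, ∀ j < m, p i = p j → i = j)
    (hadj : ∀ j, j + 1 < m → T.Adj (p j) (p (j + 1))) (hne : ∀ j < m, p j ≠ c)
    (h0 : 0 < m → p 0 ∈ Br T c b) : m ≤ (Br T c b).card := by
  have key : ∀ j, j < m → p j ∈ Br T c b := by
    intro j
    induction j with
    | zero => exact h0
    | succ j ih =>
      intro hj
      have h1 := ih (by omega)
      rcases br_closed hT hcb h1 (hadj j hj) with h | h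
      · exact h
      · exact absurd h (hne _ hj)
  have h2 : ((Finset.range m).image p).card = m := by
    rw [Finset.card_image_of_injOn, Finset.card_range]
    intro i hi j hj hij
    exact hinj i (by simpa using hi) j (by simpa using hj) hij
  calc m = ((Finset.range m).image p).card := h2.symm
    _ ≤ (Br T c b).card := by
      apply Finset.card_le_card
      intro u hu
      rw [Finset.mem_image] at hu
      obtain ⟨j, hj, rfl⟩ := hu
      exact key j (by simpa using hj)

/-- A path with more than half of the vertices passes through two big branches of a centroid. -/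
theorem two_branches (hT : T.IsTree) {c : Fin n}
    (hc : ∀ b', T.Adj c b' → 2 * (Br T c b').card ≤ n) {ℓ : ℕ} (hℓ : n + 4 ≤ 2 * ℓ)
    (p : ℕ → Fin n) (hinj : ∀ i < ℓ, ∀ j < ℓ, p i = p j → i = j)
    (hadj : ∀ i, i + 1 < ℓ → T.Adj (p i) (p (i + 1))) :
    ∃ b b', T.Adj c b ∧ T.Adj c b' ∧ b ≠ b' ∧ (Br T c b').card ≤ (Br T c b).card ∧
      ℓ ≤ (Br T c b).card + (Br T c b').card + 1 := by
  by_cases hcp : ∃ i < ℓ, p i = c
  · obtain ⟨i, hi, hic⟩ := hcp
    -- forward part
    have hfw : ∀ b, T.Adj c b → (i + 1 < ℓ → p (i + 1) ∈ Br T c b) →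
        ℓ - 1 - i ≤ (Br T c b).card := by
      intro b hb h0
      apply h22_seg_card hT hb (fun j => p (i + 1 + j))
      · intro a ha a' ha' h
        have := hinj (i + 1 + a) (by omega) (i + 1 + a') (by omega) h
        omega
      · intro j hj
        have := hadj (i + 1 + j) (by omega)
        rwa [show i + 1 + j + 1 = i + 1 + (j + 1) by omega] at this
      · intro j hj h
        have := hinj (i + 1 + j) (by omega) i hi (h.trans hic.symm)
        omega
      · intro hpos
        exact h0 (by omega)
    have hbw : ∀ b, T.Adj c b → (0 < i → p (i - 1) ∈ Br T c b) →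
        i ≤ (Br T c b).card := by
      intro b hb h0
      apply h22_seg_card hT hb (fun j => p (i - 1 - j))
      · intro a ha a' ha' h
        have := hinj (i - 1 - a) (by omega) (i - 1 - a') (by omega) h
        omega
      · intro j hj
        have := hadj (i - 1 - (j + 1)) (by omega)
        rw [show i - 1 - (j + 1) + 1 = i - 1 - j by omega] at this
        exact this.symm
      · intro j hj h
        have := hinj (i - 1 - j) (by omega) i hi (h.trans hic.symm)
        omega
      · intro hpos
        exact h0 hpos
    by_cases hi0 : i = 0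
    · exfalso
      subst hi0
      have ha := hadj 0 (by omega)
      rw [hic] at ha
      have h1 := hfw _ ha (fun _ => right_mem_Br ha)
      have h2 := hc _ ha
      omega
    by_cases hil : i + 1 = ℓ
    · exfalso
      have ha := hadj (i - 1) (by omega)
      rw [show i - 1 + 1 = i by omega, hic] at ha
      have h1 := hbw _ ha.symm (fun _ => right_mem_Br ha.symm)
      have h2 := hc _ ha.symm
      omega
    have ha := hadj i (by omega)
    rw [hic] at ha
    have hb := hadj (i - 1) (by omega)
    rw [show i - 1 + 1 = i by omega, hic] at hb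
    have h1 := hfw _ ha (fun _ => right_mem_Br ha)
    have h2 := hbw _ hb.symm (fun _ => right_mem_Br hb.symm)
    have hne : p (i + 1) ≠ p (i - 1) := by
      intro h
      have := hinj (i + 1) (by omega) (i - 1) (by omega) h
      omega
    rcases le_total (Br T c (p (i + 1))).card (Br T c (p (i - 1))).card with hle | hle
    · exact ⟨p (i - 1), p (i + 1), hb.symm, ha, hne.symm, hle, by omega⟩
    · exact ⟨p (i + 1), p (i - 1), ha, hb.symm, hne, hle, by omega⟩
  · exfalso
    push Not at hcp
    obtain ⟨b, hb, hpb⟩ := exists_br hT (hcp 0 (by omega))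
    have h1 := h22_seg_card hT hb p ℓ hinj hadj hcp (fun _ => hpb)
    have h2 := hc _ hb
    omega

end Pool.Agent.H64.TD
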