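import Pool.Agent.H64.TD.Exact
import Pool.Agent.H64.TD.Numeric
import Pool.Agent.H64.TD.RecB
import Pool.Agent.H64.TD.RecC

set_option autoImplicit false

/-!
Module Recog: a graph with the same deck as a tree is a tree.
-/

namespace Pool.Agent.H64.TD

open Finset Classical

variable {n : ℕ} {α : Type} [Fintype α]

omit [Fintype α] in
theorem mem_image_perm {V : Type} {I : Finset V} {θ : Equiv.Perm V} {v : V} :
    v ∈ I.image θ ↔ θ.symm v ∈ I := by
  rw [Finset.mem_image]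
  constructor
  · rintro ⟨u, hu, rfl⟩
    simpa using hu
  · intro h
    exact ⟨_, h, by simp⟩

theorem mem_interior {V : Type} {f : α → V} {r : α} {v : V} :
    v ∈ (univ.erase r).image f ↔ ∃ z, z ≠ r ∧ f z = v := by
  rw [Finset.mem_image]
  simp

theorem card_interior {V : Type} {f : α → V} {r : α} (hf : Function.Injective f) :
    ((univ.erase r).image f).card = Fintype.card α - 1 := by
  rw [Finset.card_image_of_injective _ hf, Finset.card_erase_of_mem (Finset.mem_univ _),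
    Finset.card_univ]

omit [Fintype α] in
theorem mem_BS {V : Type} [Fintype V] {T : SimpleGraph V} {a b v : V} :
    v ∈ BS T a b ↔ v = a ∨ v ∈ Br T a b := by
  unfold BS
  rw [Finset.mem_insert]

/-- Existence of patterns transfers. -/
theorem deck_exists {ℓ : ℕ} {T G : SimpleGraph (Fin n)} (hℓ : ℓ ≤ n) (hd : SameDeck ℓ G T)
    {κ : Type} [Fintype κ] (hκ : Fintype.card κ ≤ ℓ) (P : Pat κ → Prop)
    (h : ∃ k : κ → Fin n, P (typ G k)) : ∃ k : κ → Fin n, P (typ T k) := by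
  by_contra hno
  push Not at hno
  have hsum := deck_sum' hℓ hd (loc_typ (n := n) (ι := κ) (fun π => if P π then (1 : ℚ) else 0))
    (by omega)
  rw [Finset.sum_eq_zero (s := univ) (f := fun k : κ → Fin n =>
    if P (typ T k) then (1 : ℚ) else 0) (fun k _ => if_neg (hno k))] at hsum
  obtain ⟨k, hk⟩ := h
  have h2 : (0 : ℚ) < ∑ k : κ → Fin n, if P (typ G k) then (1 : ℚ) else 0 := by
    refine Finset.sum_pos' (fun k _ => ?_) ⟨k, Finset.mem_univ _, ?_⟩
    · split_ifs <;> norm_num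
    · rw [if_pos hk]; norm_num
  rw [hsum] at h2
  exact lt_irrefl _ h2

theorem sum_dg_eq {ℓ : ℕ} {T G : SimpleGraph (Fin n)} (hℓ : ℓ ≤ n) (hd : SameDeck ℓ G T)
    (h2 : 2 ≤ ℓ) : ∑ v, dg G v = ∑ v, dg T v := by
  have h := deck_sum' hℓ hd (loc_dg (n := n) (ι := Unit) ()) (by simpa using h2)
  have conv : ∀ H : SimpleGraph (Fin n), ∑ f : Unit → Fin n, (dg H (f ()) : ℚ) =
      ((∑ v, dg H v : ℕ) : ℚ) := by
    intro H
    push_cast
    exact Fintype.sum_equiv (Equiv.funUnique Unit (Fin n)) _ _ (fun f => rfl)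
  rw [conv, conv] at h
  exact_mod_cast h

/-- A closed copy in `T` gives a closed copy in `G`. -/
theorem transfer_cl {ℓ : ℕ} {T G : SimpleGraph (Fin n)} (hT : T.IsTree) (hℓ : ℓ ≤ n)
    (hd : SameDeck ℓ G T) {X : SimpleGraph α} {r x : α} (hX : Planted X r x) (q F₀ : ℕ)
    (hF : 1 ≤ F₀) (h1 : Fintype.card α + q + 2 * (cost n q F₀ + 1) ≤ ℓ)
    {f₀ : α → Fin n} (hf₀ : Cl X r T f₀) (hpos : 0 < fq X r q T f₀) :
    ∃ f, Cl X r G f ∧ 0 < fq X r q G f := by
  have : NeZero n := by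
    obtain ⟨v⟩ := hT.connected.nonempty
    exact ⟨fun h => by subst h; exact v.elim0⟩
  by_contra hno
  push Not at hno
  have hm := master hT hℓ hd hX q F₀ 0 hF h1 (by omega) (loc_const (n := n) (ι := α) 0 1)
  rw [Finset.sum_eq_zero (s := univ) (f := fun f : α → Fin n => if Cl X r G f then
    fq X r q G f * 1 else 0) (fun f _ => by
      by_cases hc : Cl X r G f
      · rw [if_pos hc]
        have h3 := hno f hc
        have h4 := fq_nonneg X r q G f
        rw [le_antisymm h3 h4, zero_mul]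
      · rw [if_neg hc])] at hm
  have h2 : (0 : ℚ) < ∑ f : α → Fin n, if Cl X r T f then fq X r q T f * 1 else 0 := by
    refine Finset.sum_pos' (fun f _ => ?_) ⟨f₀, Finset.mem_univ _, ?_⟩
    · split_ifs
      · have := fq_nonneg X r q T f
        simpa using this
      · exact le_rfl
    · rw [if_pos hf₀, mul_one]
      exact hpos
  rw [← hm] at h2
  exact lt_irrefl _ h2

theorem PM.card_cl' {T G : SimpleGraph (Fin n)} {c c' : Fin n} {I : Finset (Fin n)}
    {θ : Equiv.Perm (Fin n)} (h : PM T G c c' I θ) (X : SimpleGraph α) (r : α) :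
    (univ.filter (fun f : α → Fin n => Cl X r G f ∧ ∀ z, z ≠ r → θ.symm (f z) ∈ I)).card =
    (univ.filter (fun f : α → Fin n => Cl X r T f ∧ ∀ z, z ≠ r → f z ∈ I)).card := by
  refine Eq.trans ?_ (Eq.trans (PM.card_cl h X r) ?_)
  · congr 1
    ext f
    rw [@Finset.mem_filter _ _ (_) _ _, @Finset.mem_filter _ _ (_) _ _]
    refine and_congr_right fun _ => and_congr_right fun _ => forall₂_congr fun z _ => ?_
    rw [mem_image_perm]
  · congr 1
    ext f
    rw [@Finset.mem_filter _ _ (_) _ _, @Finset.mem_filter _ _ (_) _ _]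

theorem PM.card_emb' {T G : SimpleGraph (Fin n)} {c c' : Fin n} {I : Finset (Fin n)}
    {θ : Equiv.Perm (Fin n)} (h : PM T G c c' I θ) (X : SimpleGraph α) (r : α) :
    (univ.filter (fun f : α → Fin n => Emb X G f ∧ f r = c' ∧
      ∀ z, z ≠ r → θ.symm (f z) ∈ I)).card =
    (univ.filter (fun f : α → Fin n => Emb X T f ∧ f r = c ∧ ∀ z, z ≠ r → f z ∈ I)).card := by
  refine Eq.trans ?_ (Eq.trans (PM.card_emb h X r) ?_)
  · congr 1
    ext f
    rw [@Finset.mem_filter _ _ (_) _ _, @Finset.mem_filter _ _ (_) _ _]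
    refine and_congr_right fun _ => and_congr_right fun _ => and_congr_right fun _ =>
      forall₂_congr fun z _ => ?_
    rw [mem_image_perm]
  · congr 1
    ext f
    rw [@Finset.mem_filter _ _ (_) _ _, @Finset.mem_filter _ _ (_) _ _]

/-- If `T` has a closed copy of `X` not inside the matched region, so has `G`. -/
theorem exists_outside {ℓ : ℕ} {T G : SimpleGraph (Fin n)} (hT : T.IsTree) (hℓ : ℓ ≤ n)
    (hd : SameDeck ℓ G T) {X : SimpleGraph α} {r x : α} (hX : Planted X r x) (q F₀ R : ℕ)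
    (hF : 1 ≤ F₀)
    (hR : n ^ 2 < (R + 1) * ((Fintype.card α - 1) * (n - (Fintype.card α - 1))))
    (h1 : Fintype.card α + q + 2 * (cost n q F₀ + 1) ≤ ℓ)
    (h2 : Fintype.card α + q + cost n q F₀ + 2 * R * q ≤ ℓ)
    {c c' : Fin n} {I : Finset (Fin n)} {θ : Equiv.Perm (Fin n)} (h : PM T G c c' I θ)
    {f₀ : α → Fin n} (hf₀ : Cl X r T f₀) (hout : ∃ z, z ≠ r ∧ f₀ z ∉ I) :
    ∃ g, Cl X r G g ∧ ∃ z, z ≠ r ∧ θ.symm (g z) ∉ I := by
  by_contra hno
  push Not at hno
  have hex := exact_count hT hℓ hd hX q F₀ R hF hR h1 h2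
  have hTpos : ∀ f, Cl X r T f → fq X r q T f ≠ 0 := fun f hf =>
    (fq_pos hT.connected hf q (by omega)).ne'
  have e1 : (univ.filter (fun f : α → Fin n => Cl X r G f ∧ fq X r q G f ≠ 0)).card ≤
      (univ.filter (fun f : α → Fin n => Cl X r G f ∧ ∀ z, z ≠ r → θ.symm (f z) ∈ I)).card := by
    refine Finset.card_le_card fun f hf => ?_
    rw [Finset.mem_filter] at hf ⊢
    exact ⟨hf.1, hf.2.1, hno f hf.2.1⟩
  rw [PM.card_cl' h, hex] at e1
  have e2 : (univ.filter (fun f : α → Fin n => Cl X r T f ∧ ∀ z, z ≠ r → f z ∈ I)).card <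
      (univ.filter (fun f : α → Fin n => Cl X r T f ∧ fq X r q T f ≠ 0)).card := by
    refine Finset.card_lt_card ?_
    rw [Finset.ssubset_iff_of_subset]
    · refine ⟨f₀, ?_, ?_⟩
      · rw [Finset.mem_filter]
        exact ⟨Finset.mem_univ _, hf₀, hTpos f₀ hf₀⟩
      · rw [Finset.mem_filter]
        rintro ⟨_, _, h3⟩
        obtain ⟨z, hz, hz2⟩ := hout
        exact hz2 (h3 z hz)
    · intro f hf
      rw [Finset.mem_filter] at hf ⊢
      exact ⟨hf.1, hf.2.1, hTpos f hf.2.1⟩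
  omega

omit [Fintype α] in
/-- The non-root part of a planted tree is connected. -/
theorem planted_cross {X : SimpleGraph α} {r x : α} (hX : Planted X r x) (P : α → Prop)
    {z₁ z₂ : α} (h1 : z₁ ≠ r) (h2 : z₂ ≠ r) (p1 : P z₁) (p2 : ¬ P z₂) :
    ∃ z z', z ≠ r ∧ z' ≠ r ∧ X.Adj z z' ∧ P z ∧ ¬ P z' := by
  obtain ⟨w⟩ := hX.1.connected.preconnected z₁ z₂
  have hrx : X.Adj r x := (hX.2 x).2 rfl
  let S : Set α := {z | if z = r then P x else P z}
  have hz1 : z₁ ∈ S := by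
    change if z₁ = r then P x else P z₁
    rw [if_neg h1]; exact p1
  have hz2 : z₂ ∉ S := by
    change ¬ if z₂ = r then P x else P z₂
    rw [if_neg h2]; exact p2
  obtain ⟨d, _, hd1, hd2⟩ := w.exists_boundary_dart S hz1 hz2
  have hadj := d.adj
  change if d.fst = r then P x else P d.fst at hd1
  change ¬ if d.snd = r then P x else P d.snd at hd2
  have hxr : x ≠ r := hrx.ne'
  by_cases ha : d.fst = r
  · exfalso
    rw [if_pos ha] at hd1
    rw [ha] at hadj
    have := (hX.2 _).1 hadj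
    rw [this, if_neg hxr] at hd2
    exact hd2 hd1
  · by_cases hb : d.snd = r
    · exfalso
      rw [if_pos hb] at hd2
      rw [hb] at hadj
      have := (hX.2 _).1 hadj.symm
      rw [this, if_neg hxr] at hd1
      exact hd2 hd1
    · rw [if_neg ha] at hd1
      rw [if_neg hb] at hd2
      exact ⟨_, _, ha, hb, hadj, hd1, hd2⟩

/-- A graph with the same deck as a tree is a tree. -/
theorem recog {ℓ q F₀ R m₀ : ℕ} (N : Num n ℓ q F₀ R m₀) {T G : SimpleGraph (Fin n)}
    (hT : T.IsTree) (hd : SameDeck ℓ G T) : G.IsTree := by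
  have hℓ := N.le
  have hbig := N.big
  have hsmall := N.small
  have hn2 : 2 ≤ n := by omega
  have : NeZero n := ⟨by omega⟩
  by_contra hG
  have hnac : ¬ G.IsAcyclic := fun h => hG (isTree_of_acyclic hT h (sum_dg_eq hℓ hd (by omega)))
  obtain ⟨m, hm, g, hg⟩ := exists_cyc hnac
  -- the cycle is long
  have hmℓ : ℓ ≤ m := by
    by_contra hlt
    push Not at hlt
    obtain ⟨k, hk⟩ := deck_exists hℓ hd (κ := Fin (m + 1)) (by rw [Fintype.card_fin]; omega)
      (fun π => (∀ i j, π.1 i j → i = j) ∧ ∀ i, π.2 i (i + 1))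
      ⟨g, fun i j h => hg.1 h, hg.2⟩
    exact not_cyc_of_tree hT hm k ⟨fun i j h => hk.1 i j h, hk.2⟩
  -- a long path in `T`
  have hpath : ∃ p : ℕ → Fin n, (∀ i < ℓ, ∀ j < ℓ, p i = p j → i = j) ∧
      ∀ i, i + 1 < ℓ → T.Adj (p i) (p (i + 1)) := by
    obtain ⟨k, hk⟩ := deck_exists hℓ hd (κ := Fin ℓ) (by rw [Fintype.card_fin])
      (fun π => (∀ i j, π.1 i j → i = j) ∧ ∀ i j : Fin ℓ, (i : ℕ) + 1 = j → π.2 i j)
      ⟨fun i => g ⟨i, by omega⟩, by
        intro i j h
        have := hg.1 h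
        simp only [Fin.mk.injEq] at this
        exact Fin.ext this, by
        intro i j hij
        have h1 := hg.2 ⟨i, by omega⟩
        have h2 : (⟨i, by omega⟩ : Fin (m + 1)) + 1 = ⟨j, by omega⟩ := by
          rw [Fin.ext_iff, Fin.val_add]
          simp only [Fin.val_one']
          rw [Nat.mod_eq_of_lt (a := 1) (by omega), Nat.mod_eq_of_lt (by omega)]
          exact hij
        rw [h2] at h1
        exact h1⟩
    refine ⟨fun i => if h : i < ℓ then k ⟨i, h⟩ else 0, ?_, ?_⟩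
    · intro i hi j hj h
      simp only [hi, hj, dif_pos] at h
      have := hk.1 _ _ h
      simpa using this
    · intro i hi
      have hi' : i < ℓ := by omega
      simp only [hi, hi', dif_pos]
      exact hk.2 _ _ rfl
  obtain ⟨p, hp1, hp2⟩ := hpath
  obtain ⟨c, b₀, hcb₀, hhalf, hmax⟩ := exists_max hT hn2
  have hcen := centroid_of_max hT hcb₀ hhalf hmax
  obtain ⟨b, b', hcb, hcb', hbb', hle, hsum⟩ := two_branches hT hcen (ℓ := ℓ) (by omega) p hp1 hp2
  have hb1 := hcen b hcb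
  have hb2 := hcen b' hcb'
  set M₁ := (Br T c b).card with hM₁
  set M₂ := (Br T c b').card with hM₂
  have hX₁ := planted_BX hT hcb
  have hX₂ := planted_BX hT hcb'
  have hc₁ : Fintype.card ↥(BS T c b) = M₁ + 1 := card_BS
  have hc₂ : Fintype.card ↥(BS T c b') = M₂ + 1 := card_BS
  -- closed copy of the first branch with a large region behind
  set q' := max q (n / 2 - M₁) with hq'
  have hqq' : q ≤ q' := le_max_left _ _
  have hcost : cost n q' F₀ ≤ cost n q F₀ := cost_anti hqq'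
  have hq'le : M₁ + q' ≤ n / 2 + q := by
    rcases le_total q (n / 2 - M₁) with h | h
    · rw [hq', max_eq_right h]; omega
    · rw [hq', max_eq_left h]; omega
  have hq'ge : n / 2 ≤ M₁ + q' := by
    have : n / 2 - M₁ ≤ q' := le_max_right _ _
    omega
  obtain ⟨f₁, hf₁, hf₁pos⟩ := transfer_cl hT hℓ hd hX₁ q' F₀ N.pos (by rw [hc₁]; omega)
    (cl_BX hT hcb) (fq_pos hT.connected (cl_BX hT hcb) q' (by rw [hc₁]; omega))
  obtain ⟨_, y, hy⟩ := fq_pos_iff.1 hf₁pos
  obtain ⟨θ, hPM, hθ⟩ := PM.of_cl (cl_BX hT hcb) hf₁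
  -- closed copy of the second branch outside
  have hM₂m : m₀ ≤ M₂ := by omega
  have hRcond : n ^ 2 < (R + 1) * ((Fintype.card ↥(BS T c b') - 1) *
      (n - (Fintype.card ↥(BS T c b') - 1))) := by
    rw [hc₂, Nat.add_sub_cancel]
    have h3 : n ≤ 2 * (n - M₂) := by omega
    have h4 : 2 * n < (R + 1) * M₂ := lt_of_lt_of_le hsmall (Nat.mul_le_mul_left _ hM₂m)
    have h5 : 2 * (n ^ 2) < 2 * ((R + 1) * (M₂ * (n - M₂))) := by
      calc 2 * n ^ 2 = (2 * n) * n := by ring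
        _ < ((R + 1) * M₂) * n := Nat.mul_lt_mul_of_pos_right h4 (by omega)
        _ ≤ ((R + 1) * M₂) * (2 * (n - M₂)) := Nat.mul_le_mul_left _ h3
        _ = 2 * ((R + 1) * (M₂ * (n - M₂))) := by ring
    omega
  have hmemI : ∀ v : Fin n, (∃ z : ↥(BS T c b), z ≠ bRoot T c b ∧ (z : Fin n) = v) ↔
      v ∈ Br T c b := by
    intro v
    constructor
    · rintro ⟨z, hz, rfl⟩
      rcases mem_BS.1 z.2 with h | h
      · exfalso
        apply hz
        exact Subtype.ext h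
      · exact h
    · intro hv
      refine ⟨⟨v, mem_BS.2 (Or.inr hv)⟩, ?_, rfl⟩
      intro h
      have : v = c := congrArg Subtype.val h
      rw [this] at hv
      exact left_notMem_Br hv
  obtain ⟨f₂, hf₂, z₀, hz₀, hz₀out⟩ := exists_outside hT hℓ hd hX₂ q F₀ R N.pos hRcond
    (by rw [hc₂]; omega) (by rw [hc₂]; omega) hPM (cl_BX hT hcb') (by
      refine ⟨⟨b', mem_BS.2 (Or.inr (right_mem_Br hcb'))⟩, ?_, ?_⟩
      · intro h
        have : b' = c := congrArg Subtype.val h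
        exact hcb'.ne' this
      · intro hmem
        obtain ⟨z, hz, hzb⟩ := mem_interior.1 hmem
        have : b' ∈ Br T c b := (hmemI b').1 ⟨z, hz, hzb⟩
        exact hbb' (br_unique hT hcb hcb' this (right_mem_Br hcb')))
  -- the three sets
  set r₁ := bRoot T c b with hr₁
  set r₂ := bRoot T c b' with hr₂
  obtain ⟨C₁, mC₁, cardC₁⟩ : ∃ C₁ : Finset (Fin n), (∀ v, v ∈ C₁ ↔ ∃ z, z ≠ r₁ ∧ f₁ z = v) ∧
      C₁.card = M₁ :=
    ⟨_, fun v => mem_interior, by rw [card_interior hf₁.1.1, hc₁, Nat.add_sub_cancel]⟩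
  obtain ⟨C₂, mC₂, cardC₂⟩ : ∃ C₂ : Finset (Fin n), (∀ v, v ∈ C₂ ↔ ∃ z, z ≠ r₂ ∧ f₂ z = v) ∧
      C₂.card = M₂ :=
    ⟨_, fun v => mem_interior, by rw [card_interior hf₂.1.1, hc₂, Nat.add_sub_cancel]⟩
  set K : Finset (Fin n) := univ.image g with hK
  have cardK : K.card = m + 1 := by
    rw [hK, Finset.card_image_of_injective _ hg.1, Finset.card_univ, Fintype.card_fin]
  have mK : ∀ v, v ∈ K ↔ ∃ i, g i = v := by
    intro v
    rw [hK, Finset.mem_image]
    simp
  have K1 : ∀ v ∈ C₁, v ∉ K := by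
    intro v hv hvK
    obtain ⟨z, hz, rfl⟩ := (mC₁ v).1 hv
    obtain ⟨i, hi⟩ := (mK _).1 hvK
    exact cl_avoid_cyc hX₁ hf₁ hm (by rw [hc₁]; omega) hg i z hz hi
  have K2 : ∀ v ∈ C₂, v ∉ K := by
    intro v hv hvK
    obtain ⟨z, hz, rfl⟩ := (mC₂ v).1 hv
    obtain ⟨i, hi⟩ := (mK _).1 hvK
    exact cl_avoid_cyc hX₂ hf₂ hm (by rw [hc₂]; omega) hg i z hz hi
  have closed₁ : ∀ u ∈ C₁, ∀ v, G.Adj u v → v ∈ C₁ ∨ v = f₁ r₁ := by
    intro u hu v huv
    obtain ⟨z, hz, rfl⟩ := (mC₁ u).1 hu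
    obtain ⟨w, _, rfl⟩ := hf₁.2 z hz v huv
    by_cases hw : w = r₁
    · right; rw [hw]
    · left; exact (mC₁ _).2 ⟨w, hw, rfl⟩
  have closed₂ : ∀ u ∈ C₂, ∀ v, G.Adj u v → v ∈ C₂ ∨ v = f₂ r₂ := by
    intro u hu v huv
    obtain ⟨z, hz, rfl⟩ := (mC₂ u).1 hu
    obtain ⟨w, _, rfl⟩ := hf₂.2 z hz v huv
    by_cases hw : w = r₂
    · right; rw [hw]
    · left; exact (mC₂ _).2 ⟨w, hw, rfl⟩
  -- `f₂ z₀` is not in `C₁`
  have hz₀C : f₂ z₀ ∉ C₁ := by
    intro hmem
    obtain ⟨z, hz, hzz⟩ := (mC₁ _).1 hmem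
    apply hz₀out
    rw [← hzz, ← hθ z, Equiv.symm_apply_apply]
    exact mem_interior.2 ⟨z, hz, rfl⟩
  have hz₀C₂ : f₂ z₀ ∈ C₂ := (mC₂ _).2 ⟨z₀, hz₀, rfl⟩
  by_cases hdisj : ∀ v ∈ C₁, v ∉ C₂
  · -- disjoint: too many vertices
    have d1 : Disjoint C₁ C₂ := Finset.disjoint_left.2 hdisj
    have d2 : Disjoint (C₁ ∪ C₂) K := by
      rw [Finset.disjoint_left]
      intro v hv
      rcases Finset.mem_union.1 hv with h | h
      · exact K1 v h
      · exact K2 v h
    have h3 := Finset.card_le_univ ((C₁ ∪ C₂) ∪ K)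
    rw [Finset.card_union_of_disjoint d2, Finset.card_union_of_disjoint d1, cardC₁, cardC₂,
      cardK, Fintype.card_fin] at h3
    omega
  · push Not at hdisj
    obtain ⟨v, hv1, hv2⟩ := hdisj
    -- the root of the first copy is in `C₂`
    have hroot : f₁ r₁ ∈ C₂ := by
      obtain ⟨z, hz, hzv⟩ := (mC₂ v).1 hv2
      obtain ⟨w, w', hw, hw', hadj, hP, hP'⟩ := planted_cross hX₂ (fun z => f₂ z ∈ C₁) hz hz₀
        (by rw [hzv]; exact hv1) hz₀C
      rcases closed₁ _ hP _ (hf₂.1.2 _ _ hadj) with h | h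
      · exact absurd h hP'
      · rw [← h]; exact (mC₂ _).2 ⟨w', hw', rfl⟩
    have hnot : ∃ v ∈ C₁, v ∉ C₂ := by
      by_contra hall
      push Not at hall
      have : C₁ = C₂ := Finset.eq_of_subset_of_card_le hall (by omega)
      rw [this] at hz₀C
      exact hz₀C hz₀C₂
    have hroot₂ : f₂ r₂ ∈ C₁ := by
      obtain ⟨u, hu1, hu2⟩ := hnot
      obtain ⟨zu, hzu, rfl⟩ := (mC₁ u).1 hu1
      obtain ⟨zv, hzv, hzv'⟩ := (mC₁ v).1 hv1
      obtain ⟨w, w', hw, hw', hadj, hP, hP'⟩ := planted_cross hX₁ (fun z => f₁ z ∈ C₂) hzv hzu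
        (by rw [hzv']; exact hv2) hu2
      rcases closed₂ _ hP _ (hf₁.1.2 _ _ hadj) with h | h
      · exact absurd h hP'
      · rw [← h]; exact (mC₁ _).2 ⟨w', hw', rfl⟩
    -- the union is closed under adjacency
    have hU : ∀ u, (u ∈ C₁ ∨ u ∈ C₂) → ∀ v, G.Adj u v → (v ∈ C₁ ∨ v ∈ C₂) := by
      intro u hu v huv
      rcases hu with h | h
      · rcases closed₁ u h v huv with h' | h'
        · exact Or.inl h'
        · rw [h']; exact Or.inr hroot
      · rcases closed₂ u h v huv with h' | h'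
        · exact Or.inr h'
        · rw [h']; exact Or.inl hroot₂
    have hyU : ∀ j, y j ∈ C₁ ∨ y j ∈ C₂ := by
      intro j
      induction j using WellFoundedLT.induction with
      | ind j ih =>
        rcases hy.2 j with h | ⟨i, hi, h⟩
        · exact hU _ (Or.inr hroot) _ h
        · exact hU _ (ih i hi) _ h
    have hWC : ∀ w ∈ BW r₁ f₁ y, w ∈ C₂ ∧ w ∉ C₁ := by
      intro w hw
      rw [mem_BW] at hw
      rcases hw with rfl | ⟨j, rfl⟩
      · refine ⟨hroot, ?_⟩
        intro hmem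
        obtain ⟨z, hz, hzz⟩ := (mC₁ _).1 hmem
        exact hz (hf₁.1.1 hzz)
      · have hnot : y j ∉ C₁ := by
          intro hmem
          obtain ⟨z, hz, hzz⟩ := (mC₁ _).1 hmem
          have := hy.1 (a₁ := Sum.inl z) (a₂ := Sum.inr j) (by simpa using hzz)
          simp at this
        exact ⟨(hyU j).resolve_left hnot, hnot⟩
    have hWdisj1 : Disjoint C₁ (BW r₁ f₁ y) := by
      rw [Finset.disjoint_left]
      intro v hv hv'
      exact (hWC v hv').2 hv
    have hd3 : Disjoint (C₁ ∪ BW r₁ f₁ y) K := by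
      rw [Finset.disjoint_left]
      intro v hv
      rcases Finset.mem_union.1 hv with h | h
      · exact K1 v h
      · exact K2 v (hWC v h).1
    have h3 := Finset.card_le_univ ((C₁ ∪ BW r₁ f₁ y) ∪ K)
    rw [Finset.card_union_of_disjoint hd3, Finset.card_union_of_disjoint hWdisj1, cardC₁,
      card_BW hy, cardK, Fintype.card_fin] at h3
    omega

end Pool.Agent.H64.TD
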