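import Pool.Agent.H64.TD.Recog

set_option autoImplicit false

/-!
Module Recon: two trees with the same deck are isomorphic.
-/

namespace Pool.Agent.H64.TD

open Finset Classical

variable {n : ℕ} {α : Type} [Fintype α]

/-- Number of embeddings rooted at a vertex. -/
noncomputable def embN (X : SimpleGraph α) (r : α) (H : SimpleGraph (Fin n))
    (u : Unit → Fin n) : ℚ :=
  ∑ y : α → Fin n, if Emb X H y ∧ y r = u () then 1 else 0

theorem loc_embN (X : SimpleGraph α) (r : α) :
    Loc n Unit (Fintype.card α) (fun H u => embN X r H u) := by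
  have h := (loc_typ (n := n) (ι := Unit ⊕ α) (fun π =>
    if (∀ i j : α, π.1 (Sum.inr i) (Sum.inr j) → i = j) ∧
      (∀ u v, X.Adj u v → π.2 (Sum.inr u) (Sum.inr v)) ∧ π.1 (Sum.inr r) (Sum.inl ())
    then (1 : ℚ) else 0)).sumOut
  rw [add_zero] at h
  convert! h using 3
  unfold embN
  refine Finset.sum_congr ?_ fun y _ => if_congr ?_ rfl rfl
  · ext y
    simp
  · unfold Emb typ
    simp only [Sum.elim_inr, Sum.elim_inl]
    constructor
    · rintro ⟨⟨h1, h2⟩, h3⟩
      exact ⟨fun i j h => h1 h, h2, h3⟩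
    · rintro ⟨h1, h2, h3⟩
      exact ⟨⟨fun i j h => h1 i j h, h2⟩, h3⟩

theorem embN_eq (X : SimpleGraph α) (r : α) (H : SimpleGraph (Fin n)) (v : Fin n) :
    embN X r H (fun _ => v) =
      ((univ.filter (fun f : α → Fin n => Emb X H f ∧ f r = v)).card : ℚ) := by
  unfold embN
  rw [Finset.sum_boole]

/-- If the numbers of embeddings rooted at `c`, `c'` agree and one in `T` is not inside the
matched region, there is one in `G` outside. -/
theorem exists_emb_outside {T G : SimpleGraph (Fin n)} {X : SimpleGraph α} {r : α}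
    {c c' : Fin n} {I : Finset (Fin n)} {θ : Equiv.Perm (Fin n)} (h : PM T G c c' I θ)
    (hN : embN X r T (fun _ => c) = embN X r G (fun _ => c'))
    {f₀ : α → Fin n} (hf₀ : Emb X T f₀) (hr : f₀ r = c) (hout : ∃ z, z ≠ r ∧ f₀ z ∉ I) :
    ∃ g, Emb X G g ∧ g r = c' ∧ ∃ z, z ≠ r ∧ θ.symm (g z) ∉ I := by
  by_contra hno
  push Not at hno
  rw [embN_eq, embN_eq] at hN
  have hN' : (univ.filter (fun f : α → Fin n => Emb X T f ∧ f r = c)).card =
      (univ.filter (fun f : α → Fin n => Emb X G f ∧ f r = c')).card := by exact_mod_cast hN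
  have e1 : (univ.filter (fun f : α → Fin n => Emb X G f ∧ f r = c')).card ≤
      (univ.filter (fun f : α → Fin n => Emb X G f ∧ f r = c' ∧
        ∀ z, z ≠ r → θ.symm (f z) ∈ I)).card := by
    refine Finset.card_le_card fun f hf => ?_
    rw [Finset.mem_filter] at hf ⊢
    exact ⟨hf.1, hf.2.1, hf.2.2, hno f hf.2.1 hf.2.2⟩
  rw [PM.card_emb' h] at e1
  have e2 : (univ.filter (fun f : α → Fin n => Emb X T f ∧ f r = c ∧
      ∀ z, z ≠ r → f z ∈ I)).card <
      (univ.filter (fun f : α → Fin n => Emb X T f ∧ f r = c)).card := by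
    refine Finset.card_lt_card ?_
    rw [Finset.ssubset_iff_of_subset]
    · refine ⟨f₀, ?_, ?_⟩
      · rw [Finset.mem_filter]
        exact ⟨Finset.mem_univ _, hf₀, hr⟩
      · rw [Finset.mem_filter]
        rintro ⟨_, _, _, h3⟩
        obtain ⟨z, hz, hz2⟩ := hout
        exact hz2 (h3 z hz)
    · intro f hf
      rw [Finset.mem_filter] at hf ⊢
      exact ⟨hf.1, hf.2.1, hf.2.2.1⟩
  omega

theorem planted_mem_Br {X : SimpleGraph α} {r x : α} (hX : Planted X r x) {z : α} :
    z ∈ Br X r x ↔ z ≠ r := by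
  rw [planted_Br hX, Finset.mem_erase]
  simp

theorem mem_union_interior {V : Type} {I : Finset V} {f : α → V} {r : α} {v : V} :
    v ∈ I ∪ (univ.erase r).image f ↔ v ∈ I ∨ ∃ z, z ≠ r ∧ f z = v := by
  rw [Finset.mem_union, mem_interior]

/-- One extension step of the matching. -/
theorem ext_step {ℓ q F₀ R m₀ : ℕ} (N : Num n ℓ q F₀ R m₀) {T G : SimpleGraph (Fin n)}
    (hT : T.IsTree) (hG : G.IsTree) (hd : SameDeck ℓ G T) {c c' : Fin n} {B : ℕ}
    (hcT : ∀ b, T.Adj c b → (Br T c b).card ≤ B)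
    (hcG : ∀ b, G.Adj c' b → 2 * (Br G c' b).card ≤ n)
    (hanch : ∀ g : SimpleGraph (Fin n) → (Unit → Fin n) → ℚ, Loc n Unit (m₀ + 1) g →
      g T (fun _ => c) = g G (fun _ => c'))
    {I : Finset (Fin n)} {θ : Equiv.Perm (Fin n)} (h : PM T G c c' I θ) (hI : B ≤ I.card)
    {b : Fin n} (hcb : T.Adj c b) (hbI : ∀ u ∈ Br T c b, u ∉ I)
    (hmax : ∀ b', G.Adj c' b' → (∀ u ∈ Br G c' b', θ.symm u ∉ I) →
      (Br G c' b').card ≤ (Br T c b).card) :
    ∃ I' θ', PM T G c c' I' θ' ∧ I.card < I'.card := by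
  have hℓ := N.le
  have hbig := N.big
  have hsmall := N.small
  have : NeZero n := ⟨by omega⟩
  set M := (Br T c b).card with hM
  have hX := planted_BX hT hcb
  have hα : Fintype.card ↥(BS T c b) = M + 1 := card_BS
  -- size of the branch
  have hMn : 2 * M < n := by
    have h1 : M ≤ B := hcT b hcb
    have hdisj : Disjoint (Br T c b) I := Finset.disjoint_left.2 hbI
    have h2 : c ∉ Br T c b ∪ I := by
      rw [Finset.mem_union]
      rintro (h3 | h3)
      · exact left_notMem_Br h3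
      · exact h.notMem h3
    have h3 := Finset.card_le_univ (insert c (Br T c b ∪ I))
    rw [Finset.card_insert_of_notMem h2, Finset.card_union_of_disjoint hdisj,
      Fintype.card_fin] at h3
    omega
  have hb0 : b ∉ I := hbI b (right_mem_Br hcb)
  have hclT := cl_BX hT hcb
  have houtT : ∃ z : ↥(BS T c b), z ≠ bRoot T c b ∧ (z : Fin n) ∉ I := by
    refine ⟨⟨b, mem_BS.2 (Or.inr (right_mem_Br hcb))⟩, ?_, hb0⟩
    intro h3
    have : b = c := congrArg Subtype.val h3
    exact hcb.ne' this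
  have hclosedG : ∀ u, θ.symm u ∈ I → ∀ v, G.Adj u v → θ.symm v ∈ I ∨ v = c' := by
    intro u hu v huv
    have h1 := (h.iso _ hu (θ.symm v)).2 (by simpa using huv)
    rcases h.closed _ hu _ h1 with h2 | h2
    · exact Or.inl h2
    · right
      rw [← h.root, ← h2, Equiv.apply_symm_apply]
  have hc'I : θ.symm c' ∉ I := by
    rw [← h.root, Equiv.symm_apply_apply]
    exact h.notMem
  -- a branch at `c'` meeting the matched region is inside
  have hinside : ∀ b₂, G.Adj c' b₂ → (∃ u ∈ Br G c' b₂, θ.symm u ∈ I) →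
      ∀ u ∈ Br G c' b₂, θ.symm u ∈ I := by
    intro b₂ hb₂ hex
    obtain ⟨u, hu, huI⟩ := hex
    set J : Finset (Fin n) := univ.filter (fun u => θ.symm u ∈ I) with hJ
    have mJ : ∀ u, u ∈ J ↔ θ.symm u ∈ I := by
      intro u
      rw [hJ, Finset.mem_filter]
      simp
    have hsub := br_subset_of_closed hG hb₂ (I := J) (by rw [mJ]; exact hc'I) (by
      intro u hu v huv
      rw [mJ] at hu
      rw [mJ]
      exact hclosedG u hu v huv) hu ((mJ u).2 huI)
    intro v hv
    exact (mJ v).1 (hsub hv)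
  -- the copy in `G`
  have hcopy : ∃ g : ↥(BS T c b) → Fin n, Cl (BX T c b) (bRoot T c b) G g ∧
      g (bRoot T c b) = c' ∧ ∀ z, z ≠ bRoot T c b → θ.symm (g z) ∉ I := by
    rcases Nat.lt_or_ge M m₀ with hsm | hlg
    · -- small branches: rooted embeddings
      have hN := hanch (fun H u => embN (BX T c b) (bRoot T c b) H u)
        (Loc.mono (loc_embN _ _) (by rw [hα]; omega))
      obtain ⟨g, hg, hgr, z₀, hz₀, hz₀I⟩ := exists_emb_outside h hN hclT.1 rfl houtT
      obtain ⟨b₂, hb₂⟩ : ∃ b₂, b₂ = g ⟨b, mem_BS.2 (Or.inr (right_mem_Br hcb))⟩ := ⟨_, rfl⟩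
      have hadj : G.Adj c' b₂ := by
        rw [hb₂, ← hgr]
        exact hg.2 _ _ ((hX.2 _).2 rfl)
      have hin : ∀ z, z ≠ bRoot T c b → g z ∈ Br G c' b₂ := by
        intro z hz
        rw [hb₂, ← hgr, mem_Br_emb hX.1.connected hG hg]
        exact (planted_mem_Br hX).2 hz
      have hunm : ∀ u ∈ Br G c' b₂, θ.symm u ∉ I := by
        intro u hu huI
        exact hz₀I (hinside b₂ hadj ⟨u, hu, huI⟩ _ (hin z₀ hz₀))
      have hcard := hmax b₂ hadj hunm
      have heq : (univ.erase (bRoot T c b)).image g = Br G c' b₂ := by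
        refine Finset.eq_of_subset_of_card_le ?_ ?_
        · intro u hu
          obtain ⟨z, hz, rfl⟩ := Finset.mem_image.1 hu
          exact hin z (Finset.ne_of_mem_erase hz)
        · rw [Finset.card_image_of_injective _ hg.1, Finset.card_erase_of_mem
            (Finset.mem_univ _), Finset.card_univ, hα]
          omega
      refine ⟨g, ⟨hg, ?_⟩, hgr, fun z hz => hunm _ (hin z hz)⟩
      intro z hz v hzv
      have hv : ∃ w, g w = v := by
        rcases br_closed hG hadj (hin z hz) hzv with h3 | h3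
        · rw [← heq, Finset.mem_image] at h3
          obtain ⟨w, _, hw⟩ := h3
          exact ⟨w, hw⟩
        · exact ⟨bRoot T c b, by rw [hgr, h3]⟩
      obtain ⟨w, rfl⟩ := hv
      exact ⟨w, adj_of_emb hX.1.connected hG hg hzv, rfl⟩
    · -- large branches: exact numbers of closed copies
      have hRcond : n ^ 2 < (R + 1) * ((Fintype.card ↥(BS T c b) - 1) *
          (n - (Fintype.card ↥(BS T c b) - 1))) := by
        rw [hα, Nat.add_sub_cancel]
        have h3 : n ≤ 2 * (n - M) := by omega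
        have h4 : 2 * n < (R + 1) * M := lt_of_lt_of_le hsmall (Nat.mul_le_mul_left _ hlg)
        have h5 : 2 * (n ^ 2) < 2 * ((R + 1) * (M * (n - M))) := by
          calc 2 * n ^ 2 = (2 * n) * n := by ring
            _ < ((R + 1) * M) * n := Nat.mul_lt_mul_of_pos_right h4 (by omega)
            _ ≤ ((R + 1) * M) * (2 * (n - M)) := Nat.mul_le_mul_left _ h3
            _ = 2 * ((R + 1) * (M * (n - M))) := by ring
        omega
      obtain ⟨g, hg, z₀, hz₀, hz₀I⟩ := exists_outside hT hℓ hd hX q F₀ R N.pos hRcond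
        (by rw [hα]; omega) (by rw [hα]; omega) h hclT houtT
      set xb : ↥(BS T c b) := ⟨b, mem_BS.2 (Or.inr (right_mem_Br hcb))⟩ with hxb
      have hadjg : G.Adj (g (bRoot T c b)) (g xb) := hg.1.2 _ _ ((hX.2 _).2 rfl)
      have hcardg := card_Br_of_cl hG hX hg
      rw [hα, Nat.add_sub_cancel] at hcardg
      have hin : ∀ z, z ≠ bRoot T c b → g z ∈ Br G (g (bRoot T c b)) (g xb) := by
        intro z hz
        rw [mem_Br_emb hX.1.connected hG hg.1]
        exact (planted_mem_Br hX).2 hz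
      have hc' : c' ∉ Br G (g (bRoot T c b)) (g xb) := by
        intro hmem
        obtain ⟨b₃, hb₃, hsub⟩ := compl_br_subset_of_mem hG hadjg hmem
        have h3 := hcG b₃ hb₃
        have h4 : (Finset.univ \ Br G (g (bRoot T c b)) (g xb)).card ≤ (Br G c' b₃).card := by
          refine Finset.card_le_card fun u hu => hsub u ?_
          exact (Finset.mem_sdiff.1 hu).2
        rw [Finset.card_sdiff_of_subset (Finset.subset_univ _), Finset.card_univ,
          Fintype.card_fin, hcardg] at h4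
        omega
      obtain ⟨b₂, hb₂, hsub⟩ := br_subset_of_notMem hG hadjg hc'
      have hunm : ∀ u ∈ Br G c' b₂, θ.symm u ∉ I := by
        intro u hu huI
        exact hz₀I (hinside b₂ hb₂ ⟨u, hu, huI⟩ _ (hsub (hin z₀ hz₀)))
      have heq : Br G (g (bRoot T c b)) (g xb) = Br G c' b₂ := by
        refine Finset.eq_of_subset_of_card_le hsub ?_
        rw [hcardg]
        exact hmax b₂ hb₂ hunm
      obtain ⟨e1, e2⟩ := edge_unique_of_eq hG hadjg hb₂ heq
      exact ⟨g, hg, e1, fun z hz => hunm _ (hsub (hin z hz))⟩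
  obtain ⟨g, hg, hgr, hgI⟩ := hcopy
  obtain ⟨J, hJ, θ', hPM'⟩ : ∃ J : Finset (Fin n), (∀ v, v ∈ J ↔ v ∈ I ∨
      ∃ z, z ≠ bRoot T c b ∧ (z : Fin n) = v) ∧ ∃ θ' : Equiv.Perm (Fin n), PM T G c c' J θ' := by
    obtain ⟨θ', hPM', _, _⟩ := PM.extend h hclT hg rfl hgr (by
      intro z hz hzI
      rcases mem_BS.1 z.2 with h3 | h3
      · exact hz (Subtype.ext h3)
      · exact hbI _ h3 hzI) (by
      intro z hz hmem
      exact hgI z hz (mem_image_perm.1 hmem))
    exact ⟨_, fun v => mem_union_interior, θ', hPM'⟩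
  refine ⟨J, θ', hPM', ?_⟩
  refine Finset.card_lt_card ?_
  rw [Finset.ssubset_iff_of_subset (fun v hv => (hJ v).2 (Or.inl hv))]
  refine ⟨b, ?_, hb0⟩
  refine (hJ b).2 (Or.inr ⟨⟨b, mem_BS.2 (Or.inr (right_mem_Br hcb))⟩, ?_, rfl⟩)
  intro h3
  have : b = c := congrArg Subtype.val h3
  exact hcb.ne' this

end Pool.Agent.H64.TD
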