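import Pool.Agent.H64.TD.Deck
import Pool.Agent.H64.TD.Match

set_option autoImplicit false

/-!
Module Test: the test polynomial of a planted tree with respect to a tree `T`.
-/

namespace Pool.Agent.H64.TD

open Finset Classical

variable {n : ℕ} {α : Type} [Fintype α]

/-- Excess sum over a level. -/
noncomputable def Ex (X : SimpleGraph α) (a b : α) (h : ℕ) (G : SimpleGraph (Fin n))
    (f : α → Fin n) : ℚ :=
  ∑ z ∈ Lv X a b h, ((dg G (f z) : ℚ) - dg X z)

theorem loc_Ex [NeZero n] (X : SimpleGraph α) (a b : α) (h : ℕ) :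
    Loc n α 1 (fun G f => Ex X a b h G f) := by
  unfold Ex
  refine Loc.sum _ ?_
  intro z _
  exact (loc_dg z).sub (loc_const 1 _)

theorem Ex_nonneg {X : SimpleGraph α} {a b : α} {h : ℕ} {G : SimpleGraph (Fin n)}
    {f : α → Fin n} (hf : Emb X G f) : 0 ≤ Ex X a b h G f := by
  refine Finset.sum_nonneg ?_
  intro z _
  have := dg_le_of_emb hf z
  have h2 : (dg X z : ℚ) ≤ dg G (f z) := by exact_mod_cast this
  linarith

theorem Ex_eq_zero_iff {X : SimpleGraph α} {a b : α} {h : ℕ} {G : SimpleGraph (Fin n)}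
    {f : α → Fin n} (hf : Emb X G f) :
    Ex X a b h G f = 0 ↔ ∀ z ∈ Lv X a b h, dg G (f z) = dg X z := by
  unfold Ex
  rw [Finset.sum_eq_zero_iff_of_nonneg]
  · refine forall₂_congr fun z _ => ?_
    rw [sub_eq_zero]
    exact_mod_cast Iff.rfl
  · intro z _
    have := dg_le_of_emb hf z
    have h2 : (dg X z : ℚ) ≤ dg G (f z) := by exact_mod_cast this
    linarith

theorem Ex_zero {X : SimpleGraph α} {a b : α} {G : SimpleGraph (Fin n)}
    {f : α → Fin n} : Ex X a b 0 G f = 0 := by
  unfold Ex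
  rw [Lv_zero]
  simp

/-- The level lemma, first part: the levels up to the first excess agree. -/
theorem level_image {T : SimpleGraph (Fin n)} (hT : T.IsTree) {X : SimpleGraph α}
    (hX : X.IsTree) {f : α → Fin n} (hf : Emb X T f) {a b : α} (hab : X.Adj a b) {h : ℕ}
    (h0 : ∀ k < h, Ex X a b k T f = 0) :
    ∀ k ≤ h, (Lv X a b k).image f = Lv T (f a) (f b) k := by
  intro k
  induction k with
  | zero => intro _; simp [Lv_zero]
  | succ k ih =>
    intro hk
    have ihk := ih (by omega)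
    rcases Nat.eq_zero_or_pos k with rfl | hkpos
    · simp only [zero_add]
      rw [Lv_one hX hab, Lv_one hT (hf.2 _ _ hab)]
      simp
    · have hE : Ex X a b k T f = 0 := h0 k (by omega)
      rw [Ex_eq_zero_iff hf] at hE
      have c1 := card_Lv_succ hX hab hkpos
      have c2 := card_Lv_succ hT (hf.2 _ _ hab) hkpos
      rw [← ihk, Finset.sum_image (fun x _ y _ hxy => hf.1 hxy),
        Finset.sum_congr rfl hE, Finset.card_image_of_injective _ hf.1] at c2
      have hcard : (Lv T (f a) (f b) (k + 1)).card = (Lv X a b (k + 1)).card := by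
        change _ = ∑ u ∈ Lv X a b k, dg X u at c2
        omega
      refine Finset.eq_of_subset_of_card_le ?_ ?_
      · intro u hu
        rw [Finset.mem_image] at hu
        obtain ⟨z, hz, rfl⟩ := hu
        rw [mem_Lv] at hz ⊢
        refine ⟨(mem_Br_emb hX.connected hT hf a b z).2 hz.1, ?_⟩
        rw [dist_emb hX.connected hT hf]
        exact hz.2
      · rw [hcard, Finset.card_image_of_injective _ hf.1]

/-- The level lemma, second part: the size of the next level. -/
theorem level_card {T : SimpleGraph (Fin n)} (hT : T.IsTree) {X : SimpleGraph α}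
    (hX : X.IsTree) {f : α → Fin n} (hf : Emb X T f) {a b : α} (hab : X.Adj a b) {h : ℕ}
    (hh : 1 ≤ h) (h0 : ∀ k < h, Ex X a b k T f = 0) :
    ((Lv T (f a) (f b) (h + 1)).card : ℚ) = (Lv X a b (h + 1)).card + Ex X a b h T f := by
  have him := level_image hT hX hf hab h0 h le_rfl
  have c1 := card_Lv_succ hX hab hh
  have c2 := card_Lv_succ hT (hf.2 _ _ hab) hh
  rw [← him, Finset.sum_image (fun x _ y _ hxy => hf.1 hxy),
    Finset.card_image_of_injective _ hf.1] at c2
  have c1' : ((Lv X a b (h + 1)).card : ℚ) + (Lv X a b h).card = ∑ u ∈ Lv X a b h, (dg X u : ℚ) := by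
    exact_mod_cast c1
  have c2' : ((Lv T (f a) (f b) (h + 1)).card : ℚ) + (Lv X a b h).card =
      ∑ u ∈ Lv X a b h, (dg T (f u) : ℚ) := by
    exact_mod_cast c2
  unfold Ex
  rw [Finset.sum_sub_distrib]
  linarith

/-- Selection of a branch of small height with at least `F₀` vertices. -/
theorem exists_sel {X : SimpleGraph α} {r x : α} (hX : Planted X r x) {F₀ : ℕ}
    (hF : 1 ≤ F₀) : ∃ a b, X.Adj a b ∧ r ∉ Br X a b ∧ (∀ z ∈ Br X a b, X.dist a z ≤ F₀) ∧
      ((a = r ∧ b = x) ∨ F₀ ≤ (Br X a b).card) := by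
  have hrx : X.Adj r x := (hX.2 x).2 rfl
  let Q : ℕ → Prop := fun m => ∃ a b, X.Adj a b ∧ r ∉ Br X a b ∧
    ((a = r ∧ b = x) ∨ F₀ ≤ (Br X a b).card) ∧ (Br X a b).card = m
  have hQ : ∃ m, Q m := ⟨_, r, x, hrx, left_notMem_Br, Or.inl ⟨rfl, rfl⟩, rfl⟩
  obtain ⟨a, b, hab, hr, hor, hm⟩ := Nat.find_spec hQ
  refine ⟨a, b, hab, hr, ?_, hor⟩
  intro z hz
  by_contra hlt
  push Not at hlt
  have hz1 := (mem_Br_iff hX.1 hab).1 hz
  have hzb : z ≠ b := by
    rintro rfl
    rw [SimpleGraph.dist_self] at hz1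
    omega
  obtain ⟨w, hbw, hw⟩ := exists_closer hX.1.connected hzb
  rw [SimpleGraph.dist_comm, SimpleGraph.dist_comm (u := z) (v := b)] at hw
  have hwa : w ≠ a := by
    rintro rfl
    omega
  have hwBr : w ∈ Br X a b := by
    rcases br_closed hX.1 hab (right_mem_Br hab) hbw with h | h
    · exact h
    · exact absurd h hwa
  have hzw : z ∈ Br X b w := by
    rw [mem_Br]
    omega
  have hsub : Br X b w ⊆ Br X a b := by
    intro u hu
    by_contra hu'
    have h1 := sep hX.1 hab hwBr hu'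
    rw [mem_Br] at hu
    have h2 := (notMem_Br_iff hX.1 hab).1 hu'
    have h3 : X.dist w b = 1 := SimpleGraph.dist_eq_one_iff_adj.2 hbw.symm
    omega
  have hlt2 : (Br X b w).card < (Br X a b).card := by
    refine Finset.card_lt_card ⟨hsub, fun h => ?_⟩
    exact left_notMem_Br (h (right_mem_Br hab))
  have hge : F₀ ≤ (Br X b w).card := by
    have := dist_le_card_Br hX.1 hbw hzw
    omega
  have := Nat.find_min' hQ ⟨b, w, hbw, fun h => hr (hsub h), Or.inr hge, rfl⟩
  omega

/-- The vertices behind an embedding. -/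
noncomputable def BW {V : Type} (r : α) {q : ℕ} (f : α → V) (y : Fin q → V) : Finset V :=
  insert (f r) (univ.image y)

omit [Fintype α] in
theorem mem_BW {V : Type} {r : α} {q : ℕ} {f : α → V} {y : Fin q → V} {w : V} :
    w ∈ BW r f y ↔ w = f r ∨ ∃ j, y j = w := by
  unfold BW
  rw [Finset.mem_insert, Finset.mem_image]
  simp

omit [Fintype α] in
theorem card_BW {V : Type} {r : α} {q : ℕ} {G : SimpleGraph V} {f : α → V} {y : Fin q → V}
    (h : Beh r q G f y) : (BW r f y).card = q + 1 := by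
  unfold BW
  rw [Finset.card_insert_of_notMem, Finset.card_image_of_injective]
  · simp
  · intro i j hij
    have := h.1 (a₁ := Sum.inr i) (a₂ := Sum.inr j) (by simpa using hij)
    simpa using this
  · rw [Finset.mem_image]
    rintro ⟨i, _, hi⟩
    have := h.1 (a₁ := Sum.inr i) (a₂ := Sum.inl r) (by simpa using hi)
    simp at this

theorem BW_notMem {T : SimpleGraph (Fin n)} (hT : T.IsTree) {X : SimpleGraph α}
    (hX : X.Connected) {r a b : α} (hab : X.Adj a b) (hr : r ∉ Br X a b) {q : ℕ}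
    {f : α → Fin n} {y : Fin q → Fin n} (hf : Emb X T f) (hy : Beh r q T f y) :
    ∀ w ∈ BW r f y, w ∉ Br T (f a) (f b) := by
  have hfr : f r ∉ Br T (f a) (f b) := by
    rw [mem_Br_emb hX hT hf]
    exact hr
  have hne : ∀ j, y j ≠ f b := by
    intro j hj
    have := hy.1 (a₁ := Sum.inr j) (a₂ := Sum.inl b) (by simpa using hj)
    simp at this
  have key : ∀ j, y j ∉ Br T (f a) (f b) := by
    intro j
    induction j using WellFoundedLT.induction with
    | ind j ih =>
      intro hmem
      rcases hy.2 j with h | ⟨i, hi, h⟩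
      · exact hne j (crossing hT (hf.2 _ _ hab) hmem hfr h.symm).1
      · exact hne j (crossing hT (hf.2 _ _ hab) hmem (ih i hi) h.symm).1
  intro w hw
  rw [mem_BW] at hw
  rcases hw with rfl | ⟨j, rfl⟩
  · exact hfr
  · exact key j

/-- Distinct positive integers have a large sum. -/
theorem sum_distinct (S : Finset ℕ) (h : ∀ s ∈ S, 0 < s) : S.card ^ 2 ≤ 2 * ∑ s ∈ S, s := by
  induction S using Finset.induction_on_max with
  | empty => simp
  | insert a s hlt ih =>
    have ha : a ∉ s := fun h => lt_irrefl _ (hlt a h)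
    rw [Finset.card_insert_of_notMem ha, Finset.sum_insert ha]
    have ih' := ih (fun s hs => h s (Finset.mem_insert_of_mem hs))
    have hcard : s.card + 1 ≤ a := by
      have hsub : s ⊆ Finset.Ico 1 a := by
        intro t ht
        rw [Finset.mem_Ico]
        exact ⟨h t (Finset.mem_insert_of_mem ht), hlt t ht⟩
      have h1 := Finset.card_le_card hsub
      have h2 := h a (Finset.mem_insert_self _ _)
      rw [Nat.card_Ico] at h1
      omega
    nlinarith

/-- Values of the first excess, at level `h` of the selected branch. -/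
noncomputable def S1 (T : SimpleGraph (Fin n)) (X : SimpleGraph α) (r a b : α) (q h : ℕ) :
    Finset ℕ :=
  (Finset.range (n + 1)).filter (fun s => 0 < s ∧ ∃ f : α → Fin n, ∃ y : Fin q → Fin n,
    Emb X T f ∧ Beh r q T f y ∧ (∀ k < h, Ex X a b k T f = 0) ∧ Ex X a b h T f = s)

theorem card_S1 {T : SimpleGraph (Fin n)} (hT : T.IsTree) {X : SimpleGraph α} (hX : X.IsTree)
    {r a b : α} (hab : X.Adj a b) (hr : r ∉ Br X a b) {q h : ℕ} (hh : 1 ≤ h) :
    (S1 T X r a b q h).card ≤ Nat.sqrt (2 * n ^ 2 / (q + 1)) := by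
  set S := S1 T X r a b q h with hS
  have hmem : ∀ s ∈ S, 0 < s ∧ ∃ f : α → Fin n, ∃ y : Fin q → Fin n,
      Emb X T f ∧ Beh r q T f y ∧ (∀ k < h, Ex X a b k T f = 0) ∧ Ex X a b h T f = s := by
    intro s hs
    rw [hS, S1, Finset.mem_filter] at hs
    exact hs.2
  have hpos : ∀ s ∈ S, 0 < s := fun s hs => (hmem s hs).1
  have hex : ∀ s : ℕ, ∃ p : (α → Fin n) × (Fin q → Fin n), s ∈ S →
      Emb X T p.1 ∧ Beh r q T p.1 p.2 ∧ (∀ k < h, Ex X a b k T p.1 = 0) ∧
        Ex X a b h T p.1 = s := by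
    intro s
    by_cases hs : s ∈ S
    · obtain ⟨f, y, h1⟩ := (hmem s hs).2
      exact ⟨(f, y), fun _ => h1⟩
    · by_cases hne : Nonempty ((α → Fin n) × (Fin q → Fin n))
      · obtain ⟨p⟩ := hne
        exact ⟨p, fun h => absurd h hs⟩
      · exfalso
        obtain ⟨v⟩ := hT.connected.nonempty
        exact hne ⟨(fun _ => v, fun _ => v)⟩
  choose p hp using hex
  have hA : ∀ s ∈ S, ((Lv T ((p s).1 a) ((p s).1 b) (h + 1)).card : ℚ) =
      (Lv X a b (h + 1)).card + s := by
    intro s hs
    obtain ⟨h1, _, h3, h4⟩ := hp s hs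
    rw [level_card hT hX h1 hab hh h3, h4]
  have hcount := card_prod_le (V := Fin n) S
    (fun s => Lv T ((p s).1 a) ((p s).1 b) (h + 1)) (fun s => BW r (p s).1 (p s).2) (by
      intro s hs s' hs' u w hu hw hu' hw'
      obtain ⟨h1, h2, h3, h4⟩ := hp s hs
      obtain ⟨h1', h2', h3', h4'⟩ := hp s' hs'
      have e := edge_unique_of_dist hT (h1.2 _ _ hab) (h1'.2 _ _ hab) (mem_Lv.1 hu).1
        (BW_notMem hT hX.connected hab hr h1 h2 w hw) (mem_Lv.1 hu').1
        (BW_notMem hT hX.connected hab hr h1' h2' w hw') (by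
          rw [SimpleGraph.dist_comm, (mem_Lv.1 hu).2, SimpleGraph.dist_comm, (mem_Lv.1 hu').2])
      have e1 := hA s hs
      have e2 := hA s' hs'
      rw [← e.1, ← e.2] at e2
      have : (s : ℚ) = s' := by linarith
      exact_mod_cast this)
  have hle : ∑ s ∈ S, s * (q + 1) ≤ n ^ 2 := by
    refine le_trans (Finset.sum_le_sum ?_) (le_trans hcount (by simp))
    intro s hs
    obtain ⟨h1, h2, h3, h4⟩ := hp s hs
    rw [card_BW h2]
    refine Nat.mul_le_mul_right _ ?_
    have e1 := hA s hs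
    have : (s : ℚ) ≤ (Lv T ((p s).1 a) ((p s).1 b) (h + 1)).card := by
      rw [e1]
      have : (0 : ℚ) ≤ (Lv X a b (h + 1)).card := by positivity
      linarith
    exact_mod_cast this
  rw [← Finset.sum_mul] at hle
  have hsq := sum_distinct S hpos
  rw [Nat.le_sqrt', Nat.le_div_iff_mul_le (by omega)]
  nlinarith

/-- Pairs (level, value) of the first excess, once the selected branch is closed. -/
noncomputable def S0 (T : SimpleGraph (Fin n)) (X : SimpleGraph α) (r x a b : α) (q : ℕ) :
    Finset (ℕ × ℕ) :=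
  (Finset.range (n + 1) ×ˢ Finset.range (n + 1)).filter (fun s => 0 < s.2 ∧
    ∃ f : α → Fin n, ∃ y : Fin q → Fin n,
    Emb X T f ∧ Beh r q T f y ∧ (∀ k, Ex X a b k T f = 0) ∧ (∀ k < s.1, Ex X r x k T f = 0) ∧
      Ex X r x s.1 T f = s.2)

theorem image_Br {T : SimpleGraph (Fin n)} (hT : T.IsTree) {X : SimpleGraph α} (hX : X.IsTree)
    {f : α → Fin n} (hf : Emb X T f) {a b : α} (hab : X.Adj a b)
    (h0 : ∀ k, Ex X a b k T f = 0) : (Br X a b).image f = Br T (f a) (f b) := by
  ext u
  rw [Finset.mem_image]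
  constructor
  · rintro ⟨z, hz, rfl⟩
    exact (mem_Br_emb hX.connected hT hf a b z).2 hz
  · intro hu
    have h1 := level_image hT hX hf hab (h := T.dist (f a) u) (fun k _ => h0 k) _ le_rfl
    have h2 : u ∈ Lv T (f a) (f b) (T.dist (f a) u) := mem_Lv.2 ⟨hu, rfl⟩
    rw [← h1, Finset.mem_image] at h2
    obtain ⟨z, hz, rfl⟩ := h2
    exact ⟨z, (mem_Lv.1 hz).1, rfl⟩

theorem card_S0 {T : SimpleGraph (Fin n)} (hT : T.IsTree) {X : SimpleGraph α} {r x : α}
    (hX : Planted X r x) {a b : α} (hab : X.Adj a b) (hr : r ∉ Br X a b) {F₀ q : ℕ}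
    (hF : 1 ≤ F₀) (hor : (a = r ∧ b = x) ∨ F₀ ≤ (Br X a b).card) :
    (S0 T X r x a b q).card ≤ n ^ 2 / (F₀ * (q + 1)) := by
  have hrx : X.Adj r x := (hX.2 x).2 rfl
  set S := S0 T X r x a b q with hS
  have hmem : ∀ s ∈ S, 0 < s.2 ∧ ∃ f : α → Fin n, ∃ y : Fin q → Fin n,
      Emb X T f ∧ Beh r q T f y ∧ (∀ k, Ex X a b k T f = 0) ∧
        (∀ k < s.1, Ex X r x k T f = 0) ∧ Ex X r x s.1 T f = s.2 := by
    intro s hs
    rw [hS, S0, Finset.mem_filter] at hs
    exact hs.2
  rcases hor with ⟨rfl, rfl⟩ | hor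
  · have : S = ∅ := by
      rw [Finset.eq_empty_iff_forall_notMem]
      intro s hs
      obtain ⟨h0, f, y, _, _, h3, _, h5⟩ := hmem s hs
      rw [h3] at h5
      have : (s.2 : ℚ) ≠ 0 := by
        have := h0
        positivity
      exact this h5.symm
    rw [this]
    simp
  have hex : ∀ s : ℕ × ℕ, ∃ p : (α → Fin n) × (Fin q → Fin n), s ∈ S →
      Emb X T p.1 ∧ Beh r q T p.1 p.2 ∧ (∀ k, Ex X a b k T p.1 = 0) ∧
        (∀ k < s.1, Ex X r x k T p.1 = 0) ∧ Ex X r x s.1 T p.1 = s.2 := by
    intro s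
    by_cases hs : s ∈ S
    · obtain ⟨f, y, h1⟩ := (hmem s hs).2
      exact ⟨(f, y), fun _ => h1⟩
    · by_cases hne : Nonempty ((α → Fin n) × (Fin q → Fin n))
      · obtain ⟨p⟩ := hne
        exact ⟨p, fun h => absurd h hs⟩
      · exfalso
        obtain ⟨v⟩ := hT.connected.nonempty
        exact hne ⟨(fun _ => v, fun _ => v)⟩
  choose p hp using hex
  have hone : ∀ s ∈ S, 1 ≤ s.1 := by
    intro s hs
    obtain ⟨_, _, _, _, h5⟩ := hp s hs
    by_contra hlt
    have : s.1 = 0 := by omega
    rw [this, Ex_zero] at h5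
    have : (s.2 : ℚ) ≠ 0 := by
      have := (hmem s hs).1
      positivity
    exact this h5.symm
  have hA : ∀ s ∈ S, ∀ h, 1 ≤ h → h ≤ s.1 →
      ((Lv T ((p s).1 r) ((p s).1 x) (h + 1)).card : ℚ) =
      (Lv X r x (h + 1)).card + (if h = s.1 then (s.2 : ℚ) else 0) := by
    intro s hs h hh hle
    obtain ⟨h1, _, _, h4, h5⟩ := hp s hs
    rw [level_card hT hX.1 h1 hrx hh (fun k hk => h4 k (by omega))]
    split_ifs with hc
    · rw [hc, h5]
    · rw [h4 h (by omega)]
  have himg : ∀ s ∈ S, (Br X a b).image (p s).1 = Br T ((p s).1 a) ((p s).1 b) := by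
    intro s hs
    obtain ⟨h1, _, h3, _, _⟩ := hp s hs
    exact image_Br hT hX.1 h1 hab h3
  have hcount := card_prod_le (V := Fin n) S
    (fun s => Br T ((p s).1 a) ((p s).1 b)) (fun s => BW r (p s).1 (p s).2) (by
      intro s hs s' hs' u w hu hw hu' hw'
      obtain ⟨h1, h2, h3, h4, h5⟩ := hp s hs
      obtain ⟨h1', h2', h3', h4', h5'⟩ := hp s' hs'
      have e := edge_unique_of_card hT (h1.2 _ _ hab) (h1'.2 _ _ hab) hu
        (BW_notMem hT hX.1.connected hab hr h1 h2 w hw) hu'
        (BW_notMem hT hX.1.connected hab hr h1' h2' w hw') (by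
          rw [← himg s hs, ← himg s' hs', Finset.card_image_of_injective _ h1.1,
            Finset.card_image_of_injective _ h1'.1])
      have hfr : (p s).1 r ∉ Br T ((p s).1 a) ((p s).1 b) := by
        rw [mem_Br_emb hX.1.connected hT h1]
        exact hr
      have hfr' : (p s').1 r ∉ Br T ((p s').1 a) ((p s').1 b) := by
        rw [mem_Br_emb hX.1.connected hT h1']
        exact hr
      have d1 := sep hT (h1.2 _ _ hab) hu hfr
      have d2 := sep hT (h1'.2 _ _ hab) hu' hfr'
      rw [dist_emb hX.1.connected hT h1] at d1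
      rw [dist_emb hX.1.connected hT h1'] at d2
      have hin : ∀ s ∈ S, ∀ u, u ∈ Br T ((p s).1 a) ((p s).1 b) →
          u ∈ Br T ((p s).1 r) ((p s).1 x) := by
        intro s hs u hu
        rw [← himg s hs, Finset.mem_image] at hu
        obtain ⟨z, hz, rfl⟩ := hu
        rw [mem_Br_emb hX.1.connected hT (hp s hs).1, planted_Br hX, Finset.mem_erase]
        exact ⟨fun h => hr (h ▸ hz), Finset.mem_univ _⟩
      have hr0 : r ∉ Br X r x := left_notMem_Br
      have e' := edge_unique_of_dist hT (h1.2 _ _ hrx) (h1'.2 _ _ hrx) (hin s hs u hu)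
        (BW_notMem hT hX.1.connected hrx hr0 h1 h2 w hw) (hin s' hs' u hu')
        (BW_notMem hT hX.1.connected hrx hr0 h1' h2' w hw') (by
          rw [d1, d2, e.2])
      have hs2 : (s.2 : ℚ) ≠ 0 := by
        have := (hmem s hs).1
        positivity
      have hs2' : (s'.2 : ℚ) ≠ 0 := by
        have := (hmem s' hs').1
        positivity
      rcases lt_trichotomy s.1 s'.1 with hlt | heq | hlt
      · have a1 := hA s hs s.1 (hone s hs) le_rfl
        have a2 := hA s' hs' s.1 (hone s hs) hlt.le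
        rw [e'.1, e'.2, a2, if_pos rfl, if_neg (by omega)] at a1
        exfalso
        apply hs2
        linarith
      · have a1 := hA s hs s.1 (hone s hs) le_rfl
        have a2 := hA s' hs' s.1 (hone s hs) heq.le
        rw [e'.1, e'.2, a2, if_pos rfl, if_pos heq] at a1
        have : (s.2 : ℚ) = s'.2 := by linarith
        exact Prod.ext heq (by exact_mod_cast this)
      · have a1 := hA s hs s'.1 (hone s' hs') hlt.le
        have a2 := hA s' hs' s'.1 (hone s' hs') le_rfl
        rw [e'.1, e'.2, a2, if_pos rfl, if_neg (by omega)] at a1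
        exfalso
        apply hs2'
        linarith)
  rw [Nat.le_div_iff_mul_le (by positivity)]
  refine le_trans ?_ (le_trans hcount (by simp))
  rw [← smul_eq_mul, ← Finset.sum_const]
  refine Finset.sum_le_sum ?_
  intro s hs
  obtain ⟨h1, h2, _⟩ := hp s hs
  rw [card_BW h2, ← himg s hs, Finset.card_image_of_injective _ h1.1]
  exact Nat.mul_le_mul_right _ hor

/-- The value of the first excess is a natural number at most `n`. -/
theorem Ex_nat {T : SimpleGraph (Fin n)} (hT : T.IsTree) {X : SimpleGraph α} (hX : X.IsTree)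
    {f : α → Fin n} (hf : Emb X T f) {a b : α} (hab : X.Adj a b) {h : ℕ} (hh : 1 ≤ h)
    (h0 : ∀ k < h, Ex X a b k T f = 0) : ∃ s : ℕ, s ≤ n ∧ Ex X a b h T f = s := by
  have h1 := level_card hT hX hf hab hh h0
  have h2 : 0 ≤ Ex X a b h T f := Ex_nonneg hf
  have h3 : (Lv X a b (h + 1)).card ≤ (Lv T (f a) (f b) (h + 1)).card := by
    have : ((Lv X a b (h + 1)).card : ℚ) ≤ (Lv T (f a) (f b) (h + 1)).card := by linarith
    exact_mod_cast this
  refine ⟨(Lv T (f a) (f b) (h + 1)).card - (Lv X a b (h + 1)).card, ?_, ?_⟩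
  · have := Finset.card_le_univ (Lv T (f a) (f b) (h + 1))
    rw [Fintype.card_fin] at this
    omega
  · rw [Nat.cast_sub h3]
    linarith

/-- First nonzero excess. -/
theorem first_excess {X : SimpleGraph α} {a b : α} {T : SimpleGraph (Fin n)} {f : α → Fin n}
    (h : ¬ ∀ k, Ex X a b k T f = 0) :
    ∃ k, 1 ≤ k ∧ (∀ j < k, Ex X a b j T f = 0) ∧ Ex X a b k T f ≠ 0 := by
  push Not at h
  refine ⟨Nat.find h, ?_, ?_, Nat.find_spec h⟩
  · by_contra hlt
    have h0 : Nat.find h = 0 := by omega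
    have := Nat.find_spec h
    rw [h0, Ex_zero] at this
    exact this rfl
  · intro j hj
    have := Nat.find_min h hj
    push Not at this
    exact this

/-- Existence of the test polynomial. -/
theorem exists_test {T : SimpleGraph (Fin n)} (hT : T.IsTree) {X : SimpleGraph α} {r x : α}
    (hX : Planted X r x) (q F₀ : ℕ) (hF : 1 ≤ F₀) :
    ∃ I : SimpleGraph (Fin n) → (α → Fin n) → ℚ, Loc n α (cost n q F₀) I ∧
      (∀ G f, Cl X r G f → I G f = 1) ∧
      (∀ f y, Emb X T f → Beh r q T f y → ¬ Cl X r T f → I T f = 0) := by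
  have : NeZero n := by
    obtain ⟨v⟩ := hT.connected.nonempty
    exact ⟨fun h => by subst h; exact v.elim0⟩
  have hrx : X.Adj r x := (hX.2 x).2 rfl
  obtain ⟨a, b, hab, hr, hheight, hor⟩ := exists_sel hX hF
  refine ⟨fun G f => (∏ h ∈ Finset.Icc 1 F₀, ∏ s ∈ S1 T X r a b q h,
    (1 - (s : ℚ)⁻¹ * Ex X a b h G f)) *
    ∏ p ∈ S0 T X r x a b q, (1 - (p.2 : ℚ)⁻¹ * Ex X r x p.1 G f), ?_, ?_, ?_⟩
  · have hm : Nat.sqrt (2 * n ^ 2 / (q + 1)) = Nat.sqrt (2 * n ^ 2 / (q + 1)) := rfl
    refine Loc.mono (s := (Finset.Icc 1 F₀).card * Nat.sqrt (2 * n ^ 2 / (q + 1)) +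
      (S0 T X r x a b q).card * 1) (Loc.mul ?_ ?_) ?_
    · refine Loc.prod _ ?_
      intro h hh
      rw [Finset.mem_Icc] at hh
      refine Loc.mono (s := (S1 T X r a b q h).card * 1) (Loc.prod _ ?_) ?_
      · intro s _
        exact (loc_const 1 1).sub ((loc_Ex X a b h).smul _)
      · rw [mul_one]
        exact card_S1 hT hX.1 hab hr hh.1
    · refine Loc.prod _ ?_
      intro p _
      exact (loc_const 1 1).sub ((loc_Ex X r x p.1).smul _)
    · unfold cost
      rw [Nat.card_Icc, mul_one]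
      have := card_S0 (q := q) hT hX hab hr hF hor
      have h2 : F₀ + 1 - 1 = F₀ := by omega
      rw [h2]
      omega
  · intro G f hf
    have hdg := (cl_iff_dg.1 hf).2
    have e1 : ∀ h, Ex X a b h G f = 0 := by
      intro h
      rw [Ex_eq_zero_iff hf.1]
      intro z hz
      exact hdg z (fun h => hr (h ▸ (mem_Lv.1 hz).1))
    have e2 : ∀ h, Ex X r x h G f = 0 := by
      intro h
      rw [Ex_eq_zero_iff hf.1]
      intro z hz
      exact hdg z (fun h => left_notMem_Br (h ▸ (mem_Lv.1 hz).1))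
    simp [e1, e2]
  · intro f y hf hy hncl
    by_cases hD : ∀ k, Ex X a b k T f = 0
    · have h2 : ¬ ∀ k, Ex X r x k T f = 0 := by
        intro hall
        apply hncl
        rw [cl_iff_dg]
        refine ⟨hf, fun z hz => ?_⟩
        have := (Ex_eq_zero_iff hf).1 (hall (X.dist r z)) z (by
          rw [mem_Lv, planted_Br hX, Finset.mem_erase]
          exact ⟨⟨hz, Finset.mem_univ _⟩, rfl⟩)
        exact this
      obtain ⟨k, hk1, hk2, hk3⟩ := first_excess h2
      obtain ⟨s, hs1, hs2⟩ := Ex_nat hT hX.1 hf hrx hk1 hk2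
      have hs0 : s ≠ 0 := by
        rintro rfl
        rw [hs2] at hk3
        simp at hk3
      have hkn : k ≤ n := by
        have hne : (Lv X r x k).Nonempty := by
          rw [Finset.nonempty_iff_ne_empty]
          intro he
          apply hk3
          unfold Ex
          rw [he]
          simp
        obtain ⟨z, hz⟩ := hne
        rw [mem_Lv] at hz
        have h1 := dist_le_card_Br hX.1 hrx hz.1
        have h3 := Finset.card_le_univ (Br X r x)
        have h4 := Fintype.card_le_of_injective f hf.1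
        rw [Fintype.card_fin] at h4
        omega
      have hmem : (k, s) ∈ S0 T X r x a b q := by
        unfold S0
        rw [Finset.mem_filter, Finset.mem_product, Finset.mem_range, Finset.mem_range]
        refine ⟨⟨by simp only; omega, by simp only; omega⟩, Nat.pos_of_ne_zero hs0, f, y, hf, hy,
          hD, hk2, hs2⟩
      refine mul_eq_zero_of_right _ (Finset.prod_eq_zero hmem ?_)
      simp only
      rw [hs2]
      have : (s : ℚ) ≠ 0 := by exact_mod_cast hs0
      field_simp
      simp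
    · obtain ⟨k, hk1, hk2, hk3⟩ := first_excess hD
      obtain ⟨s, hs1, hs2⟩ := Ex_nat hT hX.1 hf hab hk1 hk2
      have hs0 : s ≠ 0 := by
        rintro rfl
        rw [hs2] at hk3
        simp at hk3
      have hkn : k ≤ F₀ := by
        have hne : (Lv X a b k).Nonempty := by
          rw [Finset.nonempty_iff_ne_empty]
          intro he
          apply hk3
          unfold Ex
          rw [he]
          simp
        obtain ⟨z, hz⟩ := hne
        rw [mem_Lv] at hz
        have := hheight z hz.1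
        omega
      have hmem : s ∈ S1 T X r a b q k := by
        unfold S1
        rw [Finset.mem_filter, Finset.mem_range]
        exact ⟨by omega, Nat.pos_of_ne_zero hs0, f, y, hf, hy, hk2, hs2⟩
      refine mul_eq_zero_of_left (Finset.prod_eq_zero (Finset.mem_Icc.2 ⟨hk1, hkn⟩)
        (Finset.prod_eq_zero hmem ?_)) _
      rw [hs2]
      have : (s : ℚ) ≠ 0 := by exact_mod_cast hs0
      field_simp
      simp

end Pool.Agent.H64.TD
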