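import Pool.Agent.H64.TD.Defs

set_option autoImplicit false

/-!
Module TreeA: distances, branches and levels in trees.
-/

namespace Pool.Agent.H64.TD

open Finset Classical

variable {V : Type} {T : SimpleGraph V}

/-- In a connected graph, a vertex different from `u` has a neighbour closer to `u`. -/
theorem exists_closer (hT : T.Connected) {u w : V} (h : u ≠ w) :
    ∃ v, T.Adj w v ∧ T.dist u v + 1 = T.dist u w := by
  obtain ⟨p, hp⟩ := hT.exists_walk_length_eq_dist w u
  cases p with
  | nil => exact absurd rfl h
  | cons hadj q =>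
    rename_i v
    refine ⟨v, hadj, ?_⟩
    have h1 : T.dist v u ≤ q.length := SimpleGraph.dist_le q
    have h2 : q.length + 1 = T.dist w u := by
      simpa using hp
    have h3 : T.dist w u ≤ T.dist w v + T.dist v u := hT.dist_triangle
    have h4 : T.dist w v = 1 := SimpleGraph.dist_eq_one_iff_adj.mpr hadj
    rw [SimpleGraph.dist_comm (u := u) (v := v), SimpleGraph.dist_comm (u := u) (v := w)]
    omega

/-- In a tree, this neighbour is unique. -/
theorem closer_unique (hT : T.IsTree) {u w v v' : V} (h1 : T.Adj w v) (h2 : T.Adj w v')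
    (d1 : T.dist u v + 1 = T.dist u w) (d2 : T.dist u v' + 1 = T.dist u w) : v = v' := by
  obtain ⟨p, hp⟩ := hT.connected.exists_walk_length_eq_dist v u
  obtain ⟨p', hp'⟩ := hT.connected.exists_walk_length_eq_dist v' u
  have e1 : (SimpleGraph.Walk.cons h1 p).length = T.dist w u := by
    simp only [SimpleGraph.Walk.length_cons]
    rw [hp, SimpleGraph.dist_comm (u := v), d1, SimpleGraph.dist_comm]
  have e2 : (SimpleGraph.Walk.cons h2 p').length = T.dist w u := by
    simp only [SimpleGraph.Walk.length_cons]
    rw [hp', SimpleGraph.dist_comm (u := v'), d2, SimpleGraph.dist_comm]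
  have q1 := SimpleGraph.Walk.isPath_of_length_eq_dist _ e1
  have q2 := SimpleGraph.Walk.isPath_of_length_eq_dist _ e2
  have := (hT.isAcyclic.subsingleton_path w u).elim ⟨_, q1⟩ ⟨_, q2⟩
  have h3 : SimpleGraph.Walk.cons h1 p = SimpleGraph.Walk.cons h2 p' := congrArg Subtype.val this
  have h4 := congrArg SimpleGraph.Walk.snd h3
  simpa using h4

/-- Uniqueness of the vertex of the geodesic from `u` to `w` at a given distance of `u`. -/
theorem geo_unique (hT : T.IsTree) {u w a a' : V} (h : T.dist u a = T.dist u a')
    (h1 : T.dist u a + T.dist a w = T.dist u w) (h2 : T.dist u a' + T.dist a' w = T.dist u w) :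
    a = a' := by
  -- induction on the distance from `a` to `w`
  have key : ∀ k : ℕ, ∀ w a a' : V, T.dist a w = k → T.dist u a = T.dist u a' →
      T.dist u a + T.dist a w = T.dist u w → T.dist u a' + T.dist a' w = T.dist u w →
      a = a' := by
    intro k
    induction k with
    | zero =>
      intro w a a' hk h h1 h2
      have e1 : a = w := (hT.connected.dist_eq_zero_iff).mp hk
      have e2 : T.dist a' w = 0 := by omega
      have e3 : a' = w := (hT.connected.dist_eq_zero_iff).mp e2
      rw [e1, e3]
    | succ k ih =>
      intro w a a' hk h h1 h2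
      have hne : a ≠ w := by
        rintro rfl
        simp at hk
      have hne' : a' ≠ w := by
        rintro rfl
        simp at h2
        omega
      obtain ⟨v, hv, dv⟩ := exists_closer hT.connected hne
      obtain ⟨v', hv', dv'⟩ := exists_closer hT.connected hne'
      have t1 : T.dist u v ≤ T.dist u a + T.dist a v := hT.connected.dist_triangle
      have t2 : T.dist u v' ≤ T.dist u a' + T.dist a' v' := hT.connected.dist_triangle
      have s1 : T.dist w v = 1 := SimpleGraph.dist_eq_one_iff_adj.mpr hv
      have s2 : T.dist w v' = 1 := SimpleGraph.dist_eq_one_iff_adj.mpr hv'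
      have t3 : T.dist u w ≤ T.dist u v + T.dist v w := hT.connected.dist_triangle
      have t4 : T.dist u w ≤ T.dist u v' + T.dist v' w := hT.connected.dist_triangle
      rw [SimpleGraph.dist_comm] at s1 s2
      have hvv : v = v' := closer_unique hT (u := u) hv hv' (by omega) (by omega)
      subst hvv
      exact ih v a a' (by omega) h (by omega) (by omega)
  exact key _ w a a' rfl h h1 h2

/-- Injective homomorphisms from a connected graph to a tree preserve distances. -/
theorem dist_emb {α : Type} {X : SimpleGraph α} (hX : X.Connected) (hT : T.IsTree) {f : α → V}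
    (hf : Emb X T f) (u v : α) : T.dist (f u) (f v) = X.dist u v := by
  obtain ⟨p, hp, hl⟩ := hX.exists_path_of_dist u v
  let φ : X →g T := ⟨f, fun {a b} h => hf.2 a b h⟩
  obtain ⟨q, hq, hql⟩ := hT.connected.exists_path_of_dist (f u) (f v)
  have hpm : (p.map φ).IsPath := hp.map (f := φ) hf.1
  have := (hT.isAcyclic.subsingleton_path (f u) (f v)).elim ⟨q, hq⟩ ⟨p.map φ, hpm⟩
  have h3 : q = p.map φ := congrArg Subtype.val this
  have h4 := congrArg SimpleGraph.Walk.length h3
  rw [SimpleGraph.Walk.length_map, hl, hql] at h4
  exact h4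

/-- Injective homomorphisms from a connected graph to a tree reflect adjacency. -/
theorem adj_of_emb {α : Type} {X : SimpleGraph α} (hX : X.Connected) (hT : T.IsTree) {f : α → V}
    (hf : Emb X T f) {u v : α} (h : T.Adj (f u) (f v)) : X.Adj u v := by
  have h1 : T.dist (f u) (f v) = 1 := SimpleGraph.dist_eq_one_iff_adj.mpr h
  rw [dist_emb hX hT hf] at h1
  exact SimpleGraph.dist_eq_one_iff_adj.mp h1

variable [Fintype V]

theorem mem_Br {a b u : V} : u ∈ Br T a b ↔ T.dist b u < T.dist a u := by
  simp [Br]

omit [Fintype V] in
theorem h65_adj_cases (hT : T.IsTree) {a b : V} (hab : T.Adj a b) (u : V) :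
    T.dist a u = T.dist b u + 1 ∨ T.dist b u = T.dist a u + 1 := by
  have := hT.dist_eq_dist_add_one_of_adj u hab
  rwa [SimpleGraph.dist_comm (u := u) (v := a), SimpleGraph.dist_comm (u := u) (v := b)] at this

theorem mem_Br_iff (hT : T.IsTree) {a b : V} (hab : T.Adj a b) {u : V} :
    u ∈ Br T a b ↔ T.dist a u = T.dist b u + 1 := by
  rw [mem_Br]
  rcases h65_adj_cases hT hab u with h | h <;> omega

theorem notMem_Br_iff (hT : T.IsTree) {a b : V} (hab : T.Adj a b) {u : V} :
    u ∉ Br T a b ↔ T.dist b u = T.dist a u + 1 := by
  rw [mem_Br]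
  rcases h65_adj_cases hT hab u with h | h <;> omega

theorem mem_Br_swap (hT : T.IsTree) {a b : V} (hab : T.Adj a b) {u : V} :
    u ∈ Br T b a ↔ u ∉ Br T a b := by
  rw [mem_Br, mem_Br]
  rcases h65_adj_cases hT hab u with h | h <;> omega

theorem card_Br_add (hT : T.IsTree) {a b : V} (hab : T.Adj a b) :
    (Br T a b).card + (Br T b a).card = Fintype.card V := by
  have h : Br T b a = (Br T a b)ᶜ := by
    ext u
    rw [mem_Br_swap hT hab, Finset.mem_compl]
  rw [h, Finset.card_add_card_compl]

theorem right_mem_Br {a b : V} (hab : T.Adj a b) : b ∈ Br T a b := by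
  rw [mem_Br, SimpleGraph.dist_self, SimpleGraph.dist_eq_one_iff_adj.mpr hab]
  exact Nat.one_pos

theorem left_notMem_Br {a b : V} : a ∉ Br T a b := by
  rw [mem_Br, SimpleGraph.dist_self]
  exact Nat.not_lt_zero _

/-- Separation of the two sides of an edge. -/
theorem sep (hT : T.IsTree) {a b : V} (hab : T.Adj a b) {u w : V} (hu : u ∈ Br T a b)
    (hw : w ∉ Br T a b) : T.dist u w = T.dist u b + 1 + T.dist a w := by
  -- induction on the distance from `a` to `w`, for all `w` outside of the branch
  have key : ∀ k : ℕ, ∀ w : V, T.dist a w = k → w ∉ Br T a b →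
      T.dist u w = T.dist u b + 1 + T.dist a w := by
    intro k
    induction k using Nat.strong_induction_on with
    | _ k ih =>
      intro w hk hw
      by_cases haw : a = w
      · subst haw
        rw [SimpleGraph.dist_self]
        have := (mem_Br_iff hT hab).mp hu
        rw [SimpleGraph.dist_comm (u := u) (v := a), SimpleGraph.dist_comm (u := u) (v := b)]
        omega
      · obtain ⟨v, hv, dv⟩ := exists_closer hT.connected haw
        have hwb := (notMem_Br_iff hT hab).mp hw
        have s1 : T.dist v w = 1 := SimpleGraph.dist_eq_one_iff_adj.mpr hv.symm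
        have t1 : T.dist b w ≤ T.dist b v + T.dist v w := hT.connected.dist_triangle
        have hvB : v ∉ Br T a b := by
          rw [notMem_Br_iff hT hab]
          rcases h65_adj_cases hT hab v with h | h <;> omega
        have iv := ih (T.dist a v) (by omega) v rfl hvB
        -- distance from u to w is dist u v ± 1; exclude the minus case
        rcases hT.dist_eq_dist_add_one_of_adj u hv with h | h
        · omega
        · exfalso
          -- then w is closer to u than v; if v ≠ a, the closer neighbour of v to a ... 
          -- w is the unique closer neighbour of v towards u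
          by_cases hva : a = v
          · subst hva
            -- closer neighbour of a towards u is b, and w too
            have hab' := (mem_Br_iff hT hab).mp hu
            have : w = b := closer_unique hT (u := u) hv.symm hab (by omega) (by
              rw [SimpleGraph.dist_comm (u := u) (v := a), SimpleGraph.dist_comm (u := u) (v := b)]
              omega)
            subst this
            exact hw (right_mem_Br hab)
          · obtain ⟨v', hv', dv'⟩ := exists_closer hT.connected hva
            have s2 : T.dist v' v = 1 := SimpleGraph.dist_eq_one_iff_adj.mpr hv'.symm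
            have hvb := (notMem_Br_iff hT hab).mp hvB
            have t2 : T.dist b v ≤ T.dist b v' + T.dist v' v := hT.connected.dist_triangle
            have hvB' : v' ∉ Br T a b := by
              rw [notMem_Br_iff hT hab]
              rcases h65_adj_cases hT hab v' with h | h <;> omega
            have iv' := ih (T.dist a v') (by omega) v' rfl hvB'
            have : w = v' := closer_unique hT (u := u) hv.symm hv' (by omega) (by omega)
            subst this
            omega
  exact key _ w rfl hw

theorem crossing (hT : T.IsTree) {a b : V} (hab : T.Adj a b) {u w : V} (hu : u ∈ Br T a b)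
    (hw : w ∉ Br T a b) (huw : T.Adj u w) : u = b ∧ w = a := by
  have h := sep hT hab hu hw
  rw [SimpleGraph.dist_eq_one_iff_adj.mpr huw] at h
  have h1 : T.dist u b = 0 := by omega
  have h2 : T.dist a w = 0 := by omega
  exact ⟨(hT.connected.dist_eq_zero_iff).mp h1, ((hT.connected.dist_eq_zero_iff).mp h2).symm⟩

/-- The point `a` is on the geodesic from one side to the other. -/
theorem h65_on_geo (hT : T.IsTree) {a b : V} (hab : T.Adj a b) {u w : V} (hu : u ∈ Br T a b)
    (hw : w ∉ Br T a b) : T.dist u a + T.dist a w = T.dist u w ∧ T.dist u a = T.dist u b + 1 ∧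
      T.dist b w = T.dist a w + 1 := by
  have h := sep hT hab hu hw
  have h1 := (mem_Br_iff hT hab).mp hu
  have h2 := (notMem_Br_iff hT hab).mp hw
  rw [SimpleGraph.dist_comm (u := a) (v := u), SimpleGraph.dist_comm (u := b) (v := u)] at h1
  omega

/-- An edge separating `u` from `w` is determined by its distance from `u`. -/
theorem edge_unique_of_dist (hT : T.IsTree) {a b a' b' : V} (hab : T.Adj a b)
    (hab' : T.Adj a' b') {u w : V} (hu : u ∈ Br T a b) (hw : w ∉ Br T a b)
    (hu' : u ∈ Br T a' b') (hw' : w ∉ Br T a' b') (h : T.dist u a = T.dist u a') :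
    a = a' ∧ b = b' := by
  obtain ⟨g1, g2, g3⟩ := h65_on_geo hT hab hu hw
  obtain ⟨g1', g2', g3'⟩ := h65_on_geo hT hab' hu' hw'
  have e : a = a' := geo_unique hT h g1 g1'
  subst e
  exact ⟨rfl, closer_unique hT (u := u) hab hab' (by omega) (by omega)⟩

theorem h65_card_lt (hT : T.IsTree) {a b a' b' : V} (hab : T.Adj a b)
    (hab' : T.Adj a' b') {u w : V} (hu : u ∈ Br T a b) (hw : w ∉ Br T a b)
    (hu' : u ∈ Br T a' b') (hw' : w ∉ Br T a' b') (h : T.dist u a < T.dist u a') :
    (Br T a b).card < (Br T a' b').card := by
  obtain ⟨g1, g2, g3⟩ := h65_on_geo hT hab hu hw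
  obtain ⟨g1', g2', g3'⟩ := h65_on_geo hT hab' hu' hw'
  -- `a'` is not in the branch at `a` towards `b`
  have ha' : a' ∉ Br T a b := by
    intro hmem
    have := sep hT hab hmem hw
    have t : T.dist a' w ≥ 1 + T.dist a w := by omega
    omega
  have gg : T.dist u a' = T.dist u a + T.dist a a' := (h65_on_geo hT hab hu ha').1.symm
  apply Finset.card_lt_card
  rw [Finset.ssubset_iff_of_subset]
  · refine ⟨a, ?_, left_notMem_Br⟩
    -- `a` is in the branch at `a'` towards `b'`
    by_contra hcon
    have := (h65_on_geo hT hab' hu' hcon).1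
    have t2 : T.dist a' a = T.dist a a' := SimpleGraph.dist_comm
    omega
  · intro v hv
    by_contra hcon
    have k1 := (h65_on_geo hT hab' hu' hcon).1
    have k2 := (h65_on_geo hT hab hv ha').1
    have t : T.dist u v ≤ T.dist u a + T.dist a v := hT.connected.dist_triangle
    have c1 : T.dist a' v = T.dist v a' := SimpleGraph.dist_comm
    have c2 : T.dist a v = T.dist v a := SimpleGraph.dist_comm
    omega

/-- An edge separating `u` from `w` is determined by the number of vertices on the side of `u`. -/
theorem edge_unique_of_card (hT : T.IsTree) {a b a' b' : V} (hab : T.Adj a b)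
    (hab' : T.Adj a' b') {u w : V} (hu : u ∈ Br T a b) (hw : w ∉ Br T a b)
    (hu' : u ∈ Br T a' b') (hw' : w ∉ Br T a' b') (h : (Br T a b).card = (Br T a' b').card) :
    a = a' ∧ b = b' := by
  rcases lt_trichotomy (T.dist u a) (T.dist u a') with hd | hd | hd
  · have := h65_card_lt hT hab hab' hu hw hu' hw' hd
    omega
  · exact edge_unique_of_dist hT hab hab' hu hw hu' hw' hd
  · have := h65_card_lt hT hab' hab hu' hw' hu hw hd
    omega

/-- A branch determines its directed edge. -/
theorem edge_unique_of_eq (hT : T.IsTree) {a b a' b' : V} (hab : T.Adj a b)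
    (hab' : T.Adj a' b') (h : Br T a b = Br T a' b') : a = a' ∧ b = b' := by
  have hb : b ∈ Br T a' b' := h ▸ right_mem_Br hab
  have ha : a ∉ Br T a' b' := h ▸ left_notMem_Br
  have := crossing hT hab' hb ha hab.symm
  exact ⟨this.2, this.1⟩

end Pool.Agent.H64.TD
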