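import Pool.Agent.H64.TD.TreeA

set_option autoImplicit false

/-!
Module TreeB: branches and levels in trees, continued.
-/

namespace Pool.Agent.H64.TD

open Finset Classical

variable {V : Type} {T : SimpleGraph V} [Fintype V]

theorem exists_br (hT : T.IsTree) {c u : V} (h : u ≠ c) : ∃ b, T.Adj c b ∧ u ∈ Br T c b := by
  obtain ⟨b, hb, hd⟩ := exists_closer hT.1 h
  refine ⟨b, hb, ?_⟩
  rw [mem_Br, SimpleGraph.dist_comm (u := b), SimpleGraph.dist_comm (u := c)]
  omega

theorem br_unique (hT : T.IsTree) {c b b' u : V} (h : T.Adj c b) (h' : T.Adj c b')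
    (hu : u ∈ Br T c b) (hu' : u ∈ Br T c b') : b = b' := by
  rw [mem_Br_iff hT h] at hu
  rw [mem_Br_iff hT h'] at hu'
  refine closer_unique hT (u := u) (w := c) h h' ?_ ?_
  · rw [SimpleGraph.dist_comm (u := u) (v := b), SimpleGraph.dist_comm (u := u) (v := c)]
    omega
  · rw [SimpleGraph.dist_comm (u := u) (v := b'), SimpleGraph.dist_comm (u := u) (v := c)]
    omega

/-- If `c` is not in the branch `Br a b`, that branch is contained in a branch at `c`. -/
theorem br_subset_of_notMem (hT : T.IsTree) {a b c : V} (hab : T.Adj a b) (hc : c ∉ Br T a b) :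
    ∃ b', T.Adj c b' ∧ Br T a b ⊆ Br T c b' := by
  have hb := right_mem_Br hab
  have hbc : b ≠ c := by
    rintro rfl; exact hc hb
  obtain ⟨b', hb', hd⟩ := exists_closer hT.1 hbc
  refine ⟨b', hb', fun u hu => ?_⟩
  rw [mem_Br]
  have h1 := sep hT hab hu hc
  have h2 := sep hT hab hb hc
  rw [SimpleGraph.dist_self] at h2
  have h3 : T.dist b' u ≤ T.dist b' b + T.dist b u := hT.1.dist_triangle
  rw [SimpleGraph.dist_comm (u := b') (v := b), SimpleGraph.dist_comm (u := b) (v := u)] at h3
  rw [SimpleGraph.dist_comm (u := c) (v := u)]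
  omega

/-- If `c` is in the branch `Br a b`, the complement is contained in a branch at `c`. -/
theorem compl_br_subset_of_mem (hT : T.IsTree) {a b c : V} (hab : T.Adj a b)
    (hc : c ∈ Br T a b) : ∃ b', T.Adj c b' ∧ ∀ u, u ∉ Br T a b → u ∈ Br T c b' := by
  have hc' : c ∉ Br T b a := by
    rw [mem_Br_swap hT hab]; exact not_not.2 hc
  obtain ⟨b', h1, h2⟩ := br_subset_of_notMem hT hab.symm hc'
  exact ⟨b', h1, fun u hu => h2 ((mem_Br_swap hT hab).2 hu)⟩

/-- Two different vertices have branches covering everything. -/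
theorem cover (hT : T.IsTree) {c c' : V} (h : c ≠ c') :
    ∃ b b', T.Adj c b ∧ T.Adj c' b' ∧ ∀ u, u ∈ Br T c b ∨ u ∈ Br T c' b' := by
  obtain ⟨b, hb, hcb⟩ := exists_br hT (c := c) (u := c') h.symm
  obtain ⟨b', hb', hb''⟩ := compl_br_subset_of_mem hT hb hcb
  refine ⟨b, b', hb, hb', fun u => ?_⟩
  by_cases hu : u ∈ Br T c b
  · exact Or.inl hu
  · exact Or.inr (hb'' u hu)

/-- The neighbours of a vertex of a branch lie in the branch, except the one edge. -/
theorem br_closed (hT : T.IsTree) {a b : V} (hab : T.Adj a b) {u v : V} (hu : u ∈ Br T a b)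
    (huv : T.Adj u v) : v ∈ Br T a b ∨ v = a := by
  by_cases hv : v ∈ Br T a b
  · exact Or.inl hv
  · exact Or.inr (crossing hT hab hu hv huv).2

/-- The parent of a vertex of a branch. -/
theorem h97_parent (hT : T.IsTree) {a b : V} (hab : T.Adj a b) {u : V} (hu : u ∈ Br T a b)
    (hub : u ≠ b) : ∃ v, v ∈ Br T a b ∧ T.Adj u v ∧ T.dist b v + 1 = T.dist b u ∧
      T.dist a v + 1 = T.dist a u := by
  obtain ⟨v, hv, hd⟩ := exists_closer hT.1 (u := b) (w := u) hub.symm
  have hvm : v ∈ Br T a b := by
    by_contra hc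
    exact hub (crossing hT hab hu hc hv).1
  refine ⟨v, hvm, hv, hd, ?_⟩
  rw [mem_Br_iff hT hab] at hu hvm
  omega

/-- Induction on the vertices of a branch from the top. -/
theorem h97_branch_induction (hT : T.IsTree) {a b : V} (hab : T.Adj a b) {P : V → Prop}
    (h0 : P b) (h1 : ∀ u v, u ∈ Br T a b → v ∈ Br T a b → T.Adj u v → P v → P u) :
    ∀ u, u ∈ Br T a b → P u := by
  have key : ∀ k u, u ∈ Br T a b → T.dist b u = k → P u := by
    intro k
    induction k with
    | zero =>
      intro u hu hk
      have : b = u := (hT.1.dist_eq_zero_iff).1 hk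
      rw [← this]; exact h0
    | succ k ih =>
      intro u hu hk
      have hub : u ≠ b := by
        rintro rfl; rw [SimpleGraph.dist_self] at hk; omega
      obtain ⟨v, hv, huv, hd, -⟩ := h97_parent hT hab hu hub
      exact h1 u v hu hv huv (ih v hv (by omega))
  intro u hu
  exact key _ u hu rfl

/-- A set closed under adjacency except at `c` contains every branch at `c` that it meets. -/
theorem br_subset_of_closed (hT : T.IsTree) {c b : V} (hcb : T.Adj c b) {I : Finset V}
    (hc : c ∉ I) (hI : ∀ u ∈ I, ∀ v, T.Adj u v → v ∈ I ∨ v = c) {u : V} (hu : u ∈ Br T c b)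
    (huI : u ∈ I) : Br T c b ⊆ I := by
  have hne : ∀ v ∈ Br T c b, v ≠ c := by
    rintro v hv rfl; exact left_notMem_Br hv
  have hb : b ∈ I := by
    have := h97_branch_induction hT hcb (P := fun u => u ∈ I → b ∈ I) (fun h => h)
      (fun u v hu hv huv h hu' => h ((hI u hu' v huv).resolve_right (hne v hv))) u hu
    exact this huI
  exact h97_branch_induction hT hcb (P := fun u => u ∈ I) hb
    (fun u v hu _ huv hv' => (hI v hv' u huv.symm).resolve_right (hne u hu))

theorem card_BS {a b : V} : Fintype.card ↥(BS T a b) = (Br T a b).card + 1 := by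
  rw [Fintype.card_coe, BS, card_insert_of_notMem left_notMem_Br]

/-- A branch induces, with its root, a planted tree. -/
theorem planted_BX (hT : T.IsTree) {a b : V} (hab : T.Adj a b) :
    Planted (BX T a b) (bRoot T a b) ⟨b, Finset.mem_insert_of_mem (right_mem_Br hab)⟩ := by
  refine ⟨⟨?_, ?_⟩, ?_⟩
  · have hreach : ∀ u (hu : u ∈ Br T a b),
        (BX T a b).Reachable (bRoot T a b) ⟨u, Finset.mem_insert_of_mem hu⟩ := by
      intro u hu
      have key := h97_branch_induction hT hab
        (P := fun u => ∀ hu : u ∈ Br T a b,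
          (BX T a b).Reachable (bRoot T a b) ⟨u, Finset.mem_insert_of_mem hu⟩) ?_ ?_ u hu
      · exact key hu
      · intro hb
        apply SimpleGraph.Adj.reachable
        exact hab
      · intro u v _ hv huv ih hu
        refine (ih hv).trans (SimpleGraph.Adj.reachable ?_)
        exact huv.symm
    have hroot : ∀ z : ↥(BS T a b), (BX T a b).Reachable (bRoot T a b) z := by
      rintro ⟨z, hz⟩
      rcases Finset.mem_insert.1 hz with rfl | hz'
      · exact SimpleGraph.Reachable.refl _
      · exact hreach z hz'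
    have : Nonempty ↥(BS T a b) := ⟨bRoot T a b⟩
    exact ⟨fun x y => (hroot x).symm.trans (hroot y)⟩
  · exact hT.2.comap (⟨fun x => (x : V), fun {x y} h => h⟩ : BX T a b →g T)
      Subtype.val_injective
  · rintro ⟨v, hv⟩
    constructor
    · intro h
      have h' : T.Adj a v := h
      rcases Finset.mem_insert.1 hv with rfl | hv'
      · exact absurd h' (SimpleGraph.irrefl T)
      · have := crossing hT hab hv' left_notMem_Br h'.symm
        simp [this.1]
    · intro h
      have h' : v = b := congrArg Subtype.val h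
      subst h'
      exact hab

/-- The inclusion of a branch is a closed embedding. -/
theorem cl_BX (hT : T.IsTree) {a b : V} (hab : T.Adj a b) :
    Cl (BX T a b) (bRoot T a b) T (fun x => (x : V)) := by
  refine ⟨⟨Subtype.val_injective, fun u v h => h⟩, ?_⟩
  rintro ⟨z, hz⟩ hne v hv
  have hz' : z ∈ Br T a b := by
    rcases Finset.mem_insert.1 hz with h | h
    · exact absurd (Subtype.ext h) hne
    · exact h
  have hv' : v ∈ BS T a b := by
    rcases br_closed hT hab hz' hv with h | h
    · exact Finset.mem_insert_of_mem h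
    · rw [h]; exact Finset.mem_insert_self _ _
  exact ⟨⟨v, hv'⟩, hv, rfl⟩

theorem mem_Br_emb {α : Type} [Fintype α] {X : SimpleGraph α} (hX : X.Connected) (hT : T.IsTree)
    {f : α → V} (hf : Emb X T f) (a b u : α) : f u ∈ Br T (f a) (f b) ↔ u ∈ Br X a b := by
  rw [mem_Br, mem_Br, dist_emb hX hT hf, dist_emb hX hT hf]

/-- In a planted tree, the branch at the root is everything but the root. -/
theorem planted_Br {α : Type} [Fintype α] {X : SimpleGraph α} {r x : α} (hX : Planted X r x) :
    Br X r x = univ.erase r := by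
  ext u
  rw [Finset.mem_erase]
  constructor
  · intro hu
    refine ⟨?_, mem_univ _⟩
    rintro rfl; exact left_notMem_Br hu
  · rintro ⟨hu, -⟩
    obtain ⟨b, hb, hub⟩ := exists_br hX.1 hu
    rw [← (hX.2 b).1 hb]; exact hub

theorem mem_Lv {a b u : V} {k : ℕ} : u ∈ Lv T a b k ↔ u ∈ Br T a b ∧ T.dist a u = k := by
  simp [Lv]

theorem Lv_zero {a b : V} : Lv T a b 0 = ∅ := by
  rw [Finset.eq_empty_iff_forall_notMem]
  intro u hu
  rw [mem_Lv, mem_Br] at hu
  omega

theorem Lv_one (hT : T.IsTree) {a b : V} (hab : T.Adj a b) : Lv T a b 1 = {b} := by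
  ext u
  rw [mem_Lv, Finset.mem_singleton]
  constructor
  · rintro ⟨hu, hd⟩
    rw [mem_Br_iff hT hab] at hu
    have : T.dist b u = 0 := by omega
    exact ((hT.1.dist_eq_zero_iff).1 this).symm
  · rintro rfl
    exact ⟨right_mem_Br hab, SimpleGraph.dist_eq_one_iff_adj.2 hab⟩

theorem card_Lv_succ (hT : T.IsTree) {a b : V} (hab : T.Adj a b) {k : ℕ} (hk : 1 ≤ k) :
    (Lv T a b (k + 1)).card + (Lv T a b k).card = ∑ u ∈ Lv T a b k, dg T u := by
  -- the degree of a vertex of level `k`
  have hdg : ∀ u ∈ Lv T a b k,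
      dg T u = ((Lv T a b (k + 1)).filter (fun v => T.Adj u v)).card + 1 := by
    intro u hu
    rw [mem_Lv] at hu
    obtain ⟨hu, hd⟩ := hu
    have hau : a ≠ u := by
      rintro rfl; exact left_notMem_Br hu
    obtain ⟨p, hp, hpd⟩ := exists_closer hT.1 hau
    have hsplit : (univ.filter (fun w => T.Adj u w)) =
        insert p ((Lv T a b (k + 1)).filter (fun v => T.Adj u v)) := by
      ext v
      simp only [Finset.mem_filter, Finset.mem_insert, Finset.mem_univ, true_and]
      constructor
      · intro huv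
        rcases hT.dist_eq_dist_add_one_of_adj a huv with h | h
        · left
          exact closer_unique hT huv hp (by omega) hpd
        · right
          refine ⟨?_, huv⟩
          rw [mem_Lv]
          refine ⟨?_, by omega⟩
          rcases br_closed hT hab hu huv with h' | h'
          · exact h'
          · subst h'
            rw [SimpleGraph.dist_self] at h
            omega
      · rintro (rfl | ⟨-, h⟩)
        · exact hp
        · exact h
    unfold dg
    rw [hsplit, Finset.card_insert_of_notMem]
    intro hc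
    rw [Finset.mem_filter, mem_Lv] at hc
    omega
  rw [Finset.sum_congr rfl hdg, Finset.sum_add_distrib, Finset.sum_const, smul_eq_mul, mul_one]
  congr 1
  have h2 : ∀ v ∈ Lv T a b (k + 1), ((Lv T a b k).filter (fun u => T.Adj u v)).card = 1 := by
    intro v hv
    rw [mem_Lv] at hv
    obtain ⟨hv, hd⟩ := hv
    have hav : a ≠ v := by
      rintro rfl; exact left_notMem_Br hv
    obtain ⟨p, hp, hpd⟩ := exists_closer hT.1 hav
    rw [Finset.card_eq_one]
    refine ⟨p, ?_⟩
    ext u
    rw [Finset.mem_filter, mem_Lv, Finset.mem_singleton]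
    constructor
    · rintro ⟨⟨_, h1⟩, h2⟩
      exact closer_unique hT h2.symm hp (by omega) hpd
    · rintro rfl
      refine ⟨⟨?_, by omega⟩, hp.symm⟩
      rcases br_closed hT hab hv hp with h' | h'
      · exact h'
      · subst h'
        rw [SimpleGraph.dist_self] at hpd
        omega
  have h3 := Finset.sum_card_bipartiteAbove_eq_sum_card_bipartiteBelow (s := Lv T a b k)
    (t := Lv T a b (k + 1)) (fun u v => T.Adj u v)
  unfold Finset.bipartiteAbove Finset.bipartiteBelow at h3
  rw [h3, Finset.sum_congr rfl h2]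
  simp

/-- Geodesics inside a branch: a branch contains at least as many vertices as the distance
from its root to any of its vertices. -/
theorem dist_le_card_Br (hT : T.IsTree) {a b u : V} (hab : T.Adj a b) (hu : u ∈ Br T a b) :
    T.dist a u ≤ (Br T a b).card := by
  have key := h97_branch_induction hT hab
    (P := fun u => Finset.Icc 1 (T.dist a u) ⊆ (Br T a b).image (fun v => T.dist a v)) ?_ ?_ u hu
  · have h1 := Finset.card_le_card key
    rw [Nat.card_Icc] at h1
    have h2 := Finset.card_image_le (s := Br T a b) (f := fun v => T.dist a v)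
    omega
  · intro j hj
    rw [SimpleGraph.dist_eq_one_iff_adj.2 hab, Finset.mem_Icc] at hj
    rw [Finset.mem_image]
    refine ⟨b, right_mem_Br hab, ?_⟩
    rw [SimpleGraph.dist_eq_one_iff_adj.2 hab]; omega
  · intro u v hu hv huv ih j hj
    rw [Finset.mem_Icc] at hj
    rcases Nat.lt_or_ge (T.dist a v) j with hjv | hjv
    · rw [Finset.mem_image]
      refine ⟨u, hu, ?_⟩
      show T.dist a u = j
      rcases hT.dist_eq_dist_add_one_of_adj a huv with h | h <;> omega
    · exact ih (Finset.mem_Icc.2 ⟨hj.1, hjv⟩)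

/-- Counting disjoint products. -/
theorem card_prod_le {ι : Type} (S : Finset ι) (A B : ι → Finset V)
    (h : ∀ i ∈ S, ∀ j ∈ S, ∀ u w, u ∈ A i → w ∈ B i → u ∈ A j → w ∈ B j → i = j) :
    ∑ i ∈ S, (A i).card * (B i).card ≤ Fintype.card V ^ 2 := by
  have h1 : ∑ i ∈ S, (A i).card * (B i).card = (S.biUnion fun i => A i ×ˢ B i).card := by
    rw [Finset.card_biUnion]
    · exact Finset.sum_congr rfl fun i _ => (Finset.card_product _ _).symm
    · intro i hi j hj hij
      show Disjoint (A i ×ˢ B i) (A j ×ˢ B j)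
      rw [Finset.disjoint_left]
      rintro ⟨u, w⟩ hu hw
      rw [Finset.mem_product] at hu hw
      exact hij (h i hi j hj u w hu.1 hu.2 hw.1 hw.2)
  rw [h1]
  refine (Finset.card_le_univ _).trans ?_
  rw [Fintype.card_prod, sq]

/-- Number of directed edges with a branch of given size. -/
theorem card_edges_mul (hT : T.IsTree) (M : ℕ) (S : Finset (V × V))
    (hS : ∀ e ∈ S, T.Adj e.1 e.2 ∧ (Br T e.1 e.2).card = M) :
    S.card * (M * (Fintype.card V - M)) ≤ Fintype.card V ^ 2 := by
  have h := card_prod_le S (fun e => Br T e.1 e.2) (fun e => (Br T e.1 e.2)ᶜ) ?_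
  · refine le_trans (le_of_eq ?_) h
    rw [← smul_eq_mul, ← Finset.sum_const]
    refine Finset.sum_congr rfl fun e he => ?_
    rw [Finset.card_compl, (hS e he).2]
  · intro e he e' he' u w hu hw hu' hw'
    rw [Finset.mem_compl] at hw hw'
    have := edge_unique_of_card hT (hS e he).1 (hS e' he').1 hu hw hu' hw'
      ((hS e he).2.trans (hS e' he').2.symm)
    exact Prod.ext this.1 this.2

end Pool.Agent.H64.TD
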